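import Pool.Agent.H77GP.A10

/-!
# The `L²`-Betti numbers do not depend on the model of the group von Neumann algebra (vanishing)
-/

set_option autoImplicit false
set_option linter.unusedSectionVars false

open scoped Matrix ENNReal InnerProductSpace

noncomputable section

attribute [local instance] VN831.bcFunctor_additive VN831.viaAdd VN831.viaMod V7N.bcF_additive
  V7N.rmAdd V7N.rmMod

namespace Pool.Agent.H77GP

open Pool.Agent.Helper655.VN Pool.Agent.RK VN831 Pool.Agent.N496.CV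

section model

variable {K N H : Type} [Group K] [Ring N] [NormedAddCommGroup H] [InnerProductSpace ℂ H] [CompleteSpace H]
  {c : K →* N} {tr0 : N → ℝ} {e : K → H} {π : N →+* (H →L[ℂ] H)}

/-- the coordinates -/
def cR (h : IsVN c tr0 e π) : H ≃ₗᵢ[ℂ] EllTwo K := (HilbertBasis.mk h.orth h.dense).repr

theorem cR_e (h : IsVN c tr0 e π) (g : K) : cR h (e g) = Pool.Agent.Helper655.VN.dl g := by
  classical
  have h1 : (HilbertBasis.mk h.orth h.dense) g = e g := by rw [HilbertBasis.coe_mk]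
  have h2 := HilbertBasis.repr_self (HilbertBasis.mk h.orth h.dense) g
  rw [h1] at h2
  unfold cR Pool.Agent.Helper655.VN.dl
  rw [h2]

/-- conjugation -/
def cP (h : IsVN c tr0 e π) : (H →L[ℂ] H) ≃⋆ₐ[ℂ] (EllTwo K →L[ℂ] EllTwo K) := (cR h).conjStarAlgEquiv

theorem cP_apply (h : IsVN c tr0 e π) (T : H →L[ℂ] H) (f : EllTwo K) : cP h T f = cR h (T ((cR h).symm f)) :=
  LinearIsometryEquiv.conjStarAlgEquiv_apply_apply _ _ _

theorem cP_dl (h : IsVN c tr0 e π) (T : H →L[ℂ] H) (g : K) : cP h T (Pool.Agent.Helper655.VN.dl g) = cR h (T (e g)) := by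
  rw [cP_apply, ← cR_e h g, LinearIsometryEquiv.symm_apply_apply]

theorem cP_R (h : IsVN c tr0 e π) (g : K) (R : H →L[ℂ] H) (hR : ∀ x, R (e x) = e (x * g)) :
    cP h R = rho K g⁻¹ := by
  apply ext_dl
  intro x
  rw [cP_dl, hR, cR_e, rho_dl, inv_inv]

theorem cP_R' (h : IsVN c tr0 e π) (g : K) : ∃ R : H →L[ℂ] H, (∀ x, R (e x) = e (x * g)) ∧ cP h R = rho K g⁻¹ := by
  refine ⟨(cP h).symm (rho K g⁻¹), ?_, by simp⟩
  intro x
  apply (cR h).injective
  have h1 : cP h ((cP h).symm (rho K g⁻¹)) = rho K g⁻¹ := by simp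
  have h2 := cP_dl h ((cP h).symm (rho K g⁻¹)) x
  rw [h1] at h2
  rw [← h2, rho_dl, cR_e, inv_inv]

theorem cP_mem (h : IsVN c tr0 e π) (x : N) : cP h (π x) ∈ NG K := by
  rw [mem_NG]
  intro g
  obtain ⟨R, hR, hR2⟩ := cP_R' h g⁻¹
  rw [inv_inv] at hR2
  have h1 := (h.range (π x)).mp ⟨x, rfl⟩ g⁻¹ R hR
  have h2 : π x * R = R * π x := by
    ext ξ
    exact h1 ξ
  rw [← hR2, ← map_mul, ← map_mul, h2]

/-- the isomorphism with the standard model -/
def mF (h : IsVN c tr0 e π) : N →+* NG K where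
  toFun x := ⟨cP h (π x), cP_mem h x⟩
  map_one' := Subtype.ext (by change cP h (π 1) = 1; rw [map_one, map_one])
  map_mul' x y := Subtype.ext (by change cP h (π (x * y)) = cP h (π x) * cP h (π y); rw [map_mul, map_mul])
  map_zero' := Subtype.ext (by change cP h (π 0) = 0; rw [map_zero, map_zero])
  map_add' x y := Subtype.ext (by change cP h (π (x + y)) = cP h (π x) + cP h (π y); rw [map_add, map_add])

theorem mF_inj (h : IsVN c tr0 e π) : Function.Injective (mF h) := by
  intro x y hxy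
  have h1 : cP h (π x) = cP h (π y) := congrArg Subtype.val hxy
  exact h.inj ((EquivLike.injective (cP h) : Function.Injective (cP h)) h1)

theorem mF_surj (h : IsVN c tr0 e π) : Function.Surjective (mF h) := by
  intro y
  have h1 : ∃ x, π x = (cP h).symm y.1 := by
    rw [h.range]
    intro g R hR ξ
    have h2 := cP_R h g R hR
    have h3 : rho K g⁻¹ * y.1 = y.1 * rho K g⁻¹ := (mem_NG _).1 y.2 g⁻¹
    have h4 : (cP h).symm y.1 * R = R * (cP h).symm y.1 := by
      apply (EquivLike.injective (cP h) : Function.Injective (cP h))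
      rw [map_mul, map_mul, h2]
      have h5 : cP h ((cP h).symm y.1) = y.1 := by simp
      rw [h5, h3]
    exact congrArg (fun T : H →L[ℂ] H => T ξ) h4
  obtain ⟨x, hx⟩ := h1
  refine ⟨x, Subtype.ext ?_⟩
  change cP h (π x) = y.1
  rw [hx]
  simp

theorem mF_c (h : IsVN c tr0 e π) (g : K) : mF h (c g) = canL g := by
  apply Subtype.ext
  change cP h (π (c g)) = lam K g
  apply ext_dl
  intro x
  rw [cP_dl, h.left, cR_e, lam_dl]

theorem mF_tr (h : IsVN c tr0 e π) (x : N) : tr0 x = (tr (mF h x)).re := by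
  rw [h.trace, tr_apply]
  change _ = (⟪Pool.Agent.Helper655.VN.dl 1, cP h (π x) (Pool.Agent.Helper655.VN.dl 1)⟫_ℂ).re
  rw [cP_dl, ← cR_e h 1, LinearIsometryEquiv.inner_map_map]

end model

/-! ### dimensions -/

section dim

variable {R : Type} [Ring R] {tr0 : R → ℝ}

theorem dimL_congr {M M' : Type} [AddCommGroup M] [Module R M] [AddCommGroup M'] [Module R M'] (f : M ≃ₗ[R] M') :
    dimL tr0 M = dimL tr0 M' := by
  unfold dimL
  refine iSup_congr fun k => iSup_congr fun e => iSup_congr fun he => ?_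
  refine iSup_congr_Prop ⟨?_, ?_⟩ (fun _ => rfl)
  · rintro ⟨g, hg⟩
    exact ⟨f.toLinearMap ∘ₗ g, f.injective.comp hg⟩
  · rintro ⟨g, hg⟩
    exact ⟨f.symm.toLinearMap ∘ₗ g, f.symm.injective.comp hg⟩

theorem dimL_HR {K : Type} [Group K] (c : K →* R) {a b d : ℕ} (A : Matrix (Fin a) (Fin b) R)
    (B : Matrix (Fin b) (Fin d) R) (e : Matrix (Fin b) (Fin b) R) (hee : e * e = e) (heB : e * B = 0)
    (hAe : A * e = 0) : ENNReal.ofReal (∑ i, tr0 (e i i)) ≤ dimL tr0 (HR (RingHom.id R) c A B) := by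
  have hfun : ∃ f : rowMod e →ₗ[R] HR (RingHom.id R) c A B, Function.Injective f := by
    have hz : ∀ v : rowMod e, (show Fin b → Via (RingHom.id R) from (v : Fin b → R)) ∈ ZR (RingHom.id R) c B := by
      intro v
      have hv : Matrix.vecMul (v : Fin b → R) e = v := v.2
      have h1 : Matrix.vecMul (v : Fin b → R) B = 0 := by
        rw [← hv, Matrix.vecMul_vecMul, heB, Matrix.vecMul_zero]
      exact ⟨fun i _ => mem_SR' c _, h1⟩
    let g : rowMod e →ₗ[R] ZR (RingHom.id R) c B :=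
      { toFun := fun v => ⟨(show Fin b → Via (RingHom.id R) from (v : Fin b → R)), hz v⟩
        map_add' := fun v w => rfl
        map_smul' := fun s v => rfl }
    refine ⟨(Submodule.mkQ _).comp g, ?_⟩
    rw [← LinearMap.ker_eq_bot, LinearMap.ker_eq_bot']
    intro v hv
    have h1 : g v ∈ (BR (RingHom.id R) c A).submoduleOf (ZR (RingHom.id R) c B) := by
      rw [LinearMap.comp_apply, Submodule.mkQ_apply, Submodule.Quotient.mk_eq_zero] at hv
      exact hv
    obtain ⟨w, -, hw⟩ := h1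
    have hw' : Matrix.vecMul (show Fin a → R from w) A = (v : Fin b → R) := hw
    apply Subtype.ext
    have hv2 : Matrix.vecMul (v : Fin b → R) e = v := v.2
    rw [← hv2, ← hw', Matrix.vecMul_vecMul, hAe, Matrix.vecMul_zero]
    rfl
  unfold dimL
  exact le_iSup_of_le b (le_iSup_of_le e (le_iSup_of_le hee (le_iSup_of_le hfun le_rfl)))

end dim

section conv

variable {K N H : Type} [Group K] [Ring N] [NormedAddCommGroup H] [InnerProductSpace ℂ H] [CompleteSpace H]
  {c : K →* N} {tr0 : N → ℝ} {e : K → H} {π : N →+* (H →L[ℂ] H)}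

theorem rk_of_model (h : IsVN c tr0 e π) {a b d : ℕ} (A : Matrix (Fin a) (Fin b) N) (B : Matrix (Fin b) (Fin d) N)
    (hAB : A * B = 0) (h0 : dimL tr0 (HR (RingHom.id N) c A B) = 0) :
    rk (tau K) (A.map (mF h)) + rk (tau K) (B.map (mF h)) = b := by
  classical
  have hAB' : A.map (mF h) * B.map (mF h) = 0 := by
    rw [← Matrix.map_mul, hAB]
    ext1 i j
    exact map_zero (mF h)
  obtain ⟨p, q, hp, hq, hpq, hqp, hTr⟩ := projections (A.map (mF h)) (B.map (mF h)) hAB'
  have hqB : q * B.map (mF h) = 0 := by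
    rw [← hp.mul, ← Matrix.mul_assoc, hqp, Matrix.zero_mul]
  have hAq : A.map (mF h) * q = A.map (mF h) := by
    have := congrArg Matrix.conjTranspose hq.mul
    rwa [Matrix.conjTranspose_mul, hq.star, Matrix.conjTranspose_conjTranspose] at this
  have hAp : A.map (mF h) * p = 0 := Pool.Agent.RK.Lp.lp_min_mat hp _ hAB'
  have heB : (1 - p - q) * B.map (mF h) = 0 := by
    rw [Matrix.sub_mul, Matrix.sub_mul, Matrix.one_mul, hp.mul, hqB, sub_self, sub_zero]
  have hAe : A.map (mF h) * (1 - p - q) = 0 := by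
    rw [Matrix.mul_sub, Matrix.mul_sub, Matrix.mul_one, hAp, hAq, sub_zero, sub_self]
  have hee : (1 - p - q) * (1 - p - q) = 1 - p - q := by
    rw [Matrix.mul_sub, Matrix.mul_sub, Matrix.mul_one, Matrix.sub_mul, Matrix.sub_mul, Matrix.one_mul, hp.idem, hqp,
      Matrix.sub_mul, Matrix.sub_mul, Matrix.one_mul, hpq, hq.idem]
    simp
  -- the projection in the model
  choose s hs using mF_surj h
  set f : Matrix (Fin b) (Fin b) N := (1 - p - q).map s with hf
  have hfm : f.map (mF h) = 1 - p - q := by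
    ext1 i j
    rw [hf, Matrix.map_apply, Matrix.map_apply, hs]
  have hmap : ∀ {m n : ℕ} (X Y : Matrix (Fin m) (Fin n) N), X.map (mF h) = Y.map (mF h) → X = Y := by
    intro m n X Y hXY
    ext1 i j
    exact mF_inj h (congrFun (congrFun hXY i) j)
  have hz : ∀ {m n : ℕ}, (0 : Matrix (Fin m) (Fin n) N).map (mF h) = 0 := by
    intro m n
    ext1 i j
    exact map_zero (mF h)
  have h1 := dimL_HR (tr0 := tr0) c A B f (hmap _ _ (by rw [Matrix.map_mul, hfm, hee]))
    (hmap _ _ (by rw [Matrix.map_mul, hfm, heB, hz])) (hmap _ _ (by rw [Matrix.map_mul, hfm, hAe, hz]))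
  rw [h0, nonpos_iff_eq_zero, ENNReal.ofReal_eq_zero] at h1
  have h2 : Tr (tau K) (1 - p - q) ≤ 0 := by
    have h3 : ∑ i, tr0 (f i i) = ∑ i, (tr ((1 - p - q) i i)).re := by
      refine Finset.sum_congr rfl fun i _ => ?_
      rw [mF_tr h]
      have : mF h (f i i) = (1 - p - q) i i := by
        rw [← hfm]; rfl
      rw [this]
    rw [h3] at h1
    exact h1
  have h3 := Pool.Agent.RK.RkSyl.rk_sylvester (vn_NG (G := K)) (A.map (mF h)) (B.map (mF h)) hAB'
  rw [Fintype.card_fin] at h3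
  rw [hTr] at h2
  linarith

theorem mF_evM (h : IsVN c tr0 e π) (x : MonoidAlgebra ℤ K) : mF h (V7N.evM c x) = V7N.evM (canL : K →* NG K) x := by
  rw [← evM_comp]
  congr 2
  ext1 g
  exact mF_c h g

theorem l2_of_has (C : V7N.FreeRes K) (k : ℕ) (h : HasL2Betti K k 0) : l2Betti K k = 0 := by
  obtain ⟨N, H, c, tr0, e, π, hV, hb⟩ := h
  have hmat : ∀ m, ((C.d m).map (V7N.evM c)).map (mF hV) = nm C m := by
    intro m
    unfold nm
    ext1 i j
    exact mF_evM hV _
  have hprod : ∀ m, (C.d (m + 1)).map (V7N.evM c) * (C.d m).map (V7N.evM c) = 0 := by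
    intro m
    rw [← Matrix.map_mul, V7N.gen_mul]
    ext1 i j
    exact map_zero (V7N.evM c)
  cases k with
  | zero =>
    obtain ⟨f⟩ := V7N.v7_zero C (MonoidHom.id K) Function.injective_id c c (RingHom.id N) (fun _ => rfl) (indep_id' c)
    have h1 : dimL tr0 (HR (RingHom.id N) c ((C.d 0).map (V7N.evM c))
        ((0 : Matrix (Fin (C.r 0)) (Fin 0) (MonoidAlgebra ℤ K)).map (V7N.evM c))) = 0 := by
      rw [← hb]
      exact (dimL_congr f).symm
    have h2 := rk_of_model hV _ _ (by ext1 i j; exact j.elim0) h1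
    rw [hmat, rk_cols_zero, add_zero] at h2
    exact (zero_iff C).2 h2
  | succ k =>
    obtain ⟨f⟩ := V7N.v7_succ C k (MonoidHom.id K) Function.injective_id c c (RingHom.id N) (fun _ => rfl) (indep_id' c)
    have h1 : dimL tr0 (HR (RingHom.id N) c ((C.d (k + 1)).map (V7N.evM c)) ((C.d k).map (V7N.evM c))) = 0 := by
      rw [← hb]
      exact (dimL_congr f).symm
    have h2 := rk_of_model hV _ _ (hprod k) h1
    rw [hmat, hmat] at h2
    exact (succ_iff C k).2 h2

end conv

end Pool.Agent.H77GP
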