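import Pool.Agent.H77GP.A9
import Pool.Agent.H77GP.A11

/-!
# The `L²`-Betti numbers of graph products above the middle dimension of a contractible manifold
-/

set_option autoImplicit false
set_option linter.unusedSectionVars false

noncomputable section

namespace Pool.Agent.H77GP

open Finset Pool.Agent.H77RA Pool.Agent.Helper655.VN Pool.Agent.RK
open scoped Manifold ContDiff

/-- the rational numbers in the von Neumann algebra -/
def ratN (Q : Type) [Group Q] : ℚ →+* NG Q := (algebraMap ℂ (NG Q)).comp (algebraMap ℚ ℂ)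

theorem main {V : Type} [Fintype V] (Γ : SimpleGraph V) (G : V → Type) [∀ v, Group (G v)]
    (N : ∀ v, Subgroup (G v)) (hN : ∀ v, (N v).Normal) (hF : ∀ v, Nonempty (V7N.FreeRes (N v)))
    (hb : ∀ v k, N496.CV.HasL2Betti (N v) k 0) (z : ∀ v, G v) (hz : ∀ v, ¬ IsOfFinOrder (z v))
    {E : Type} [NormedAddCommGroup E] [NormedSpace ℝ E]
    [FiniteDimensional ℝ E] {HH : Type} [TopologicalSpace HH] (I : ModelWithCorners ℝ E HH) {W : Type}
    [TopologicalSpace W] [T2Space W] [ChartedSpace HH W] [ContractibleSpace W]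
    [MulAction (GP Γ G) W] [ContinuousConstSMul (GP Γ G) W] [ProperlyDiscontinuousSMul (GP Γ G) W]
    {k : ℕ} (hk : Module.finrank ℝ E < 2 * k) : N496.CV.HasL2Betti (GP Γ G) k 0 := by
  obtain ⟨o⟩ : Nonempty (LinearOrder V) := ⟨LinearOrder.lift' (Fintype.equivFin V) (Fintype.equivFin V).injective⟩
  obtain ⟨j, rfl⟩ : ∃ j, k = j + 1 := ⟨k - 1, by omega⟩
  obtain ⟨U, hU, ι, hι⟩ := Pool.Agent.RK.LocEx.loc_exists (vn_NG (G := GP Γ G))
  suffices h0 : VN831.l2Betti (GP Γ G) (j + 1) = 0 by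
    rw [← h0]
    exact N496.CV.hasL2Betti (GP Γ G) (j + 1)
  refine l2_zero ι hι (j + 1) fun x hx hdx => ?_
  have hPE : ∀ v, PE ((ι : NG (GP Γ G) →* U).comp canL) ((N v).map (gi Γ G v)) := by
    intro v
    obtain ⟨C⟩ := hF v
    have h1 := PE_of_l2 ((gi Γ G v).comp (N v).subtype) ((gi_inj Γ G v).comp (N v).subtype_injective) ι hι C
      (fun k => l2_of_has C k (hb v k))
    have h2 : ((gi Γ G v).comp (N v).subtype).range = (N v).map (gi Γ G v) := by
      rw [MonoidHom.range_comp, Subgroup.range_subtype]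
    rw [h2] at h1
    exact h1
  refine GP_vanish Γ G _ N hN hPE (j + 1) ?_ hx hdx
  exact clique_exact Γ j (pairing_GP Γ G z hz I (W := W) hk) (ι.comp (ratN (GP Γ G)))

end Pool.Agent.H77GP
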