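import Mathlib

/-!
# The augmented bar complex of a group, with twisted coefficients

`XM Q R`: formal combinations of lists of elements of the group `Q` with coefficients in the ring `R`. The list
`[]` is in degree `0`, so the complex is augmented. `c : Q →* R`.
-/

set_option autoImplicit false
set_option linter.unusedSectionVars false

noncomputable section

namespace Pool.Agent.H77GP

variable {Q R : Type} [Group Q] [Ring R]

abbrev XM (Q R : Type) [Ring R] : Type := List Q →₀ R

/-- the boundary of a list -/
def dl (R : Type) [Ring R] {Q : Type} : List Q → XM Q R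
  | [] => 0
  | a :: l => Finsupp.single l 1 - Finsupp.lmapDomain R R (List.cons a) (dl R l)

def dd : XM Q R →ₗ[R] XM Q R := Finsupp.linearCombination R (dl R)

def cn (a : Q) : XM Q R →ₗ[R] XM Q R := Finsupp.lmapDomain R R (List.cons a)

def dg (Q R : Type) [Ring R] (n : ℕ) : Submodule R (XM Q R) := Finsupp.supported R R {l : List Q | l.length = n}

theorem dd_single (l : List Q) (r : R) : dd (Finsupp.single l r) = r • dl R l :=
  Finsupp.linearCombination_single _ _ _

theorem cn_single (a : Q) (l : List Q) (r : R) : cn a (Finsupp.single l r) = Finsupp.single (a :: l) r :=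
  Finsupp.mapDomain_single

theorem dl_cons (a : Q) (l : List Q) : dl R (a :: l) = Finsupp.single l 1 - cn a (dl R l) := rfl

theorem dd_cn (a : Q) (x : XM Q R) : dd (cn a x) = x - cn a (dd x) := by
  have h : (dd.comp (cn a) : XM Q R →ₗ[R] XM Q R) = LinearMap.id - (cn a).comp dd := by
    refine Finsupp.lhom_ext fun l r => ?_
    rw [LinearMap.comp_apply, cn_single, dd_single, LinearMap.sub_apply, LinearMap.comp_apply, dd_single,
      LinearMap.id_apply, dl_cons, smul_sub, map_smul, Finsupp.smul_single, smul_eq_mul, mul_one]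
  exact LinearMap.congr_fun h x

theorem dd_dl (l : List Q) : dd (dl R l) = 0 := by
  induction l with
  | nil => exact map_zero _
  | cons a l ih =>
    rw [dl_cons, map_sub, dd_single, one_smul, dd_cn, ih, map_zero, sub_zero, sub_self]

theorem dd_dd (x : XM Q R) : dd (dd x) = 0 := by
  have h : (dd.comp dd : XM Q R →ₗ[R] XM Q R) = 0 := by
    refine Finsupp.lhom_ext fun l r => ?_
    rw [LinearMap.comp_apply, dd_single, map_smul, dd_dl, smul_zero]
    rfl
  exact LinearMap.congr_fun h x

theorem single_mem_dg (l : List Q) (r : R) {n : ℕ} (h : l.length = n) : Finsupp.single l r ∈ dg Q R n :=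
  Finsupp.single_mem_supported _ _ h

theorem cn_dg (a : Q) {n : ℕ} {x : XM Q R} (hx : x ∈ dg Q R n) : cn a x ∈ dg Q R (n + 1) := by
  unfold dg at hx
  rw [Finsupp.supported_eq_span_single] at hx
  refine Submodule.span_induction ?_ ?_ ?_ ?_ hx
  · rintro _ ⟨l, hl, rfl⟩
    rw [cn_single]
    exact single_mem_dg _ _ (by rw [List.length_cons]; exact congrArg (· + 1) hl)
  · rw [map_zero]; exact Submodule.zero_mem _
  · intro x y _ _ hx hy
    rw [map_add]; exact Submodule.add_mem _ hx hy
  · intro r x _ hx
    rw [map_smul]; exact Submodule.smul_mem _ _ hx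

theorem dl_dg (l : List Q) : ∀ n, l.length = n + 1 → dl R l ∈ dg Q R n := by
  induction l with
  | nil => intro n h; simp at h
  | cons a l ih =>
    intro n h
    rw [List.length_cons] at h
    have hl : l.length = n := by omega
    rw [dl_cons]
    refine Submodule.sub_mem _ (single_mem_dg _ _ hl) ?_
    cases n with
    | zero =>
      have : l = [] := List.length_eq_zero_iff.mp hl
      subst this
      rw [show dl R ([] : List Q) = 0 from rfl, map_zero]
      exact Submodule.zero_mem _
    | succ n => exact cn_dg a (ih n hl)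

/-- extension of a linear map with a property on the basis -/
theorem map_dg {M : Type} [AddCommGroup M] [Module R M] (f : XM Q R →ₗ[R] M) (S : Submodule R M) {n : ℕ}
    (h : ∀ l : List Q, l.length = n → f (Finsupp.single l 1) ∈ S) {x : XM Q R} (hx : x ∈ dg Q R n) : f x ∈ S := by
  unfold dg at hx
  rw [Finsupp.supported_eq_span_single] at hx
  refine Submodule.span_induction ?_ ?_ ?_ ?_ hx
  · rintro _ ⟨l, hl, rfl⟩
    exact h l hl
  · rw [map_zero]; exact Submodule.zero_mem _
  · intro x y _ _ hx hy
    rw [map_add]; exact Submodule.add_mem _ hx hy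
  · intro r x _ hx
    rw [map_smul]; exact Submodule.smul_mem _ _ hx

theorem dd_dg {n : ℕ} {x : XM Q R} (hx : x ∈ dg Q R (n + 1)) : dd x ∈ dg Q R n := by
  refine map_dg dd _ (fun l hl => ?_) hx
  rw [dd_single, one_smul]
  exact dl_dg l n hl

theorem dd_dg0 {x : XM Q R} (hx : x ∈ dg Q R 0) : dd x = 0 := by
  have h := map_dg dd ⊥ (fun l hl => by
    rw [List.length_eq_zero_iff.mp hl, dd_single, one_smul]
    exact Submodule.zero_mem _) hx
  exact (Submodule.mem_bot R).mp h

/-! ### the action -/

variable (c : Q →* R)

def ac (g : Q) : XM Q R →ₗ[R] XM Q R :=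
  Finsupp.linearCombination R fun l => Finsupp.single (l.map (g * ·)) (c g⁻¹)

theorem ac_single (g : Q) (l : List Q) (r : R) :
    ac c g (Finsupp.single l r) = Finsupp.single (l.map (g * ·)) (r * c g⁻¹) := by
  unfold ac
  rw [Finsupp.linearCombination_single, Finsupp.smul_single, smul_eq_mul]

theorem ac_one (x : XM Q R) : ac c 1 x = x := by
  have h : ac c 1 = LinearMap.id := by
    refine Finsupp.lhom_ext fun l r => ?_
    rw [ac_single, inv_one, map_one, mul_one, LinearMap.id_apply]
    congr 1
    simp
  rw [h, LinearMap.id_apply]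

theorem ac_mul (g h : Q) (x : XM Q R) : ac c (g * h) x = ac c g (ac c h x) := by
  have e : ac c (g * h) = (ac c g).comp (ac c h) := by
    refine Finsupp.lhom_ext fun l r => ?_
    rw [LinearMap.comp_apply, ac_single, ac_single, ac_single, mul_inv_rev, map_mul, mul_assoc, List.map_map]
    congr 1
    apply List.map_congr_left
    intro a _
    simp [mul_assoc]
  rw [e, LinearMap.comp_apply]

theorem ac_inv (g : Q) (x : XM Q R) : ac c g (ac c g⁻¹ x) = x := by
  rw [← ac_mul, mul_inv_cancel, ac_one]

theorem ac_inv' (g : Q) (x : XM Q R) : ac c g⁻¹ (ac c g x) = x := by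
  rw [← ac_mul, inv_mul_cancel, ac_one]

theorem ac_cn (g a : Q) (x : XM Q R) : ac c g (cn a x) = cn (g * a) (ac c g x) := by
  have e : (ac c g).comp (cn a) = (cn (g * a)).comp (ac c g) := by
    refine Finsupp.lhom_ext fun l r => ?_
    rw [LinearMap.comp_apply, LinearMap.comp_apply, cn_single, ac_single, ac_single, cn_single, List.map_cons]
  exact LinearMap.congr_fun e x

theorem ac_dl (g : Q) (l : List Q) : ac c g (dl R l) = c g⁻¹ • dl R (l.map (g * ·)) := by
  induction l with
  | nil => rw [List.map_nil]; change ac c g 0 = _ • (0 : XM Q R); rw [map_zero, smul_zero]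
  | cons a l ih =>
    rw [List.map_cons, dl_cons, dl_cons, map_sub, ac_cn, ih, ac_single, one_mul, smul_sub, map_smul,
      Finsupp.smul_single, smul_eq_mul, mul_one]

theorem ac_dd (g : Q) (x : XM Q R) : ac c g (dd x) = dd (ac c g x) := by
  have e : (ac c g).comp dd = dd.comp (ac c g) := by
    refine Finsupp.lhom_ext fun l r => ?_
    rw [LinearMap.comp_apply, LinearMap.comp_apply, dd_single, ac_single, dd_single, map_smul, ac_dl, smul_smul]
  exact LinearMap.congr_fun e x

theorem ac_dg (g : Q) {n : ℕ} {x : XM Q R} (hx : x ∈ dg Q R n) : ac c g x ∈ dg Q R n := by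
  refine map_dg (ac c g) _ (fun l hl => ?_) hx
  rw [ac_single]
  exact single_mem_dg _ _ (by rw [List.length_map]; exact hl)

/-! ### the relations -/

/-- the relations of the coinvariants, with everything in degree `0` -/
def Jt (H : Subgroup Q) : Submodule R (XM Q R) :=
  Submodule.span R {z | ∃ h ∈ H, ∃ x, z = x - ac c h x} ⊔ dg Q R 0

theorem dg0_le (H : Subgroup Q) : dg Q R 0 ≤ Jt c H := le_sup_right

theorem rel_mem {H : Subgroup Q} {h : Q} (hh : h ∈ H) (x : XM Q R) : x - ac c h x ∈ Jt c H :=
  Submodule.mem_sup_left (Submodule.subset_span ⟨h, hh, x, rfl⟩)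

theorem Jt_le {H : Subgroup Q} {M : Submodule R (XM Q R)} (h0 : dg Q R 0 ≤ M)
    (h : ∀ g ∈ H, ∀ x, x - ac c g x ∈ M) : Jt c H ≤ M := by
  refine sup_le (Submodule.span_le.mpr ?_) h0
  rintro _ ⟨g, hg, x, rfl⟩
  exact h g hg x

/-- it is enough to look at basis elements -/
theorem Jt_le' {H : Subgroup Q} {M : Submodule R (XM Q R)} (h0 : dg Q R 0 ≤ M)
    (h : ∀ g ∈ H, ∀ l : List Q, l ≠ [] → Finsupp.single l 1 - Finsupp.single (l.map (g * ·)) (c g⁻¹) ∈ M) :
    Jt c H ≤ M := by
  refine Jt_le c h0 fun g hg x => ?_
  have e : (LinearMap.id - ac c g : XM Q R →ₗ[R] XM Q R) x ∈ M := by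
    induction x using Finsupp.induction_linear with
    | zero => rw [map_zero]; exact Submodule.zero_mem _
    | add x y hx hy => rw [map_add]; exact Submodule.add_mem _ hx hy
    | single l r =>
      by_cases hl : l = []
      · subst hl
        refine h0 ?_
        rw [LinearMap.sub_apply, LinearMap.id_apply, ac_single]
        exact Submodule.sub_mem _ (single_mem_dg _ _ rfl) (single_mem_dg _ _ rfl)
      · have h1 := Submodule.smul_mem M r (h g hg l hl)
        have h2 : (LinearMap.id - ac c g : XM Q R →ₗ[R] XM Q R) (Finsupp.single l r) =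
            r • (Finsupp.single l (1 : R) - Finsupp.single (l.map (g * ·)) (c g⁻¹)) := by
          rw [LinearMap.sub_apply, LinearMap.id_apply, ac_single, smul_sub, Finsupp.smul_single, smul_eq_mul, mul_one,
            Finsupp.smul_single, smul_eq_mul]
        rw [h2]
        exact h1
  exact e

theorem Jt_mono {H K : Subgroup Q} (h : H ≤ K) : Jt c H ≤ Jt c K :=
  Jt_le c (dg0_le c K) fun _ hg x => rel_mem c (h hg) x

theorem Jt_sup (H K : Subgroup Q) : Jt c (H ⊔ K) ≤ Jt c H ⊔ Jt c K := by
  set M := Jt c H ⊔ Jt c K with hM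
  let T : Subgroup Q :=
    { carrier := {g | ∀ x, x - ac c g x ∈ M}
      mul_mem' := by
        intro a b ha hb x
        have e : x - ac c (a * b) x = (x - ac c b x) + (ac c b x - ac c a (ac c b x)) := by
          rw [ac_mul]; abel
        rw [e]
        exact Submodule.add_mem _ (hb x) (ha _)
      one_mem' := by
        intro x
        rw [ac_one, sub_self]
        exact Submodule.zero_mem _
      inv_mem' := by
        intro a ha x
        have h1 := ha (ac c a⁻¹ x)
        rw [ac_inv] at h1
        have e : x - ac c a⁻¹ x = -(ac c a⁻¹ x - x) := by abel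
        rw [e]
        exact Submodule.neg_mem _ h1 }
  have hHT : H ≤ T := fun g hg x => Submodule.mem_sup_left (rel_mem c hg x)
  have hKT : K ≤ T := fun g hg x => Submodule.mem_sup_right (rel_mem c hg x)
  refine Jt_le c ((dg0_le c H).trans le_sup_left) fun g hg x => ?_
  exact (sup_le hHT hKT) hg x

theorem dd_Jt {H : Subgroup Q} {x : XM Q R} (hx : x ∈ Jt c H) : dd x ∈ Jt c H := by
  have h : Jt c H ≤ (Jt c H).comap dd := by
    refine Jt_le c ?_ ?_
    · intro y hy
      rw [Submodule.mem_comap, dd_dg0 hy]
      exact Submodule.zero_mem _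
    · intro g hg y
      rw [Submodule.mem_comap, map_sub, ← ac_dd]
      exact rel_mem c hg _
  exact h hx

/-- the homology of `H` with coefficients in `R` vanishes -/
def PE (H : Subgroup Q) : Prop :=
  ∀ n, ∀ x ∈ dg Q R (n + 1), dd x ∈ Jt c H → ∃ y ∈ dg Q R (n + 2), x - dd y ∈ Jt c H

theorem PE.exact {H : Subgroup Q} (h : PE c H) (n : ℕ) {x : XM Q R} (hx : x ∈ dg Q R n) (hxJ : x ∈ Jt c H)
    (hd : dd x = 0) : ∃ z ∈ dg Q R (n + 1), z ∈ Jt c H ∧ dd z = x := by
  have h1 : dd (cn 1 x) = x := by rw [dd_cn, hd, map_zero, sub_zero]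
  obtain ⟨y, hy, hyJ⟩ := h n (cn 1 x) (cn_dg 1 hx) (by rw [h1]; exact hxJ)
  refine ⟨cn 1 x - dd y, Submodule.sub_mem _ (cn_dg 1 hx) (dd_dg hy), hyJ, ?_⟩
  rw [map_sub, h1, dd_dd, sub_zero]

/-! ### degrees -/

/-- the part of degree `n` -/
def pn (n : ℕ) : XM Q R →ₗ[R] XM Q R := (Finsupp.supported R R {l : List Q | l.length = n}).subtype.comp
  (Finsupp.restrictDom R R {l : List Q | l.length = n})

theorem pn_apply (n : ℕ) (x : XM Q R) (l : List Q) : pn n x l = if l.length = n then x l else 0 := by
  classical
  change (Finsupp.restrictDom R R {l : List Q | l.length = n} x : XM Q R) l = _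
  rw [Finsupp.restrictDom_apply]
  exact Finsupp.filter_apply _ _ _

theorem pn_dg (n : ℕ) (x : XM Q R) : pn n x ∈ dg Q R n := by
  change ((Finsupp.restrictDom R R {l : List Q | l.length = n} x : Finsupp.supported R R {l : List Q | l.length = n}) : XM Q R) ∈ dg Q R n
  exact (Finsupp.restrictDom R R {l : List Q | l.length = n} x).2

theorem pn_of_dg {n : ℕ} {x : XM Q R} (hx : x ∈ dg Q R n) : pn n x = x := by
  ext l
  rw [pn_apply]
  split_ifs with h
  · rfl
  · by_contra h2
    have h3 : l ∈ x.support := Finsupp.mem_support_iff.mpr (fun h4 => h2 h4.symm)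
    exact h (hx h3)

theorem pn_Jt (n : ℕ) {H : Subgroup Q} {x : XM Q R} (hx : x ∈ Jt c H) : pn n x ∈ Jt c H := by
  classical
  have h : Jt c H ≤ (Jt c H).comap (pn n) := by
    refine Jt_le' c ?_ ?_
    · intro y hy
      rw [Submodule.mem_comap]
      cases n with
      | zero => exact dg0_le c H (pn_dg 0 y)
      | succ n =>
        have : pn (n + 1) y = 0 := by
          ext l
          rw [pn_apply]
          split_ifs with hl
          · by_contra h2
            have h3 : l ∈ y.support := Finsupp.mem_support_iff.mpr h2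
            have h4 : l.length = 0 := hy h3
            omega
          · rfl
        rw [this]
        exact Submodule.zero_mem _
    · intro g hg l _
      rw [Submodule.mem_comap]
      by_cases hl : l.length = n
      · rw [pn_of_dg]
        · have := rel_mem c hg (Finsupp.single l (1 : R))
          rw [ac_single, one_mul] at this
          exact this
        · exact Submodule.sub_mem _ (single_mem_dg _ _ hl) (single_mem_dg _ _ (by rw [List.length_map]; exact hl))
      · have : pn n (Finsupp.single l (1 : R) - Finsupp.single (l.map (g * ·)) (c g⁻¹)) = 0 := by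
          ext l'
          rw [pn_apply]
          split_ifs with h1
          · rw [Finsupp.sub_apply, Finsupp.single_apply, Finsupp.single_apply, if_neg, if_neg, sub_zero]
            · rfl
            · rintro rfl
              rw [List.length_map] at h1
              exact hl h1
            · rintro rfl
              exact hl h1
          · rfl
        rw [this]
        exact Submodule.zero_mem _
  exact h hx

end Pool.Agent.H77GP
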