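import Pool.Agent.H77GP.A8
import Pool.Agent.Helper277.VN5
import Pool.Agent.N496.CV.DualPf

/-!
# Vanishing of the homology of a subgroup with vanishing `L²`-Betti numbers over the localization
-/

set_option autoImplicit false
set_option linter.unusedSectionVars false

open scoped Matrix ENNReal

noncomputable section

attribute [local instance] VN831.bcFunctor_additive VN831.viaAdd VN831.viaMod V7N.bcF_additive
  V7N.rmAdd V7N.rmMod

namespace Pool.Agent.H77GP

open Pool.Agent.Helper655.VN Pool.Agent.RK VN831 Pool.Agent.N496.CV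

section lap

variable {K : Type} [Group K] {a b d : ℕ}

theorem lap_inj (A : Matrix (Fin a) (Fin b) (NG K)) (B : Matrix (Fin b) (Fin d) (NG K)) (hAB : A * B = 0)
    (h0 : rk (tau K) A + rk (tau K) B = b) :
    ∀ x : Fin b → NG K, Matrix.vecMul x (Aᴴ * A + B * Bᴴ) = 0 → x = 0 := by
  classical
  obtain ⟨p, q, hp, hq, hpq, hqp, hTr⟩ := projections A B hAB
  have he : 1 - p - q = 0 := by
    have hee : (1 - p - q)ᴴ * (1 - p - q) = 1 - p - q := by
      rw [Matrix.conjTranspose_sub, Matrix.conjTranspose_sub, Matrix.conjTranspose_one, hp.star, hq.star,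
        Matrix.mul_sub, Matrix.mul_sub, Matrix.mul_one, Matrix.sub_mul, Matrix.sub_mul, Matrix.one_mul, hp.idem, hqp,
        Matrix.sub_mul, Matrix.sub_mul, Matrix.one_mul, hpq, hq.idem]
      simp
    refine (Pool.Agent.RK.Tr.tr_star (vn_NG (G := K)) (1 - p - q)).2 ?_
    rw [hee, hTr]
    linarith
  have hpq1 : p + q = 1 := by
    have : (1 : Matrix (Fin b) (Fin b) (NG K)) - (p + q) = 0 := by rw [← sub_sub]; exact he
    exact (sub_eq_zero.1 this).symm
  have hrow : ∀ {n : ℕ} (Y : Matrix Unit (Fin n) (NG K)), Tr (tau K) (Y * Yᴴ) = 0 → Y = 0 := by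
    intro n Y hY
    refine (Pool.Agent.RK.Tr.tr_star (vn_NG (G := K)) Y).2 ?_
    rw [Pool.Agent.RK.Tr.tr_comm (vn_NG (G := K))]
    exact hY
  have hpos : ∀ {n : ℕ} (Y : Matrix Unit (Fin n) (NG K)), 0 ≤ Tr (tau K) (Y * Yᴴ) := by
    intro n Y
    rw [Pool.Agent.RK.Tr.tr_comm (vn_NG (G := K))]
    exact (Pool.Agent.RK.Tr.tr_star (vn_NG (G := K)) Y).1
  intro x hx
  let X : Matrix Unit (Fin b) (NG K) := fun _ => x
  have h1 : X * (Aᴴ * A + B * Bᴴ) = 0 := by
    ext1 i j
    exact congrFun hx j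
  have h2 : (X * Aᴴ) * (X * Aᴴ)ᴴ + (X * B) * (X * B)ᴴ = 0 := by
    have h3 : (X * (Aᴴ * A + B * Bᴴ)) * Xᴴ = 0 := by rw [h1, Matrix.zero_mul]
    rw [← h3]
    simp only [Matrix.conjTranspose_mul, Matrix.conjTranspose_conjTranspose, Matrix.mul_add, Matrix.add_mul,
      Matrix.mul_assoc]
  have h4 : Tr (tau K) ((X * Aᴴ) * (X * Aᴴ)ᴴ) + Tr (tau K) ((X * B) * (X * B)ᴴ) = 0 := by
    have h5 := congrArg (Tr (tau K)) h2
    unfold Tr at h5 ⊢
    simp only [Matrix.add_apply, map_add, Finset.sum_add_distrib, Matrix.zero_apply, map_zero,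
      Finset.sum_const_zero] at h5
    exact h5
  have h6 := hpos (X * Aᴴ)
  have h7 := hpos (X * B)
  have h8 := hrow (X * Aᴴ) (by linarith)
  have h9 := hrow (X * B) (by linarith)
  have h10 : X = 0 := by
    have h11 := Pool.Agent.RK.Lp.lp_min_mat hq X h8
    have h12 := Pool.Agent.RK.Lp.lp_min_mat hp X h9
    rw [← Matrix.mul_one X, ← hpq1, Matrix.mul_add, h11, h12, add_zero]
  exact congrFun h10 ()

/-- the Laplacians -/
def Lap (C : V7N.FreeRes K) : (n : ℕ) → Matrix (Fin (C.r n)) (Fin (C.r n)) (NG K)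
  | 0 => (nm C 0)ᴴ * nm C 0
  | n + 1 => (nm C (n + 1))ᴴ * nm C (n + 1) + nm C n * (nm C n)ᴴ

theorem Lap_inj (C : V7N.FreeRes K) (hb : ∀ k, l2Betti K k = 0) (n : ℕ) :
    ∀ x : Fin (C.r n) → NG K, Matrix.vecMul x (Lap C n) = 0 → x = 0 := by
  cases n with
  | zero =>
    have h1 := (zero_iff C).1 (hb 0)
    have h2 := lap_inj (nm C 0) (0 : Matrix (Fin (C.r 0)) (Fin 0) (NG K)) (by rw [Matrix.mul_zero])
      (by rw [rk_cols_zero, add_zero, h1])
    rw [Matrix.zero_mul, add_zero] at h2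
    exact h2
  | succ n => exact lap_inj (nm C (n + 1)) (nm C n) (nm_mul C n) ((succ_iff C n).1 (hb (n + 1)))

theorem Lap_comm (C : V7N.FreeRes K) (n : ℕ) : Lap C (n + 1) * nm C n = nm C n * Lap C n := by
  have h1 : Lap C (n + 1) * nm C n = nm C n * ((nm C n)ᴴ * nm C n) := by
    change ((nm C (n + 1))ᴴ * nm C (n + 1) + nm C n * (nm C n)ᴴ) * nm C n = _
    rw [Matrix.add_mul, Matrix.mul_assoc, nm_mul, Matrix.mul_zero, zero_add, Matrix.mul_assoc]
  rw [h1]
  cases n with
  | zero => rfl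
  | succ n =>
    change _ = nm C (n + 1) * ((nm C (n + 1))ᴴ * nm C (n + 1) + nm C n * (nm C n)ᴴ)
    rw [Matrix.mul_add, ← Matrix.mul_assoc (nm C (n + 1)) (nm C n), nm_mul, Matrix.zero_mul, add_zero]

end lap

/-! ### relabelling -/

section relab

variable {K H : Type} [Group K] [Group H]

theorem mem_tr {G G' : Type} (e : G ≃ G') (f : EllTwo G) : Memℓp (fun h : G' => (f (e.symm h) : ℂ)) 2 := by
  have h1 := (lp.memℓp f).summable (by norm_num)
  refine memℓp_gen ?_
  exact (e.symm.summable_iff (f := fun h => ‖f h‖ ^ (2 : ENNReal).toReal)).2 h1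

/-- transport of square summable functions by a bijection -/
def Wl {G G' : Type} (e : G ≃ G') : EllTwo G →ₗ[ℂ] EllTwo G' where
  toFun f := ⟨fun h => f (e.symm h), mem_tr e f⟩
  map_add' := fun f g => by ext h; rfl
  map_smul' := fun c f => by ext h; rfl

theorem Wl_apply {G G' : Type} (e : G ≃ G') (f : EllTwo G) (h : G') : (Wl e f) h = f (e.symm h) := rfl

/-- isometric version -/
def We {G G' : Type} (e : G ≃ G') : EllTwo G ≃ₗᵢ[ℂ] EllTwo G' where
  toLinearEquiv := LinearEquiv.ofLinearMap (Wl e) (Wl e.symm)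
    (by ext f h; simp [Wl_apply]) (by ext f h; simp [Wl_apply])
  norm_map' := fun f => by
    have h1 : (0 : ℝ) < (2 : ENNReal).toReal := by norm_num
    rw [lp.norm_eq_tsum_rpow h1, lp.norm_eq_tsum_rpow h1]
    congr 1
    exact e.symm.tsum_eq (fun h => ‖f h‖ ^ (2 : ENNReal).toReal)

theorem We_apply {G G' : Type} (e : G ≃ G') (f : EllTwo G) (h : G') : (We e f) h = f (e.symm h) := rfl

theorem We_symm_apply {G G' : Type} (e : G ≃ G') (f : EllTwo G') (h : G) : ((We e).symm f) h = f (e h) := rfl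

/-- conjugation -/
def Ph (e : K ≃* H) : (EllTwo K →L[ℂ] EllTwo K) ≃⋆ₐ[ℂ] (EllTwo H →L[ℂ] EllTwo H) :=
  (We e.toEquiv).conjStarAlgEquiv

theorem Ph_apply (e : K ≃* H) (T : EllTwo K →L[ℂ] EllTwo K) (f : EllTwo H) :
    Ph e T f = We e.toEquiv (T ((We e.toEquiv).symm f)) :=
  LinearIsometryEquiv.conjStarAlgEquiv_apply_apply _ _ _

theorem Ph_lam (e : K ≃* H) (g : K) : Ph e (lam K g) = lam H (e g) := by
  ext f h
  rw [Ph_apply, We_apply]
  change ((We e.toEquiv).symm f) (g⁻¹ * e.toEquiv.symm h) = f ((e g)⁻¹ * h)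
  rw [We_symm_apply]
  have h1 : e.toEquiv (g⁻¹ * e.toEquiv.symm h) = (e g)⁻¹ * h := by
    change e (g⁻¹ * e.symm h) = _
    simp
  rw [h1]

theorem Ph_rho (e : K ≃* H) (g : K) : Ph e (rho K g) = rho H (e g) := by
  ext f h
  rw [Ph_apply, We_apply]
  change ((We e.toEquiv).symm f) (e.toEquiv.symm h * g) = f (h * e g)
  rw [We_symm_apply]
  have h1 : e.toEquiv (e.toEquiv.symm h * g) = h * e g := by
    change e (e.symm h * g) = _
    simp
  rw [h1]

theorem Ph_mem (e : K ≃* H) {T : EllTwo K →L[ℂ] EllTwo K} (hT : T ∈ NG K) : Ph e T ∈ NG H := by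
  rw [mem_NG] at hT ⊢
  intro g
  have h1 : rho H g = Ph e (rho K (e.symm g)) := by rw [Ph_rho]; simp
  rw [h1, ← map_mul, hT, map_mul]

/-- relabelling -/
def rl (e : K ≃* H) : NG K →+* NG H where
  toFun T := ⟨Ph e T.1, Ph_mem e T.2⟩
  map_one' := Subtype.ext (map_one (Ph e))
  map_mul' S T := Subtype.ext (map_mul (Ph e) S.1 T.1)
  map_zero' := Subtype.ext (map_zero (Ph e))
  map_add' S T := Subtype.ext (map_add (Ph e) S.1 T.1)

theorem rl_canL (e : K ≃* H) (g : K) : rl e (canL g) = canL (e g) := Subtype.ext (Ph_lam e g)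

theorem rl_rl (e : K ≃* H) (T : NG H) : rl e (rl e.symm T) = T := by
  apply Subtype.ext
  ext f h
  change Ph e (Ph e.symm T.1) f h = T.1 f h
  rw [Ph_apply, We_apply, Ph_apply, We_apply]
  have h1 : (We e.symm.toEquiv).symm ((We e.toEquiv).symm f) = f := by
    ext x
    rw [We_symm_apply, We_symm_apply]
    have h : e.toEquiv (e.symm.toEquiv x) = x := e.apply_symm_apply x
    rw [h]
  have h2 : e.symm.toEquiv.symm (e.toEquiv.symm h) = h := e.apply_symm_apply h
  rw [h1, h2]

theorem rl_inj_mat (e : K ≃* H) {n : ℕ} (D : Matrix (Fin n) (Fin n) (NG K))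
    (hD : ∀ x : Fin n → NG K, Matrix.vecMul x D = 0 → x = 0) (y : Fin n → NG H)
    (hy : Matrix.vecMul y (D.map (rl e)) = 0) : y = 0 := by
  have h1 : Matrix.vecMul (fun i => rl e.symm (y i)) D = 0 := by
    funext j
    have h2 := congrArg (rl e.symm) (congrFun hy j)
    unfold Matrix.vecMul dotProduct at h2 ⊢
    rw [map_sum] at h2
    rw [Pi.zero_apply, map_zero] at h2
    rw [Pi.zero_apply, ← h2]
    refine Finset.sum_congr rfl fun i _ => ?_
    change rl e.symm (y i) * D i j = rl e.symm (y i * rl e (D i j))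
    have h3 := rl_rl e.symm (D i j)
    rw [MulEquiv.symm_symm] at h3
    rw [map_mul, h3]
  have h4 := hD _ h1
  funext i
  have h5 := congrArg (rl e) (congrFun h4 i)
  rw [rl_rl] at h5
  rw [h5, Pi.zero_apply, map_zero, Pi.zero_apply]

end relab

section emb

variable {G : Type} [Group G] (N : Subgroup G)

theorem cE_add (x y : NG G) : Pool.Agent.Helper277.VN5.cE N (x + y) =
    Pool.Agent.Helper277.VN5.cE N x + Pool.Agent.Helper277.VN5.cE N y := by
  apply Subtype.ext
  ext1 f
  change Pool.Agent.Helper277.VN5.res N 1 ((x : EllTwo G →L[ℂ] EllTwo G) (Pool.Agent.Helper277.VN5.exz N f) +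
    (y : EllTwo G →L[ℂ] EllTwo G) (Pool.Agent.Helper277.VN5.exz N f)) = _
  rw [map_add]
  rfl

theorem cE_sum {α : Type} (s : Finset α) (f : α → NG G) : Pool.Agent.Helper277.VN5.cE N (∑ i ∈ s, f i) =
    ∑ i ∈ s, Pool.Agent.Helper277.VN5.cE N (f i) := by
  classical
  induction s using Finset.induction_on with
  | empty => rw [Finset.sum_empty, Finset.sum_empty, Pool.Agent.Helper277.VN5.cE_zero]
  | insert a s ha ih => rw [Finset.sum_insert ha, Finset.sum_insert ha, cE_add, ih]

theorem jN_inj_mat {n : ℕ} (D : Matrix (Fin n) (Fin n) (NG N))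
    (hD : ∀ x : Fin n → NG N, Matrix.vecMul x D = 0 → x = 0) (y : Fin n → NG G)
    (hy : Matrix.vecMul y (D.map (Pool.Agent.Helper277.VN5.jN N)) = 0) : y = 0 := by
  have h1 : ∀ g : G, (fun i => Pool.Agent.Helper277.VN5.cE N (canL g⁻¹ * y i)) = 0 := by
    intro g
    apply hD
    funext j
    have h2 := congrArg (fun z => Pool.Agent.Helper277.VN5.cE N (canL g⁻¹ * z)) (congrFun hy j)
    simp only [Pi.zero_apply, mul_zero, Pool.Agent.Helper277.VN5.cE_zero] at h2
    unfold Matrix.vecMul dotProduct at h2 ⊢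
    rw [Finset.mul_sum, cE_sum] at h2
    rw [Pi.zero_apply, ← h2]
    refine Finset.sum_congr rfl fun i _ => ?_
    change Pool.Agent.Helper277.VN5.cE N (canL g⁻¹ * y i) * D i j =
      Pool.Agent.Helper277.VN5.cE N (canL g⁻¹ * (y i * Pool.Agent.Helper277.VN5.jN N (D i j)))
    rw [← mul_assoc, Pool.Agent.Helper277.VN5.cE_mul]
  funext i
  exact Pool.Agent.Helper277.VN5.cE_all_zero N (y i) fun g => congrFun (h1 g) i

end emb

section main

variable {K Q : Type} [Group K] [Group Q] (i : K →* Q) (hi : Function.Injective i)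

/-- the inclusion of the von Neumann algebras for an injective homomorphism -/
def jK : NG K →+* NG Q :=
  (Pool.Agent.Helper277.VN5.jN i.range).comp (rl (MonoidHom.ofInjective hi))

theorem jK_canL (g : K) : jK i hi (canL g) = canL (i g) := by
  change Pool.Agent.Helper277.VN5.jN i.range (rl (MonoidHom.ofInjective hi) (canL g)) = _
  rw [rl_canL, Pool.Agent.Helper277.VN5.jN_canL]
  rfl

theorem jK_inj_mat {n : ℕ} (D : Matrix (Fin n) (Fin n) (NG K))
    (hD : ∀ x : Fin n → NG K, Matrix.vecMul x D = 0 → x = 0) (y : Fin n → NG Q)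
    (hy : Matrix.vecMul y (D.map (jK i hi)) = 0) : y = 0 := by
  refine jN_inj_mat i.range (D.map (rl (MonoidHom.ofInjective hi))) (rl_inj_mat _ D hD) y ?_
  rw [Matrix.map_map]
  exact hy

variable {U : Type} [Ring U] (ι : NG Q →+* U)

/-- a square matrix without kernel is surjective over the localization -/
theorem U_surj (hι : Loc ι) {n : ℕ} (D : Matrix (Fin n) (Fin n) (NG Q))
    (hD : ∀ x : Fin n → NG Q, Matrix.vecMul x D = 0 → x = 0) (v : Fin n → U) :
    ∃ w, v = Matrix.vecMul w (D.map ι) := by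
  obtain ⟨s, hs, hS⟩ := Pool.Agent.RK.Common.fam_left (vn_NG (G := Q)) hι v Finset.univ
  choose x hx using fun j => hS j (Finset.mem_univ j)
  obtain ⟨t, c, ht, hc⟩ := Pool.Agent.RK.OreMat.ore_mat (vn_NG (G := Q)) D hD x
  obtain ⟨u, hu⟩ := hι.unit (t * s) (Pool.Agent.RK.Nz.nz_mul t s ht hs)
  refine ⟨fun j => (u⁻¹ : Uˣ) * ι (c j), ?_⟩
  funext j
  have h1 := congrFun hc j
  unfold Matrix.vecMul dotProduct at h1 ⊢
  have h2 : ι (t * s) * v j = ∑ k, ι (c k) * ι (D k j) := by
    rw [map_mul, mul_assoc, hx j, ← map_mul, h1, map_sum]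
    exact Finset.sum_congr rfl fun k _ => map_mul _ _ _
  have h3 : ∑ k, ((u⁻¹ : Uˣ) : U) * ι (c k) * (D.map ι) k j = ((u⁻¹ : Uˣ) : U) * ∑ k, ι (c k) * ι (D k j) := by
    rw [Finset.mul_sum]
    exact Finset.sum_congr rfl fun k _ => mul_assoc _ _ _
  rw [h3, ← h2, ← hu, Units.inv_mul_cancel_left]

/-- a square matrix without kernel has no kernel over the localization -/
theorem U_inj (hι : Loc ι) {n : ℕ} (D : Matrix (Fin n) (Fin n) (NG Q))
    (hD : ∀ x : Fin n → NG Q, Matrix.vecMul x D = 0 → x = 0) (v : Fin n → U)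
    (hv : Matrix.vecMul v (D.map ι) = 0) : v = 0 := by
  obtain ⟨s, hs, hS⟩ := Pool.Agent.RK.Common.fam_left (vn_NG (G := Q)) hι v Finset.univ
  choose x hx using fun j => hS j (Finset.mem_univ j)
  have h1 : x = 0 := by
    apply hD
    funext j
    apply hι.inj
    have h2 := congrFun hv j
    unfold Matrix.vecMul dotProduct at h2 ⊢
    rw [Pi.zero_apply, map_zero, map_sum]
    rw [Pi.zero_apply] at h2
    have h3 : ∑ k, ι (x k * D k j) = ι s * ∑ k, v k * (D.map ι) k j := by
      rw [Finset.mul_sum]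
      refine Finset.sum_congr rfl fun k _ => ?_
      rw [map_mul, ← hx k, mul_assoc]
      rfl
    rw [h3, h2, mul_zero]
  obtain ⟨u, hu⟩ := hι.unit s hs
  funext j
  have h2 := hx j
  rw [h1, Pi.zero_apply, map_zero, ← hu] at h2
  have h3 := congrArg (fun z => ((u⁻¹ : Uˣ) : U) * z) h2
  simp only [Units.inv_mul_cancel_left, mul_zero] at h3
  exact h3

theorem evM_comp {W W' : Type} [Ring W] [Ring W'] (c : K →* W) (φ : W →+* W') (x : MonoidAlgebra ℤ K) :
    V7N.evM ((φ : W →* W').comp c) x = φ (V7N.evM c x) := by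
  induction x using MonoidAlgebra.induction_linear with
  | zero => rw [map_zero, map_zero, map_zero]
  | add x y hx hy => rw [map_add, map_add, map_add, hx, hy]
  | single g n =>
    rw [V7N.phi_evM_single, V7N.phi_evM_single, map_mul, map_intCast]
    rfl

theorem mem_SR' {W : Type} [Ring W] (c : K →* W) (x : W) :
    (show Via (RingHom.id W) from x) ∈ SR (RingHom.id W) c := by
  have h1 : (show Via (RingHom.id W) from x) = x • (show Via (RingHom.id W) from c (1 : K)) := by
    rw [Via.smul_def, map_one, mul_one]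
    rfl
  rw [h1]
  exact Submodule.smul_mem _ _ (Submodule.subset_span ⟨1, rfl⟩)

theorem indep_id' {W : Type} [Ring W] (c : K →* W) : CosetIndep (RingHom.id W) c (MonoidHom.id K).range := by
  intro s hs x hx g hg
  have hsub : s = {g} := by
    rw [Finset.eq_singleton_iff_unique_mem]
    refine ⟨hg, fun h hh => ?_⟩
    by_contra hne
    refine hs h hh g hg hne ?_
    exact ⟨_, rfl⟩
  rw [hsub, Finset.sum_singleton] at hx
  have h1 : x g * c g * c g⁻¹ = 0 := by
    have : x g * c g = 0 := hx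
    rw [this, zero_mul]
  rw [mul_assoc, ← map_mul, mul_inv_cancel, map_one, mul_one] at h1
  exact h1

theorem HR_subsingleton {W : Type} [Ring W] (c : K →* W) {a b d : ℕ} (A : Matrix (Fin a) (Fin b) W)
    (B : Matrix (Fin b) (Fin d) W)
    (h : ∀ v : Fin b → W, Matrix.vecMul v B = 0 → ∃ w, v = Matrix.vecMul w A) :
    Subsingleton (HR (RingHom.id W) c A B) := by
  refine ⟨fun x y => ?_⟩
  have key : ∀ m : HR (RingHom.id W) c A B, m = 0 := by
    intro m
    obtain ⟨⟨z, hz1, hz2⟩, rfl⟩ := Submodule.Quotient.mk_surjective _ m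
    obtain ⟨w, hw⟩ := h z hz2
    rw [Submodule.Quotient.mk_eq_zero]
    exact ⟨w, fun j _ => mem_SR' c _, hw.symm⟩
  rw [key x, key y]

include hi in
theorem homR_subsingleton (hι : Loc ι) (C : V7N.FreeRes K) (hb : ∀ k, l2Betti K k = 0) (n : ℕ) :
    Subsingleton (((V7N.bcF (((ι : NG Q →* U).comp canL).comp i)).leftDerived n).obj (V7N.trivG K)) := by
  set c : K →* U := ((ι : NG Q →* U).comp canL).comp i with hc
  set θ : NG K →+* U := ι.comp (jK i hi) with hθ
  have hcθ : c = (θ : NG K →* U).comp canL := by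
    ext g
    change ι (canL (i g)) = ι (jK i hi (canL g))
    rw [jK_canL]
  have hmat : ∀ m, (C.d m).map (V7N.evM c) = (nm C m).map θ := by
    intro m
    unfold nm
    rw [Matrix.map_map]
    ext1 x y
    rw [Matrix.map_apply, Matrix.map_apply, hcθ, evM_comp]
    rfl
  have hsurj : ∀ m (v : Fin (C.r m) → U), ∃ w, v = Matrix.vecMul w ((Lap C m).map θ) := by
    intro m v
    have := U_surj ι hι ((Lap C m).map (jK i hi)) (jK_inj_mat i hi _ (Lap_inj C hb m)) v
    rw [Matrix.map_map] at this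
    exact this
  have hinj : ∀ m (v : Fin (C.r m) → U), Matrix.vecMul v ((Lap C m).map θ) = 0 → v = 0 := by
    intro m v hv
    refine U_inj ι hι ((Lap C m).map (jK i hi)) (jK_inj_mat i hi _ (Lap_inj C hb m)) v ?_
    rw [Matrix.map_map]
    exact hv
  cases n with
  | zero =>
    obtain ⟨e⟩ := V7N.v7_zero C (MonoidHom.id K) Function.injective_id c c (RingHom.id U) (fun _ => rfl) (indep_id' c)
    have hs : Subsingleton (HR (RingHom.id U) c ((C.d 0).map (V7N.evM c))
        ((0 : Matrix (Fin (C.r 0)) (Fin 0) (MonoidAlgebra ℤ K)).map (V7N.evM c))) := by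
      refine HR_subsingleton c _ _ fun v _ => ?_
      obtain ⟨w, hw⟩ := hsurj 0 v
      refine ⟨Matrix.vecMul w (((nm C 0)ᴴ).map θ), ?_⟩
      rw [hmat, Matrix.vecMul_vecMul, ← Matrix.map_mul]
      exact hw
    exact e.toEquiv.subsingleton
  | succ n =>
    obtain ⟨e⟩ := V7N.v7_succ C n (MonoidHom.id K) Function.injective_id c c (RingHom.id U) (fun _ => rfl) (indep_id' c)
    have hs : Subsingleton (HR (RingHom.id U) c ((C.d (n + 1)).map (V7N.evM c)) ((C.d n).map (V7N.evM c))) := by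
      refine HR_subsingleton c _ _ fun v hv => ?_
      obtain ⟨w, hw⟩ := hsurj (n + 1) v
      have h1 : Matrix.vecMul w ((nm C n).map θ) = 0 := by
        apply hinj n
        rw [Matrix.vecMul_vecMul, ← Matrix.map_mul, ← Lap_comm, Matrix.map_mul, ← Matrix.vecMul_vecMul, ← hw, ← hmat]
        exact hv
      refine ⟨Matrix.vecMul w (((nm C (n + 1))ᴴ).map θ), ?_⟩
      rw [hmat, Matrix.vecMul_vecMul, ← Matrix.map_mul]
      have h2 : Lap C (n + 1) = (nm C (n + 1))ᴴ * nm C (n + 1) + nm C n * (nm C n)ᴴ := rfl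
      rw [hw, h2, Matrix.map_add _ (map_add θ), Matrix.vecMul_add]
      have h3 : Matrix.vecMul w ((nm C n * (nm C n)ᴴ).map θ) = 0 := by
        rw [Matrix.map_mul, ← Matrix.vecMul_vecMul, h1, Matrix.zero_vecMul]
      rw [h3, add_zero]
    exact e.toEquiv.subsingleton

include hi in
/-- **Vertex groups**: a group of type `FP_∞` whose `L²`-Betti numbers vanish has no homology with coefficients in the
localization of the von Neumann algebra of a bigger group -/
theorem PE_of_l2 (hι : Loc ι) (C : V7N.FreeRes K) (hb : ∀ k, l2Betti K k = 0) :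
    PE ((ι : NG Q →* U).comp canL) i.range :=
  PE_of_homR i _ hi (homR_subsingleton i hi ι hι C hb)

end main

end Pool.Agent.H77GP
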