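import Pool.Agent.H77GP.A1
import Pool.Agent.H77RA.A1

/-!
# Comparison of the clique complex with the complexes of the relations
-/

set_option autoImplicit false
set_option linter.unusedSectionVars false

noncomputable section

namespace Pool.Agent.H77GP

open Finset Pool.Agent.H77RA

variable {V : Type} [Fintype V] [LinearOrder V] (G : SimpleGraph V)
variable {Q R : Type} [Group Q] [Ring R]

/-- the boundary of the clique complex -/
def bd (a : Finset V → R) : Finset V → R := bdR (fun _ => AddMonoidHom.id R) a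

theorem bd_apply (a : Finset V → R) (τ : Finset V) : bd a τ = ∑ v ∈ τᶜ, sgn v τ • a (insert v τ) := rfl

theorem bd_add (a b : Finset V → R) : bd (a + b) = bd a + bd b := by
  funext τ
  exact bdR_add _ _ _ _

theorem bd_sub (a b : Finset V → R) : bd (a - b) = bd a - bd b := by
  funext τ
  exact bdR_sub _ _ _ _

theorem bd_zero : bd (0 : Finset V → R) = 0 := by
  funext τ
  rw [bd_apply]
  simp

theorem bd_neg (a : Finset V → R) : bd (-a) = -bd a := by
  have := bd_sub 0 a
  rw [bd_zero, zero_sub, zero_sub] at this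
  exact this

variable {G}

theorem bd_bd {a : Finset V → R} (ha : ∀ T, a T ≠ 0 → G.IsClique (T : Set V)) : bd (bd a) = 0 :=
  bdR_bdR (G := G) (fun _ _ _ _ => rfl) ha

theorem Sup_bd {S : Finset V} {n : ℕ} {a : Finset V → R} (ha : Sup G S (n + 1) a) : Sup G S n (bd a) := by
  intro T hT
  rw [bd_apply] at hT
  obtain ⟨v, hv, hv'⟩ := exists_ne_zero_of_sum_ne_zero hT
  have h1 : a (insert v T) ≠ 0 := by
    intro h0
    apply hv'
    rw [h0, smul_zero]
  obtain ⟨h2, h3, h4⟩ := ha _ h1
  rw [card_insert_of_notMem (mem_compl.mp hv)] at h4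
  refine ⟨(subset_insert _ _).trans h2, h3.subset (by simp), by omega⟩

theorem Sup_zero (S : Finset V) (n : ℕ) : Sup G S n (0 : Finset V → R) := fun _ h => absurd rfl h

theorem Sup_neg {S : Finset V} {n : ℕ} {a : Finset V → R} (ha : Sup G S n a) : Sup G S n (-a) := by
  intro T hT
  refine ha T fun h => hT ?_
  rw [Pi.neg_apply, h, neg_zero]

theorem Sup_add {S : Finset V} {n : ℕ} {a b : Finset V → R} (ha : Sup G S n a) (hb : Sup G S n b) :
    Sup G S n (a + b) := by
  intro T hT
  by_cases h : a T = 0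
  · refine hb T fun h2 => hT ?_
    rw [Pi.add_apply, h, h2, add_zero]
  · exact ha T h

theorem Sup_sub {S : Finset V} {n : ℕ} {a b : Finset V → R} (ha : Sup G S n a) (hb : Sup G S n b) :
    Sup G S n (a - b) := by
  rw [sub_eq_add_neg]
  exact Sup_add ha (Sup_neg hb)

theorem Sup_mono {S T : Finset V} (h : S ⊆ T) {n : ℕ} {a : Finset V → R} (ha : Sup G S n a) : Sup G T n a :=
  fun U hU => ⟨(ha U hU).1.trans h, (ha U hU).2⟩

theorem sgn_sq (v : V) (T : Finset V) : sgn v T * sgn v T = 1 := by
  unfold sgn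
  rw [← pow_add, ← two_mul]
  exact Even.neg_one_pow (even_two_mul _)

/-- a cone is exact -/
theorem cone_exact {S : Finset V} {v : V} (hv : v ∈ S) (hS : ∀ u ∈ S, u ≠ v → G.Adj u v) {n : ℕ}
    {a : Finset V → R} (ha : Sup G S n a) (hb : bd a = 0) : ∃ b, Sup G S (n + 1) b ∧ bd b = a := by
  classical
  set b : Finset V → R := fun T => if v ∈ T then sgn v (T.erase v) • a (T.erase v) else 0 with hbdef
  refine ⟨b, ?_, ?_⟩
  · intro T hT
    have h1 : v ∈ T := by
      by_contra h
      apply hT
      simp only [hbdef, if_neg h]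
    have h2 : a (T.erase v) ≠ 0 := by
      intro h
      apply hT
      simp only [hbdef, if_pos h1, h, smul_zero]
    obtain ⟨h3, h4, h5⟩ := ha _ h2
    rw [card_erase_of_mem h1] at h5
    have h6 := card_pos.mpr ⟨v, h1⟩
    refine ⟨?_, ?_, by omega⟩
    · intro u hu
      by_cases huv : u = v
      · rw [huv]; exact hv
      · exact h3 (mem_erase.mpr ⟨huv, hu⟩)
    · intro x hx y hy hxy
      rw [mem_coe] at hx hy
      by_cases hav : x = v
      · have hbv : y ≠ v := fun h => hxy (hav.trans h.symm)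
        have := hS y (h3 (mem_erase.mpr ⟨hbv, hy⟩)) hbv
        rw [hav]
        exact this.symm
      · by_cases hbv : y = v
        · have := hS x (h3 (mem_erase.mpr ⟨hav, hx⟩)) hav
          rw [hbv]
          exact this
        · exact h4 (mem_coe.mpr (mem_erase.mpr ⟨hav, hx⟩)) (mem_coe.mpr (mem_erase.mpr ⟨hbv, hy⟩)) hxy
  · funext τ
    rw [bd_apply]
    by_cases hτ : v ∈ τ
    · have h1 : ∀ u ∈ τᶜ, sgn u τ • b (insert u τ) =
          -(sgn v (τ.erase v) • (sgn u (τ.erase v) • a (insert u (τ.erase v)))) := by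
        intro u hu
        have huτ : u ∉ τ := mem_compl.mp hu
        have huv : v ≠ u := fun h => huτ (h ▸ hτ)
        have h2 : b (insert u τ) = sgn v (insert u (τ.erase v)) • a (insert u (τ.erase v)) := by
          simp only [hbdef, if_pos (mem_insert_of_mem hτ)]
          rw [erase_insert_of_ne huv.symm]
        have h3 : sgn u τ = (if v < u then -1 else 1) * sgn u (τ.erase v) := by
          conv_lhs => rw [← insert_erase hτ]
          rw [sgn_insert (notMem_erase v τ)]
        have h4 : sgn v (insert u (τ.erase v)) = (if u < v then -1 else 1) * sgn v (τ.erase v) :=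
          sgn_insert (fun h => huτ (mem_of_mem_erase h))
        rw [h2, h3, h4, smul_smul, smul_smul, ← neg_smul]
        congr 1
        rcases lt_or_gt_of_ne huv with h | h
        · rw [if_pos h, if_neg (not_lt.mpr h.le)]; ring
        · rw [if_neg (not_lt.mpr h.le), if_pos h]; ring
      rw [sum_congr rfl h1, sum_neg_distrib, ← smul_sum]
      have h2 := congrFun hb (τ.erase v)
      rw [bd_apply, Pi.zero_apply] at h2
      have h3 : (τ.erase v)ᶜ = insert v τᶜ := by
        ext a; simp only [mem_compl, mem_insert, mem_erase]; tauto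
      rw [h3, sum_insert (by simp [hτ]), insert_erase hτ] at h2
      have h4 := eq_neg_of_add_eq_zero_right h2
      rw [h4, smul_neg, neg_neg, smul_smul, sgn_sq, one_smul]
    · rw [sum_eq_single v]
      · simp only [hbdef, if_pos (mem_insert_self v τ), erase_insert hτ]
        rw [smul_smul, sgn_sq, one_smul]
      · intro u _ huv
        have h1 : v ∉ insert u τ := by
          rw [mem_insert, not_or]; exact ⟨huv.symm, hτ⟩
        simp only [hbdef, if_neg h1, smul_zero]
      · intro h; exact absurd (mem_compl.mpr hτ) h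

/-! ### chains of carriers -/

/-- the linear extension -/
def fi (φ : Finset V → XM Q R) (a : Finset V → R) : XM Q R := ∑ T : Finset V, a T • φ T

theorem fi_add (φ : Finset V → XM Q R) (a b : Finset V → R) : fi φ (a + b) = fi φ a + fi φ b := by
  unfold fi
  rw [← sum_add_distrib]
  exact sum_congr rfl fun T _ => by rw [Pi.add_apply, add_smul]

theorem fi_neg (φ : Finset V → XM Q R) (a : Finset V → R) : fi φ (-a) = -fi φ a := by
  unfold fi
  rw [← sum_neg_distrib]
  exact sum_congr rfl fun T _ => by rw [Pi.neg_apply, neg_smul]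

theorem fi_sub (φ : Finset V → XM Q R) (a b : Finset V → R) : fi φ (a - b) = fi φ a - fi φ b := by
  rw [sub_eq_add_neg, fi_add, fi_neg, sub_eq_add_neg]

theorem fi_zero (φ : Finset V → XM Q R) : fi φ 0 = 0 := by
  unfold fi
  exact sum_eq_zero fun T _ => by rw [Pi.zero_apply, zero_smul]

theorem fi_mem (φ : Finset V → XM Q R) {a : Finset V → R} {M : Submodule R (XM Q R)}
    (h : ∀ T, a T ≠ 0 → φ T ∈ M) : fi φ a ∈ M := by
  unfold fi
  refine Submodule.sum_mem _ fun T _ => ?_
  by_cases h0 : a T = 0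
  · rw [h0, zero_smul]; exact Submodule.zero_mem _
  · exact Submodule.smul_mem _ _ (h T h0)

theorem fi_bd {φ : Finset V → XM Q R}
    (hφ : ∀ T : Finset V, G.IsClique (T : Set V) → dd (φ T) = ∑ v ∈ T, sgn v (T.erase v) • φ (T.erase v))
    {a : Finset V → R} (ha : ∀ T, a T ≠ 0 → G.IsClique (T : Set V)) : dd (fi φ a) = fi φ (bd a) := by
  have h1 : dd (fi φ a) = ∑ T : Finset V, ∑ v ∈ T, a T • (sgn v (T.erase v) • φ (T.erase v)) := by
    unfold fi
    rw [map_sum]
    refine sum_congr rfl fun T _ => ?_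
    rw [map_smul, ← smul_sum]
    by_cases h0 : a T = 0
    · rw [h0, zero_smul, zero_smul]
    · rw [hφ T (ha T h0)]
  have h2 : fi φ (bd a) = ∑ τ : Finset V, ∑ v ∈ τᶜ, a (insert v τ) • (sgn v τ • φ τ) := by
    unfold fi
    refine sum_congr rfl fun τ _ => ?_
    rw [bd_apply, sum_smul]
    refine sum_congr rfl fun v _ => ?_
    rw [smul_assoc, smul_comm]
  rw [h1, h2, sum_sigma', sum_sigma']
  refine sum_bij' (fun x _ => (⟨x.1.erase x.2, x.2⟩ : Σ _ : Finset V, V))
    (fun x _ => (⟨insert x.2 x.1, x.2⟩ : Σ _ : Finset V, V)) ?_ ?_ ?_ ?_ ?_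
  · rintro ⟨T, v⟩ h
    simp
  · rintro ⟨T, v⟩ h
    simp
  · rintro ⟨T, v⟩ h
    simp only [mem_sigma, mem_univ, true_and] at h
    simp only [insert_erase h]
  · rintro ⟨T, v⟩ h
    simp only [mem_sigma, mem_univ, true_and, mem_compl] at h
    simp only [erase_insert h]
  · rintro ⟨T, v⟩ h
    simp only [mem_sigma, mem_univ, true_and] at h
    simp only [insert_erase h]

/-! ### the chain of the empty clique -/

def e0 (r : R) : Finset V → R := fun T => if T = ∅ then r else 0

theorem e0_ne {r : R} {T : Finset V} (h : e0 r T ≠ 0) : T = ∅ := by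
  by_contra h2
  exact h (if_neg h2)

theorem e0_Sup (S : Finset V) (r : R) : Sup G S 0 (e0 r) := by
  intro T hT
  rw [e0_ne hT]
  exact ⟨empty_subset _, by simp, card_empty⟩

theorem bd_e0 (r : R) : bd (e0 r : Finset V → R) = 0 := by
  funext T
  rw [bd_apply]
  refine sum_eq_zero fun u _ => ?_
  have : (e0 r : Finset V → R) (insert u T) = 0 := if_neg (insert_ne_empty _ _)
  rw [this, smul_zero]

theorem fi_e0 {φ : Finset V → XM Q R} (h0 : φ ∅ = Finsupp.single [] 1) {w : XM Q R} (hw : w ∈ dg Q R 0) :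
    fi φ (e0 (w [])) = w := by
  classical
  unfold fi
  rw [sum_eq_single ∅]
  · have h1 : (e0 (w []) : Finset V → R) ∅ = w [] := if_pos rfl
    rw [h1, h0, Finsupp.smul_single, smul_eq_mul, mul_one]
    ext l
    by_cases hl : l = []
    · subst hl; rw [Finsupp.single_eq_same]
    · rw [Finsupp.single_eq_of_ne (Ne.symm (fun h => hl h.symm))]
      by_contra h2
      have h3 : l ∈ w.support := Finsupp.mem_support_iff.mpr (fun h => h2 h.symm)
      exact hl (List.length_eq_zero_iff.mp (hw h3))
  · intro T _ hT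
    have h1 : (e0 (w []) : Finset V → R) T = 0 := if_neg hT
    rw [h1, zero_smul]
  · intro h; exact absurd (mem_univ _) h

variable (c : Q →* R) (Gs : Finset V → Subgroup Q)

/-- the chains of carriers exist -/
theorem exists_phi (hmono : ∀ S T, S ⊆ T → Gs S ≤ Gs T)
    (hPE : ∀ T : Finset V, G.IsClique (T : Set V) → T.Nonempty → PE c (Gs T)) :
    ∃ φ : Finset V → XM Q R, φ ∅ = Finsupp.single [] 1 ∧
      ∀ T : Finset V, G.IsClique (T : Set V) → φ T ∈ Jt c (Gs T) ∧ φ T ∈ dg Q R T.card ∧
        dd (φ T) = ∑ v ∈ T, sgn v (T.erase v) • φ (T.erase v) := by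
  classical
  have main : ∀ n : ℕ, ∃ φ : Finset V → XM Q R, φ ∅ = Finsupp.single [] 1 ∧
      ∀ T : Finset V, T.card ≤ n → G.IsClique (T : Set V) → φ T ∈ Jt c (Gs T) ∧ φ T ∈ dg Q R T.card ∧
        dd (φ T) = ∑ v ∈ T, sgn v (T.erase v) • φ (T.erase v) := by
    intro n
    induction n with
    | zero =>
      refine ⟨fun _ => Finsupp.single [] 1, rfl, ?_⟩
      intro T hT _
      have h0 : T = ∅ := card_eq_zero.mp (by omega)
      subst h0
      have h1 : (Finsupp.single [] 1 : XM Q R) ∈ dg Q R 0 := single_mem_dg _ _ rfl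
      refine ⟨dg0_le c _ h1, by rw [card_empty]; exact h1, ?_⟩
      rw [dd_dg0 h1]
      simp
    | succ n ih =>
      obtain ⟨φ, h0, h1⟩ := ih
      have h2 : ∀ T : Finset V, ∃ z : XM Q R, T.card = n + 1 → G.IsClique (T : Set V) →
          z ∈ Jt c (Gs T) ∧ z ∈ dg Q R T.card ∧ dd z = ∑ v ∈ T, sgn v (T.erase v) • φ (T.erase v) := by
        intro T
        by_cases hT : T.card = n + 1 ∧ G.IsClique (T : Set V)
        · obtain ⟨hc, hcl⟩ := hT
          have hne : T.Nonempty := card_pos.mp (by omega)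
          set z := ∑ v ∈ T, sgn v (T.erase v) • φ (T.erase v) with hz
          have he : ∀ v ∈ T, φ (T.erase v) ∈ Jt c (Gs (T.erase v)) ∧ φ (T.erase v) ∈ dg Q R n ∧
              dd (φ (T.erase v)) = ∑ w ∈ T.erase v, sgn w ((T.erase v).erase w) • φ ((T.erase v).erase w) := by
            intro v hv
            have hce : (T.erase v).card = n := by rw [card_erase_of_mem hv]; omega
            have := h1 (T.erase v) hce.le (hcl.subset (by simp))
            rw [hce] at this
            exact this
          have hzJ : z ∈ Jt c (Gs T) := by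
            refine Submodule.sum_mem _ fun v hv => ?_
            exact zsmul_mem (Jt_mono c (hmono _ _ (erase_subset _ _)) (he v hv).1) _
          have hzd : z ∈ dg Q R n := Submodule.sum_mem _ fun v hv => zsmul_mem (he v hv).2.1 _
          have hdz : dd z = 0 := by
            rw [hz, map_sum]
            have e1 : ∀ v ∈ T, dd (sgn v (T.erase v) • φ (T.erase v)) = ∑ w ∈ T.erase v,
                (sgn v (T.erase v) * sgn w ((T.erase v).erase w)) • φ ((T.erase v).erase w) := by
              intro v hv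
              rw [map_zsmul, (he v hv).2.2, smul_sum]
              exact sum_congr rfl fun w _ => by rw [smul_smul]
            rw [sum_congr rfl e1]
            have e2 : ∀ v ∈ T, ∀ w ∈ T.erase v,
                (sgn v (T.erase v) * sgn w ((T.erase v).erase w)) • φ ((T.erase v).erase w) =
                ((if w < v then -1 else 1) * sgn v ((T.erase v).erase w) * sgn w ((T.erase v).erase w)) •
                  φ ((T.erase v).erase w) := by
              intro v _ w hw
              congr 2
              conv_lhs => rw [← insert_erase hw]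
              rw [sgn_insert (notMem_erase w _)]
            rw [sum_congr rfl fun v hv => sum_congr rfl fun w hw => e2 v hv w hw]
            refine sum_antisymm_zero T (fun v w => ((if w < v then -1 else 1) * sgn v ((T.erase v).erase w) *
              sgn w ((T.erase v).erase w)) • φ ((T.erase v).erase w)) ?_
            intro u w huw
            rw [erase_right_comm (a := w) (b := u), ← add_smul]
            have : (if w < u then -1 else 1) * sgn u ((T.erase u).erase w) * sgn w ((T.erase u).erase w) +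
                (if u < w then -1 else 1) * sgn w ((T.erase u).erase w) * sgn u ((T.erase u).erase w) = 0 := by
              rcases lt_or_gt_of_ne huw with h | h
              · rw [if_pos h, if_neg (not_lt.mpr h.le)]; ring
              · rw [if_neg (not_lt.mpr h.le), if_pos h]; ring
            rw [this, zero_smul]
          obtain ⟨y, hy1, hy2, hy3⟩ := (hPE T hcl hne).exact c n hzd hzJ hdz
          exact ⟨y, fun _ _ => ⟨hy2, by rw [hc]; exact hy1, hy3⟩⟩
        · exact ⟨0, fun h3 h4 => absurd ⟨h3, h4⟩ hT⟩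
      choose ψ hψ using h2
      refine ⟨fun T => if T.card = n + 1 then ψ T else φ T, ?_, ?_⟩
      · simp only [card_empty]
        rw [if_neg (by omega), h0]
      · intro T hT hcl
        have he : ∀ v ∈ T, (if (T.erase v).card = n + 1 then ψ (T.erase v) else φ (T.erase v)) = φ (T.erase v) := by
          intro v hv
          have h3 := card_pos.mpr ⟨v, hv⟩
          rw [if_neg]
          rw [card_erase_of_mem hv]
          omega
        simp only
        rw [sum_congr rfl fun v hv => by rw [he v hv]]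
        by_cases h3 : T.card = n + 1
        · simp only [if_pos h3]
          exact hψ T h3 hcl
        · simp only [if_neg h3]
          exact h1 T (by omega) hcl
  obtain ⟨φ, h0, h1⟩ := main (Fintype.card V)
  exact ⟨φ, h0, fun T hT => h1 T (card_le_univ T) hT⟩

/-! ### the cones -/

variable (G) in
/-- exactness of the cone of the comparison map for the vertices in `S` -/
def Ex (φ : Finset V → XM Q R) (S : Finset V) : Prop :=
  ∀ (m : ℕ) (a : Finset V → R) (y : XM Q R), Sup G S m a → y ∈ Jt c (Gs S) → y ∈ dg Q R (m + 1) → bd a = 0 →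
    fi φ a + dd y = 0 → ∃ a' y', Sup G S (m + 1) a' ∧ y' ∈ Jt c (Gs S) ∧ y' ∈ dg Q R (m + 2) ∧ bd a' = -a ∧
      fi φ a' + dd y' = y

variable {c Gs}

theorem fi_Jt {φ : Finset V → XM Q R} (hmono : ∀ S T, S ⊆ T → Gs S ≤ Gs T)
    (hφ : ∀ T : Finset V, G.IsClique (T : Set V) → φ T ∈ Jt c (Gs T) ∧ φ T ∈ dg Q R T.card ∧
        dd (φ T) = ∑ v ∈ T, sgn v (T.erase v) • φ (T.erase v)) {S : Finset V} {m : ℕ} {a : Finset V → R}
    (ha : Sup G S m a) : fi φ a ∈ Jt c (Gs S) :=
  fi_mem φ fun T hT => Jt_mono c (hmono _ _ (ha T hT).1) (hφ T (ha T hT).2.1).1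

theorem fi_dg {φ : Finset V → XM Q R}
    (hφ : ∀ T : Finset V, G.IsClique (T : Set V) → φ T ∈ Jt c (Gs T) ∧ φ T ∈ dg Q R T.card ∧
        dd (φ T) = ∑ v ∈ T, sgn v (T.erase v) • φ (T.erase v)) {S : Finset V} {m : ℕ} {a : Finset V → R}
    (ha : Sup G S m a) : fi φ a ∈ dg Q R m :=
  fi_mem φ fun T hT => by
    have := (hφ T (ha T hT).2.1).2.1
    rw [(ha T hT).2.2] at this
    exact this

theorem cone_Ex {φ : Finset V → XM Q R} (hmono : ∀ S T, S ⊆ T → Gs S ≤ Gs T)
    (hφ : ∀ T : Finset V, G.IsClique (T : Set V) → φ T ∈ Jt c (Gs T) ∧ φ T ∈ dg Q R T.card ∧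
        dd (φ T) = ∑ v ∈ T, sgn v (T.erase v) • φ (T.erase v)) {S : Finset V} {v : V} (hv : v ∈ S)
    (hS : ∀ u ∈ S, u ≠ v → G.Adj u v) (hPE : PE c (Gs S)) : Ex G c Gs φ S := by
  intro m a y ha hyJ hyd hb hc
  obtain ⟨b, hb1, hb2⟩ := cone_exact hv hS ha hb
  have h1 : dd (y - fi φ (-b)) = 0 := by
    rw [map_sub, fi_bd (fun T hT => (hφ T hT).2.2) (fun T hT => (Sup_neg hb1 T hT).2.1), bd_neg, hb2, fi_neg,
      sub_neg_eq_add, add_comm]
    exact hc
  obtain ⟨z, hz1, hz2, hz3⟩ := hPE.exact c (m + 1)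
    (Submodule.sub_mem _ hyd (fi_dg hφ (Sup_neg hb1)))
    (Submodule.sub_mem _ hyJ (fi_Jt hmono hφ (Sup_neg hb1))) h1
  refine ⟨-b, z, Sup_neg hb1, hz2, hz1, ?_, ?_⟩
  · rw [bd_neg, hb2]
  · rw [hz3]; abel

theorem all_Ex {φ : Finset V → XM Q R} (hmono : ∀ S T, S ⊆ T → Gs S ≤ Gs T) (h0 : φ ∅ = Finsupp.single [] 1)
    (hφ : ∀ T : Finset V, G.IsClique (T : Set V) → φ T ∈ Jt c (Gs T) ∧ φ T ∈ dg Q R T.card ∧
        dd (φ T) = ∑ v ∈ T, sgn v (T.erase v) • φ (T.erase v))
    (hbot : Gs ∅ = ⊥)
    (hPE : ∀ (S : Finset V) (v : V), v ∈ S → (∀ u ∈ S, u ≠ v → G.Adj u v) → PE c (Gs S))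
    (hsup : ∀ (S : Finset V) (v : V), v ∈ S → ∀ L : Finset V, (∀ u, u ∈ L ↔ u ∈ S.erase v ∧ G.Adj u v) →
      Gs S ≤ Gs (S.erase v) ⊔ Gs (insert v L))
    (hinf : ∀ (S : Finset V) (v : V), v ∈ S → ∀ L : Finset V, (∀ u, u ∈ L ↔ u ∈ S.erase v ∧ G.Adj u v) →
      Jt c (Gs (S.erase v)) ⊓ Jt c (Gs (insert v L)) ≤ Jt c (Gs L))
    (S : Finset V) : Ex G c Gs φ S := by
  classical
  induction S using Finset.strongInduction with
  | H S ih =>
  rcases S.eq_empty_or_nonempty with hS | ⟨v, hvS⟩
  · subst hS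
    intro m a y ha hyJ hyd hb hc
    have hJ : Jt c (Gs ∅) ≤ dg Q R 0 := by
      refine Jt_le c le_rfl ?_
      intro g hg x
      rw [hbot, Subgroup.mem_bot] at hg
      rw [hg, ac_one, sub_self]
      exact Submodule.zero_mem _
    have hy0 : y = 0 := by
      have h1 := hJ hyJ
      ext l
      by_contra h2
      have h3 : l ∈ y.support := Finsupp.mem_support_iff.mpr h2
      have h4 : l.length = 0 := h1 h3
      have h5 : l.length = m + 1 := hyd h3
      omega
    have ha0 : a = 0 := by
      have h1 : ∀ T, T ≠ ∅ → a T = 0 := by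
        intro T hT
        by_contra h
        exact hT (subset_empty.mp (ha T h).1)
      have h2 : a ∅ = 0 := by
        have h3 : fi φ a = a ∅ • Finsupp.single [] 1 := by
          unfold fi
          rw [sum_eq_single ∅, h0]
          · intro T _ hT
            rw [h1 T hT, zero_smul]
          · intro h; exact absurd (mem_univ _) h
        rw [hy0, map_zero, add_zero, h3, Finsupp.smul_single, smul_eq_mul, mul_one] at hc
        have := DFunLike.congr_fun hc ([] : List Q)
        rw [Finsupp.single_eq_same] at this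
        exact this
      funext T
      by_cases hT : T = ∅
      · rw [hT]; exact h2
      · exact h1 T hT
    subst ha0
    refine ⟨0, 0, Sup_zero _ _, Submodule.zero_mem _, Submodule.zero_mem _, ?_, ?_⟩
    · rw [bd_zero, neg_zero]
    · rw [fi_zero, map_zero, add_zero, hy0]
  · obtain ⟨L, hL⟩ : ∃ L : Finset V, ∀ u, u ∈ L ↔ u ∈ S.erase v ∧ G.Adj u v :=
      ⟨(S.erase v).filter (fun u => G.Adj u v), fun u => mem_filter⟩
    have hLS' : L ⊆ S.erase v := fun u hu => ((hL u).mp hu).1
    have hS'S : S.erase v ⊂ S := erase_ssubset hvS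
    have hLS : L ⊂ S := lt_of_le_of_lt hLS' hS'S
    have hvL : v ∉ L := fun h => (notMem_erase v S) (hLS' h)
    have hBS : insert v L ⊆ S := insert_subset_iff.mpr ⟨hvS, hLS.subset⟩
    have hcone : ∀ u ∈ insert v L, u ≠ v → G.Adj u v := by
      intro u hu huv
      have h1 : u ∈ L := by
        rcases mem_insert.mp hu with h | h
        · exact absurd h huv
        · exact h
      exact ((hL u).mp h1).2
    have EB : Ex G c Gs φ (insert v L) := cone_Ex hmono hφ (mem_insert_self _ _) hcone (hPE _ v (mem_insert_self _ _) hcone)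
    have EA := ih _ hS'S
    have EL := ih _ hLS
    intro m a y ha hyJ hyd hb hc
    set aB : Finset V → R := fun T => if v ∈ T then a T else 0 with haB
    set aA : Finset V → R := fun T => if v ∈ T then 0 else a T with haA
    have hsum : a = aA + aB := by
      funext T
      simp only [haA, haB, Pi.add_apply]
      split_ifs <;> simp
    have hSA : Sup G (S.erase v) m aA := by
      intro T hT
      have h1 : v ∉ T := by
        intro h
        apply hT
        simp only [haA, if_pos h]
      have h2 : a T ≠ 0 := by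
        intro h
        apply hT
        simp only [haA, if_neg h1, h]
      obtain ⟨h3, h4, h5⟩ := ha T h2
      exact ⟨fun u hu => mem_erase.mpr ⟨fun h => h1 (h ▸ hu), h3 hu⟩, h4, h5⟩
    have hSB : Sup G (insert v L) m aB := by
      intro T hT
      have h1 : v ∈ T := by
        by_contra h
        apply hT
        simp only [haB, if_neg h]
      have h2 : a T ≠ 0 := by
        intro h
        apply hT
        simp only [haB, if_pos h1, h]
      obtain ⟨h3, h4, h5⟩ := ha T h2
      refine ⟨fun u hu => ?_, h4, h5⟩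
      by_cases huv : u = v
      · rw [huv]; exact mem_insert_self _ _
      · refine mem_insert_of_mem ?_
        exact (hL u).mpr ⟨mem_erase.mpr ⟨huv, h3 hu⟩, h4 (mem_coe.mpr hu) (mem_coe.mpr h1) huv⟩
    -- split `y`
    obtain ⟨yA0, hyA0, yB0, hyB0, hy0⟩ := Submodule.mem_sup.mp
      (Jt_sup c _ _ (Jt_mono c (hsup S v hvS L hL) hyJ))
    obtain ⟨yA, yB, hyA, hyB, hyAd, hyBd, hyAB⟩ : ∃ yA yB : XM Q R, yA ∈ Jt c (Gs (S.erase v)) ∧
        yB ∈ Jt c (Gs (insert v L)) ∧ yA ∈ dg Q R (m + 1) ∧ yB ∈ dg Q R (m + 1) ∧ yA + yB = y :=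
      ⟨pn (m + 1) yA0, pn (m + 1) yB0, pn_Jt c _ hyA0, pn_Jt c _ hyB0, pn_dg _ _, pn_dg _ _, by
        rw [← map_add, hy0, pn_of_dg hyd]⟩
    -- the common part
    have hdiv : bd aA = -bd aB := by
      rw [hsum, bd_add] at hb
      exact eq_neg_of_add_eq_zero_left hb
    set w := fi φ aA + dd yA with hw
    have hw2 : w = -(fi φ aB + dd yB) := by
      have h1 : fi φ aA + dd yA + (fi φ aB + dd yB) = 0 := by
        rw [← hc, hsum, fi_add, ← hyAB, map_add]
        abel
      exact eq_neg_of_add_eq_zero_left h1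
    have hwL : w ∈ Jt c (Gs L) := by
      refine hinf S v hvS L hL ⟨?_, ?_⟩
      · exact Submodule.add_mem _ (fi_Jt hmono hφ hSA) (dd_Jt c hyA)
      · rw [SetLike.mem_coe, hw2]
        exact Submodule.neg_mem _ (Submodule.add_mem _ (fi_Jt hmono hφ hSB) (dd_Jt c hyB))
    have hwd : w ∈ dg Q R m := Submodule.add_mem _ (fi_dg hφ hSA) (dd_dg hyAd)
    -- a primitive of the common part
    obtain ⟨aL, yL, haL, hyLJ, hyLd, hbL, hyLw⟩ : ∃ aL yL, Sup G L m aL ∧ yL ∈ Jt c (Gs L) ∧
        yL ∈ dg Q R (m + 1) ∧ bd aL = bd aA ∧ fi φ aL + dd yL = w := by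
      cases m with
      | zero =>
        have h1 : ∀ T, T ≠ ∅ → aA T = 0 := by
          intro T hT
          by_contra h
          exact hT (card_eq_zero.mp (hSA T h).2.2)
        have hbA : bd aA = 0 := by
          funext T
          rw [bd_apply]
          refine sum_eq_zero fun u _ => ?_
          rw [h1 _ (insert_ne_empty _ _), smul_zero]
        refine ⟨e0 (w []), 0, e0_Sup _ _, Submodule.zero_mem _, Submodule.zero_mem _, ?_, ?_⟩
        · rw [hbA, bd_e0]
        · rw [map_zero, add_zero, fi_e0 h0 hwd]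
      | succ m =>
        have hSb : Sup G L m (-bd aA) := by
          intro T hT
          have h1 := Sup_neg (Sup_bd hSA) T hT
          have h2 : T ⊆ insert v L := by
            have : Sup G (insert v L) m (-bd aA) := by
              rw [hdiv, neg_neg]
              exact Sup_bd hSB
            exact (this T hT).1
          refine ⟨?_, h1.2⟩
          intro u hu
          rcases mem_insert.mp (h2 hu) with h3 | h3
          · exfalso
            have := h1.1 hu
            rw [h3] at this
            exact notMem_erase v S this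
          · exact h3
        obtain ⟨aL, yL, h1, h2, h3, h4, h5⟩ := EL m (-bd aA) w hSb hwL hwd
          (by rw [bd_neg, bd_bd (fun T hT => (hSA T hT).2.1), neg_zero])
          (by
            rw [hw, map_add, dd_dd, add_zero, fi_bd (fun T hT => (hφ T hT).2.2) (fun T hT => (hSA T hT).2.1),
              fi_neg]
            abel)
        refine ⟨aL, yL, h1, h2, h3, ?_, h5⟩
        rw [h4, neg_neg]
    -- the two parts
    obtain ⟨a1, y1, h11, h12, h13, h14, h15⟩ := EA m (aA - aL) (yA - yL) (Sup_sub hSA (Sup_mono hLS' haL))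
      (Submodule.sub_mem _ hyA (Jt_mono c (hmono _ _ hLS') hyLJ)) (Submodule.sub_mem _ hyAd hyLd)
      (by rw [bd_sub, hbL, sub_self])
      (by
        rw [fi_sub, map_sub]
        have : fi φ aA - fi φ aL + (dd yA - dd yL) = w - (fi φ aL + dd yL) := by rw [hw]; abel
        rw [this, hyLw, sub_self])
    obtain ⟨a2, y2, h21, h22, h23, h24, h25⟩ := EB m (aB + aL) (yB + yL)
      (Sup_add hSB (Sup_mono (subset_insert _ _) haL))
      (Submodule.add_mem _ hyB (Jt_mono c (hmono _ _ (subset_insert _ _)) hyLJ)) (Submodule.add_mem _ hyBd hyLd)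
      (by rw [bd_add, hbL, hdiv]; abel)
      (by
        rw [fi_add, map_add]
        have : fi φ aB + fi φ aL + (dd yB + dd yL) = (fi φ aB + dd yB) + (fi φ aL + dd yL) := by abel
        rw [this, hyLw, hw2]; abel)
    refine ⟨a1 + a2, y1 + y2, Sup_add (Sup_mono hS'S.subset h11) (Sup_mono hBS h21), ?_, ?_, ?_, ?_⟩
    · exact Submodule.add_mem _ (Jt_mono c (hmono _ _ hS'S.subset) h12) (Jt_mono c (hmono _ _ hBS) h22)
    · exact Submodule.add_mem _ h13 h23
    · rw [bd_add, h14, h24, hsum]; abel
    · rw [fi_add, map_add]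
      have : fi φ a1 + fi φ a2 + (dd y1 + dd y2) = (fi φ a1 + dd y1) + (fi φ a2 + dd y2) := by abel
      rw [this, h15, h25, ← hyAB]; abel

/-- **Comparison.** Where the clique complex is exact, the homology of the whole group vanishes. -/
theorem vanish {φ : Finset V → XM Q R} (hmono : ∀ S T, S ⊆ T → Gs S ≤ Gs T) (h0 : φ ∅ = Finsupp.single [] 1)
    (hφ : ∀ T : Finset V, G.IsClique (T : Set V) → φ T ∈ Jt c (Gs T) ∧ φ T ∈ dg Q R T.card ∧
        dd (φ T) = ∑ v ∈ T, sgn v (T.erase v) • φ (T.erase v))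
    (hE : Ex G c Gs φ univ) (k : ℕ)
    (hk : ∀ a : Finset V → R, Sup G univ k a → bd a = 0 → ∃ b, Sup G univ (k + 1) b ∧ bd b = a)
    {x : XM Q R} (hx : x ∈ dg Q R (k + 1)) (hdx : dd x ∈ Jt c (Gs univ)) :
    ∃ y ∈ dg Q R (k + 2), x - dd y ∈ Jt c (Gs univ) := by
  classical
  obtain ⟨a, y, ha, hyJ, hyd, hba, hay⟩ : ∃ a y, Sup G univ k a ∧ y ∈ Jt c (Gs univ) ∧ y ∈ dg Q R (k + 1) ∧
      bd a = 0 ∧ fi φ a + dd y = dd x := by
    cases k with
    | zero =>
      refine ⟨e0 (dd x []), 0, e0_Sup _ _, Submodule.zero_mem _, Submodule.zero_mem _, bd_e0 _, ?_⟩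
      rw [map_zero, add_zero, fi_e0 h0 (dd_dg hx)]
    | succ k =>
      obtain ⟨a, y, h1, h2, h3, h4, h5⟩ := hE k 0 (dd x) (Sup_zero _ _) hdx (dd_dg hx) bd_zero
        (by rw [fi_zero, dd_dd, add_zero])
      exact ⟨a, y, h1, h2, h3, by rw [h4, neg_zero], h5⟩
  obtain ⟨b, hb1, hb2⟩ := hk a ha hba
  have h1 : dd (x - (fi φ b + y)) = 0 := by
    rw [map_sub, map_add, fi_bd (fun T hT => (hφ T hT).2.2) (fun T hT => (hb1 T hT).2.1), hb2, hay, sub_self]
  refine ⟨cn 1 (x - (fi φ b + y)), cn_dg 1 (Submodule.sub_mem _ hx (Submodule.add_mem _ (fi_dg hφ hb1) hyd)), ?_⟩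
  rw [dd_cn, h1, map_zero, sub_zero, sub_sub_cancel]
  exact Submodule.add_mem _ (fi_Jt hmono hφ hb1) hyJ

end Pool.Agent.H77GP
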