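import Pool.Agent.H77GP.A1
import Pool.Agent.Helper970.V7.P_proj_RM

/-!
# The intersection of the relations of two subgroups
-/

set_option autoImplicit false
set_option linter.unusedSectionVars false

noncomputable section

namespace Pool.Agent.H77GP

variable {Q R : Type} [Group Q] [Ring R]

theorem exists_rep' (H : Subgroup Q) : ∃ (rep kk : Q → Q), (∀ g, kk g ∈ H) ∧ (∀ g, kk g * rep g = g) ∧
    (∀ h ∈ H, ∀ g, rep (h * g) = rep g) := by
  obtain ⟨rep, kk, h1, h2, _⟩ := V7N.exists_rep H.subtype H.subtype_injective
  exact ⟨rep, fun g => (kk g : Q), fun g => (kk g).2, h1, fun h hh g => h2 ⟨h, hh⟩ g⟩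

/-- the quotient of the heads -/
def qh (m l : List Q) : Q := m.headD 1 * (l.headD 1)⁻¹

theorem qh_map {l : List Q} (hl : l ≠ []) (g : Q) : qh (l.map (g * ·)) l = g := by
  obtain ⟨a, l', rfl⟩ := List.exists_cons_of_ne_nil hl
  unfold qh
  simp

theorem map_mul_map (g h : Q) (l : List Q) : (l.map (h * ·)).map (g * ·) = l.map (g * h * ·) := by
  rw [List.map_map]
  apply List.map_congr_left
  intro a _
  simp [mul_assoc]

theorem map_one_mul (l : List Q) : l.map (1 * ·) = l := by
  simp

variable (c : Q →* R)

open Classical in
/-- the functional of a function on the group and a list -/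
def Th (F : Q → ℤ) (l : List Q) : XM Q R →ₗ[R] R :=
  Finsupp.linearCombination R fun m => if m = l.map (qh m l * ·) then c (qh m l) * (F (qh m l) : R) else 0

open Classical in
theorem Th_single (F : Q → ℤ) (l m : List Q) (r : R) : Th c F l (Finsupp.single m r) =
    r * (if m = l.map (qh m l * ·) then c (qh m l) * (F (qh m l) : R) else 0) := by
  unfold Th
  rw [Finsupp.linearCombination_single, smul_eq_mul]

theorem Th_add (F F' : Q → ℤ) (l : List Q) (x : XM Q R) : Th c (fun g => F g + F' g) l x = Th c F l x + Th c F' l x := by
  classical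
  have h : Th c (fun g => F g + F' g) l = Th c F l + Th c F' l := by
    refine Finsupp.lhom_ext fun m r => ?_
    rw [LinearMap.add_apply, Th_single, Th_single, Th_single]
    split_ifs
    · rw [Int.cast_add, mul_add, mul_add]
    · simp
  rw [h, LinearMap.add_apply]

theorem Th_Jt {H : Subgroup Q} {F : Q → ℤ} (hF : ∀ h ∈ H, ∀ g, F (h * g) = F g) {l : List Q} (hl : l ≠ [])
    {x : XM Q R} (hx : x ∈ Jt c H) : Th c F l x = 0 := by
  classical
  have h : Jt c H ≤ (Th c F l).ker := by
    refine Jt_le' c ?_ ?_
    · intro y hy
      have := map_dg (Th c F l) ⊥ (n := 0) (fun m hm => by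
        rw [Submodule.mem_bot, Th_single, if_neg, mul_zero]
        intro h
        rw [List.length_eq_zero_iff.mp hm] at h
        exact hl (List.map_eq_nil_iff.mp h.symm)) hy
      rw [LinearMap.mem_ker]
      exact (Submodule.mem_bot R).mp this
    · intro h hh m hm
      rw [LinearMap.mem_ker, map_sub, Th_single, Th_single, one_mul]
      by_cases hml : m = l.map (qh m l * ·)
      · have h2 : qh (m.map (h * ·)) l = h * qh m l := by
          conv_lhs => rw [hml]
          rw [map_mul_map, qh_map hl]
        rw [if_pos hml, if_pos, h2, hF h hh, map_mul, ← mul_assoc, ← mul_assoc, ← map_mul, inv_mul_cancel, map_one,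
          one_mul, sub_self]
        rw [h2, ← map_mul_map, ← hml]
      · rw [if_neg hml, if_neg, mul_zero, sub_zero]
        intro h2
        apply hml
        have h3 : m = (m.map (h * ·)).map (h⁻¹ * ·) := by
          rw [map_mul_map, inv_mul_cancel, map_one_mul]
        rw [h2, map_mul_map] at h3
        rw [h3, qh_map hl]
  exact h hx

/-- **Criterion** -/
theorem mem_Jt {H : Subgroup Q} {F : Q → ℤ} (hF1 : ∀ g ∈ H, F g = 1) (hF0 : ∀ g ∉ H, F g = 0) {x : XM Q R}
    (hx : ∀ l : List Q, l ≠ [] → Th c F l x = 0) : x ∈ Jt c H := by
  classical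
  obtain ⟨rep, kk, h1, h2, h3⟩ := exists_rep' H
  -- the normal form
  let N : XM Q R →ₗ[R] XM Q R := Finsupp.linearCombination R fun m : List Q =>
    if m = [] then 0 else Finsupp.single (m.map ((kk (m.headD 1))⁻¹ * ·)) (c (kk (m.headD 1)))
  have hN : ∀ (m : List Q) (r : R), N (Finsupp.single m r) = r • (if m = [] then (0 : XM Q R) else
      Finsupp.single (m.map ((kk (m.headD 1))⁻¹ * ·)) (c (kk (m.headD 1)))) := by
    intro m r
    exact Finsupp.linearCombination_single _ _ _
  have hNJ : ∀ y : XM Q R, y - N y ∈ Jt c H := by
    intro y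
    induction y using Finsupp.induction_linear with
    | zero => rw [map_zero, sub_zero]; exact Submodule.zero_mem _
    | add y z hy hz =>
      have : y + z - N (y + z) = (y - N y) + (z - N z) := by rw [map_add]; abel
      rw [this]
      exact Submodule.add_mem _ hy hz
    | single m r =>
      rw [hN]
      by_cases hm : m = []
      · rw [if_pos hm, smul_zero, sub_zero, hm]
        exact dg0_le c H (single_mem_dg _ _ rfl)
      · rw [if_neg hm]
        have := rel_mem c (H.inv_mem (h1 (m.headD 1))) (Finsupp.single m r)
        rw [ac_single, inv_inv] at this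
        rw [Finsupp.smul_single, smul_eq_mul]
        exact this
  -- the coefficients of the normal form
  have hval : ∀ l : List Q, (l ≠ [] ∧ rep (l.headD 1) = l.headD 1) → ∀ y : XM Q R, N y l = Th c F l y := by
    rintro l ⟨hl, hrep⟩ y
    induction y using Finsupp.induction_linear with
    | zero => rw [map_zero, map_zero]; rfl
    | add y z hy hz => rw [map_add, map_add, Finsupp.add_apply, hy, hz]
    | single m r =>
      rw [hN, Th_single, Finsupp.smul_apply, smul_eq_mul]
      congr 1
      by_cases hm : m = []
      · rw [if_pos hm, if_neg]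
        · rfl
        · intro h
          rw [hm] at h
          exact hl (List.map_eq_nil_iff.mp h.symm)
      · rw [if_neg hm, Finsupp.single_apply]
        by_cases hml : m = l.map (qh m l * ·)
        · rw [if_pos hml]
          by_cases hq : qh m l ∈ H
          · have h4 : m.headD 1 = qh m l * l.headD 1 := by unfold qh; group
            have h5 : rep (m.headD 1) = l.headD 1 := by rw [h4, h3 _ hq, hrep]
            have h6 : kk (m.headD 1) = qh m l := by
              have h7 := h2 (m.headD 1)
              rw [h5] at h7
              unfold qh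
              rw [eq_mul_inv_iff_mul_eq]
              exact h7
            rw [if_pos, h6, hF1 _ hq, Int.cast_one, mul_one]
            rw [h6]
            conv_lhs => rw [hml]
            rw [map_mul_map, qh_map hl, inv_mul_cancel, map_one_mul]
          · rw [hF0 _ hq, Int.cast_zero, mul_zero, if_neg]
            intro h4
            apply hq
            have h5 : m = l.map (kk (m.headD 1) * ·) := by
              conv_rhs => rw [← h4]
              rw [map_mul_map, mul_inv_cancel, map_one_mul]
            have h6 : qh m l = kk (m.headD 1) := by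
              conv_lhs => rw [h5]
              exact qh_map hl _
            rw [h6]
            exact h1 _
        · rw [if_neg hml, if_neg]
          intro h4
          apply hml
          have h5 : m = l.map (kk (m.headD 1) * ·) := by
            conv_rhs => rw [← h4]
            rw [map_mul_map, mul_inv_cancel, map_one_mul]
          have h6 : qh m l = kk (m.headD 1) := by
            conv_lhs => rw [h5]
            exact qh_map hl _
          rw [h6]
          exact h5
  have hsupp : ∀ l : List Q, ¬ (l ≠ [] ∧ rep (l.headD 1) = l.headD 1) → ∀ y : XM Q R, N y l = 0 := by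
    intro l hl y
    induction y using Finsupp.induction_linear with
    | zero => rw [map_zero]; rfl
    | add y z hy hz => rw [map_add, Finsupp.add_apply, hy, hz, add_zero]
    | single m r =>
      rw [hN, Finsupp.smul_apply, smul_eq_mul]
      by_cases hm : m = []
      · rw [if_pos hm]; exact mul_zero _
      · rw [if_neg hm, Finsupp.single_apply, if_neg, mul_zero]
        intro h4
        apply hl
        obtain ⟨a, m', rfl⟩ := List.exists_cons_of_ne_nil hm
        rw [← h4]
        have h5 : (kk a)⁻¹ * a = rep a := by
          rw [inv_mul_eq_iff_eq_mul]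
          exact (h2 a).symm
        refine ⟨by simp, ?_⟩
        simp only [List.headD_cons, List.map_cons]
        rw [h3 _ (H.inv_mem (h1 a)), h5]
  have h0 : N x = 0 := by
    ext l
    by_cases hl : l ≠ [] ∧ rep (l.headD 1) = l.headD 1
    · rw [hval l hl, hx l hl.1]; rfl
    · rw [hsupp l hl]; rfl
  have := hNJ x
  rw [h0, sub_zero] at this
  exact this

/-- **The intersection lemma** -/
theorem Jt_inf_le {A B C : Subgroup Q} (F1 F2 : Q → ℤ) (h1 : ∀ b ∈ B, ∀ g, F1 (b * g) = F1 g)
    (h2 : ∀ a ∈ A, ∀ g, F2 (a * g) = F2 g) (hC1 : ∀ g ∈ C, F1 g + F2 g = 1) (hC0 : ∀ g ∉ C, F1 g + F2 g = 0) :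
    Jt c A ⊓ Jt c B ≤ Jt c C := by
  rintro x ⟨hxA, hxB⟩
  refine mem_Jt c (F := fun g => F1 g + F2 g) hC1 hC0 fun l hl => ?_
  rw [Th_add, Th_Jt c h1 hl hxB, Th_Jt c h2 hl hxA, add_zero]

end Pool.Agent.H77GP
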