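import Pool.Agent.H77GP.A3

/-!
# Vanishing passes from a normal subgroup to the group
-/

set_option autoImplicit false
set_option linter.unusedSectionVars false

noncomputable section

namespace Pool.Agent.H77GP

variable {Q R : Type} [Group Q] [Ring R]

theorem exists_rep3 (H : Subgroup Q) : ∃ (kk : Q → Q), (∀ g, kk g ∈ H) ∧
    (∀ h ∈ H, ∀ g, kk (h * g) = h * kk g) := by
  obtain ⟨rep, kk, h1, h2, h3⟩ := V7N.exists_rep H.subtype H.subtype_injective
  refine ⟨fun g => (kk g : Q), fun g => (kk g).2, fun h hh g => ?_⟩
  have := congrArg Subtype.val (h3 ⟨h, hh⟩ g)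
  exact this

variable (c : Q →* R)

theorem ac_Jt {A : Subgroup Q} {h : Q} (hn : ∀ a ∈ A, h * a * h⁻¹ ∈ A) {x : XM Q R} (hx : x ∈ Jt c A) :
    ac c h x ∈ Jt c A := by
  have e : Jt c A ≤ (Jt c A).comap (ac c h) := by
    refine Jt_le c ?_ ?_
    · intro y hy
      exact dg0_le c A (ac_dg c h hy)
    · intro a ha y
      rw [Submodule.mem_comap, map_sub]
      have h1 : ac c h (ac c a y) = ac c (h * a * h⁻¹) (ac c h y) := by
        rw [← ac_mul, ← ac_mul]
        congr 2
        group
      rw [h1]
      exact rel_mem c (hn a ha) _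
  exact e hx

/-- maps which agree on lists of length `k` agree on the chains of degree `k` -/
theorem eq_on_dg {f g : XM Q R →ₗ[R] XM Q R} {k : ℕ}
    (h : ∀ l : List Q, l.length = k → f (Finsupp.single l 1) = g (Finsupp.single l 1)) {x : XM Q R}
    (hx : x ∈ dg Q R k) : f x = g x := by
  have := map_dg (f - g) ⊥ (n := k) (fun l hl => by
    rw [Submodule.mem_bot, LinearMap.sub_apply, h l hl, sub_self]) hx
  rw [Submodule.mem_bot, LinearMap.sub_apply, sub_eq_zero] at this
  exact this

theorem contraction {A H : Subgroup Q} (hn : ∀ h ∈ H, ∀ a ∈ A, h * a * h⁻¹ ∈ A) (hA : PE c A) (n : ℕ) :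
    ∃ s : XM Q R →ₗ[R] XM Q R, (∀ h ∈ H, ∀ x, s (ac c h x) = ac c h (s x)) ∧
      (∀ k, ∀ x ∈ dg Q R k, s x ∈ dg Q R (k + 1)) ∧ (∀ x ∈ dg Q R 0, s x = 0) ∧
      ∀ k ≤ n, ∀ x ∈ dg Q R k, x - dd (s x) - s (dd x) ∈ Jt c A := by
  classical
  induction n with
  | zero =>
    refine ⟨0, ?_, ?_, ?_, ?_⟩
    · intro h _ x; rw [LinearMap.zero_apply, LinearMap.zero_apply, map_zero]
    · intro k x _; rw [LinearMap.zero_apply]; exact Submodule.zero_mem _
    · intro x _; rfl
    · intro k hk x hx
      obtain rfl : k = 0 := by omega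
      rw [LinearMap.zero_apply, LinearMap.zero_apply, map_zero, sub_zero, sub_zero]
      exact dg0_le c A hx
  | succ n ih =>
    obtain ⟨s, hs1, hs2, hs3, hs4⟩ := ih
    obtain ⟨kk, hk1, hk2⟩ := exists_rep3 H
    have hy : ∀ l : List Q, ∃ y : XM Q R, l.length = n + 1 → y ∈ dg Q R (n + 2) ∧
        Finsupp.single l 1 - dd y - s (dd (Finsupp.single l 1)) ∈ Jt c A := by
      intro l
      by_cases hl : l.length = n + 1
      · have h1 : (Finsupp.single l 1 : XM Q R) ∈ dg Q R (n + 1) := single_mem_dg _ _ hl
        have h2 := dd_dg h1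
        have h3 := hs4 n le_rfl _ h2
        rw [dd_dd, map_zero, sub_zero] at h3
        obtain ⟨y, hy1, hy2⟩ := hA n (Finsupp.single l 1 - s (dd (Finsupp.single l 1)))
          (Submodule.sub_mem _ h1 (hs2 _ _ h2)) (by rw [map_sub]; exact h3)
        refine ⟨y, fun _ => ⟨hy1, ?_⟩⟩
        rw [sub_right_comm]
        exact hy2
      · exact ⟨0, fun h => absurd h hl⟩
    choose y hy using hy
    let s' : XM Q R →ₗ[R] XM Q R := Finsupp.linearCombination R fun l : List Q =>
      if l.length = n + 1 then c (kk (l.headD 1)) • ac c (kk (l.headD 1)) (y (l.map ((kk (l.headD 1))⁻¹ * ·)))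
      else s (Finsupp.single l 1)
    have hs' : ∀ (l : List Q) (r : R), s' (Finsupp.single l r) = r • (if l.length = n + 1 then
        c (kk (l.headD 1)) • ac c (kk (l.headD 1)) (y (l.map ((kk (l.headD 1))⁻¹ * ·)))
        else s (Finsupp.single l 1)) := fun l r => Finsupp.linearCombination_single _ _ _
    have hsn : ∀ (l : List Q) (r : R), r • s (Finsupp.single l 1) = s (Finsupp.single l r) := by
      intro l r
      rw [← map_smul, Finsupp.smul_single, smul_eq_mul, mul_one]
    have hagree : ∀ k, k ≠ n + 1 → ∀ x ∈ dg Q R k, s' x = s x := by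
      intro k hk x hx
      refine eq_on_dg (fun l hl => ?_) hx
      rw [hs', if_neg (by omega), one_smul]
    have hequiv : ∀ h ∈ H, ∀ x, s' (ac c h x) = ac c h (s' x) := by
      intro h hh x
      have e : s'.comp (ac c h) = (ac c h).comp s' := by
        refine Finsupp.lhom_ext fun l r => ?_
        rw [LinearMap.comp_apply, LinearMap.comp_apply, ac_single, hs', hs', map_smul]
        by_cases hl : l.length = n + 1
        · rw [if_pos hl, if_pos (by rw [List.length_map]; exact hl)]
          obtain ⟨a, l', rfl⟩ := List.exists_cons_of_ne_nil (l := l) (by rintro rfl; simp at hl)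
          have h1 : (List.map (fun x => h * x) (a :: l')).headD 1 = h * a := rfl
          have h2 : (a :: l').headD 1 = a := rfl
          rw [h1, h2, hk2 h hh, map_smul, map_mul_map, mul_inv_rev, inv_mul_cancel_right, smul_smul, smul_smul,
            mul_assoc, ← map_mul, inv_mul_cancel_left, ac_mul]
        · rw [if_neg hl, if_neg (by rw [List.length_map]; exact hl), hsn, ← map_smul, hsn, ← hs1 h hh, ac_single]
      exact LinearMap.congr_fun e x
    refine ⟨s', hequiv, ?_, ?_, ?_⟩
    · intro k x hx
      by_cases hk : k = n + 1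
      · subst hk
        refine map_dg s' _ (fun l hl => ?_) hx
        rw [hs', if_pos hl, one_smul]
        refine Submodule.smul_mem _ _ (ac_dg c _ (hy _ ?_).1)
        rw [List.length_map]; exact hl
      · rw [hagree k hk x hx]
        exact hs2 k x hx
    · intro x hx
      rw [hagree 0 (by omega) x hx]
      exact hs3 x hx
    · intro k hk x hx
      by_cases hkn : k = n + 1
      · subst hkn
        have e := map_dg (LinearMap.id - dd.comp s' - s'.comp dd : XM Q R →ₗ[R] XM Q R) (Jt c A) (n := n + 1)
          (fun l hl => by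
            set k := kk (l.headD 1) with hkdef
            set m := l.map (k⁻¹ * ·) with hm
            have hml : m.length = n + 1 := by rw [hm, List.length_map]; exact hl
            obtain ⟨_, h2⟩ := hy m hml
            have h3 : (Finsupp.single l 1 : XM Q R) = c k • ac c k (Finsupp.single m 1) := by
              rw [ac_single, one_mul, Finsupp.smul_single, smul_eq_mul, ← map_mul, mul_inv_cancel, map_one, hm,
                map_mul_map, mul_inv_cancel, map_one_mul]
            have h4 : s' (Finsupp.single l 1) = c k • ac c k (y m) := by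
              rw [hs', if_pos hl, one_smul]
            have h5 : s' (dd (Finsupp.single l 1)) = c k • ac c k (s (dd (Finsupp.single m 1))) := by
              rw [hagree n (by omega) _ (dd_dg (single_mem_dg _ _ hl)), h3, map_smul, ← ac_dd, map_smul,
                hs1 k (hk1 _)]
            rw [LinearMap.sub_apply, LinearMap.sub_apply, LinearMap.comp_apply, LinearMap.comp_apply,
              LinearMap.id_apply, h4, h5]
            conv in Finsupp.single l (1 : R) => rw [h3]
            rw [map_smul, ← ac_dd, ← smul_sub, ← map_sub, ← smul_sub, ← map_sub]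
            exact Submodule.smul_mem _ _ (ac_Jt c (hn k (hk1 _)) h2)) hx
        exact e
      · rw [hagree k hkn x hx]
        have h1 : s' (dd x) = s (dd x) := by
          cases k with
          | zero => rw [dd_dg0 hx, map_zero, map_zero]
          | succ k => exact hagree k (by omega) _ (dd_dg hx)
        rw [h1]
        exact hs4 k (by omega) x hx

/-- **Vanishing of the homology of a normal subgroup gives vanishing for the group** -/
theorem PE_of_normal {A H : Subgroup Q} (hAH : A ≤ H) (hn : ∀ h ∈ H, ∀ a ∈ A, h * a * h⁻¹ ∈ A) (hA : PE c A) :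
    PE c H := by
  intro n x hx hdx
  obtain ⟨s, hs1, hs2, hs3, hs4⟩ := contraction c hn hA (n + 1)
  refine ⟨s x, hs2 _ x hx, ?_⟩
  have h1 := Jt_mono c hAH (hs4 (n + 1) le_rfl x hx)
  have h2 : s (dd x) ∈ Jt c H := by
    have e : Jt c H ≤ (Jt c H).comap s := by
      refine Jt_le c ?_ ?_
      · intro y hy
        rw [Submodule.mem_comap, hs3 y hy]
        exact Submodule.zero_mem _
      · intro h hh y
        rw [Submodule.mem_comap, map_sub, hs1 h hh]
        exact rel_mem c hh _
    exact e hdx
  have h3 : x - dd (s x) = (x - dd (s x) - s (dd x)) + s (dd x) := by abel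
  rw [h3]
  exact Submodule.add_mem _ h1 h2

end Pool.Agent.H77GP
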