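import Pool.Agent.H77GP.A2
import Pool.Agent.H77GP.A4

/-!
# Graph products of groups
-/

set_option autoImplicit false
set_option linter.unusedSectionVars false

noncomputable section

namespace Pool.Agent.H77GP

open Finset Pool.Agent.H77RA

/-- the commutators of the elements of adjacent vertex groups -/
def GPrel {V : Type} (Γ : SimpleGraph V) (G : V → Type) [∀ v, Group (G v)] : Set (Monoid.CoprodI G) :=
  {x | ∃ u v : V, Γ.Adj u v ∧ ∃ (a : G u) (b : G v), x = Monoid.CoprodI.of a * Monoid.CoprodI.of b *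
    (Monoid.CoprodI.of a)⁻¹ * (Monoid.CoprodI.of b)⁻¹}

/-- The graph product of the groups `G v`: the free product of the `G v` modulo the relations that elements of
the groups of adjacent vertices commute. -/
def GP {V : Type} (Γ : SimpleGraph V) (G : V → Type) [∀ v, Group (G v)] : Type :=
  Monoid.CoprodI G ⧸ Subgroup.normalClosure (GPrel Γ G)

instance {V : Type} (Γ : SimpleGraph V) (G : V → Type) [∀ v, Group (G v)] : Group (GP Γ G) :=
  inferInstanceAs (Group (Monoid.CoprodI G ⧸ Subgroup.normalClosure (GPrel Γ G)))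

section

variable {V : Type} (Γ : SimpleGraph V) (G : V → Type) [∀ v, Group (G v)]

/-- the inclusion of a vertex group -/
def gi (v : V) : G v →* GP Γ G :=
  (QuotientGroup.mk' (Subgroup.normalClosure (GPrel Γ G))).comp Monoid.CoprodI.of

theorem gi_comm {u v : V} (h : Γ.Adj u v) (a : G u) (b : G v) : Commute (gi Γ G u a) (gi Γ G v b) := by
  have h1 : (QuotientGroup.mk' (Subgroup.normalClosure (GPrel Γ G))) (Monoid.CoprodI.of a * Monoid.CoprodI.of b *
      (Monoid.CoprodI.of a)⁻¹ * (Monoid.CoprodI.of b)⁻¹) = 1 := by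
    rw [← MonoidHom.mem_ker, QuotientGroup.ker_mk']
    exact Subgroup.subset_normalClosure ⟨u, v, h, a, b, rfl⟩
  rw [map_mul, map_mul, map_mul, map_inv, map_inv] at h1
  have h2 : gi Γ G u a * gi Γ G v b * (gi Γ G u a)⁻¹ * (gi Γ G v b)⁻¹ = 1 := h1
  rw [mul_inv_eq_one, mul_inv_eq_iff_eq_mul] at h2
  exact h2

variable {Γ G}

/-- the universal property -/
def glift {K : Type} [Group K] (f : ∀ v, G v →* K) (hf : ∀ u v, Γ.Adj u v → ∀ a b, Commute (f u a) (f v b)) :
    GP Γ G →* K :=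
  QuotientGroup.lift (Subgroup.normalClosure (GPrel Γ G)) (Monoid.CoprodI.lift f) (by
    have h : Subgroup.normalClosure (GPrel Γ G) ≤ (Monoid.CoprodI.lift f).ker := by
      refine Subgroup.normalClosure_le_normal ?_
      rintro _ ⟨u, v, h, a, b, rfl⟩
      rw [SetLike.mem_coe, MonoidHom.mem_ker, map_mul, map_mul, map_mul, map_inv, map_inv,
        Monoid.CoprodI.lift_of, Monoid.CoprodI.lift_of, (hf u v h a b).eq]
      group
    exact fun x hx => h hx)

theorem glift_gi {K : Type} [Group K] (f : ∀ v, G v →* K) (hf : ∀ u v, Γ.Adj u v → ∀ a b, Commute (f u a) (f v b))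
    (v : V) (a : G v) : glift f hf (gi Γ G v a) = f v a := by
  change Monoid.CoprodI.lift f (Monoid.CoprodI.of a) = f v a
  exact Monoid.CoprodI.lift_of _ _

theorem GP_induction {p : GP Γ G → Prop} (h1 : p 1) (hm : ∀ x y, p x → p y → p (x * y))
    (hg : ∀ v a, p (gi Γ G v a)) (x : GP Γ G) : p x := by
  obtain ⟨x, rfl⟩ := QuotientGroup.mk_surjective x
  induction x using Monoid.CoprodI.induction_on with
  | one => exact h1
  | of i m => exact hg i m
  | mul x y hx hy => exact hm _ _ hx hy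

theorem GP_hom_ext {K : Type} [Group K] {f g : GP Γ G →* K} (h : ∀ v a, f (gi Γ G v a) = g (gi Γ G v a)) : f = g := by
  ext x
  induction x using GP_induction with
  | h1 => rw [map_one, map_one]
  | hm x y hx hy => rw [map_mul, map_mul, hx, hy]
  | hg v a => exact h v a

variable (Γ G)

/-- the standard subgroups -/
def Gs (S : Finset V) : Subgroup (GP Γ G) := Subgroup.closure {x | ∃ v ∈ S, ∃ a, x = gi Γ G v a}

theorem gi_mem {S : Finset V} {v : V} (hv : v ∈ S) (a : G v) : gi Γ G v a ∈ Gs Γ G S :=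
  Subgroup.subset_closure ⟨v, hv, a, rfl⟩

theorem Gs_le {S : Finset V} {K : Subgroup (GP Γ G)} (h : ∀ v ∈ S, ∀ a, gi Γ G v a ∈ K) : Gs Γ G S ≤ K := by
  refine (Subgroup.closure_le K).mpr ?_
  rintro _ ⟨v, hv, a, rfl⟩
  exact h v hv a

theorem Gs_mono (S T : Finset V) (h : S ⊆ T) : Gs Γ G S ≤ Gs Γ G T :=
  Gs_le Γ G fun _ hv a => gi_mem Γ G (h hv) a

theorem Gs_empty : Gs Γ G ∅ = ⊥ := by
  refine le_antisymm (Gs_le Γ G fun v hv => absurd hv (notMem_empty v)) bot_le

theorem Gs_univ [Fintype V] : Gs Γ G univ = ⊤ := by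
  refine top_le_iff.mp fun x _ => ?_
  induction x using GP_induction with
  | h1 => exact Subgroup.one_mem _
  | hm x y hx hy => exact Subgroup.mul_mem _ (hx trivial) (hy trivial)
  | hg v a => exact gi_mem Γ G (mem_univ v) a

open Classical in
/-- the retraction to a standard subgroup -/
def rho (S : Finset V) : GP Γ G →* GP Γ G :=
  glift (fun v => if v ∈ S then gi Γ G v else 1) (by
    intro u v h a b
    split_ifs
    · exact gi_comm Γ G h a b
    · exact Commute.one_right _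
    · exact Commute.one_left _
    · exact Commute.one_left _)

theorem rho_in {S : Finset V} {v : V} (hv : v ∈ S) (a : G v) : rho Γ G S (gi Γ G v a) = gi Γ G v a := by
  unfold rho
  rw [glift_gi, if_pos hv]

theorem rho_out {S : Finset V} {v : V} (hv : v ∉ S) (a : G v) : rho Γ G S (gi Γ G v a) = 1 := by
  unfold rho
  rw [glift_gi, if_neg hv]
  rfl

theorem rho_fix {S : Finset V} {x : GP Γ G} (hx : x ∈ Gs Γ G S) : rho Γ G S x = x := by
  have h : Gs Γ G S ≤ (rho Γ G S).eqLocus (MonoidHom.id _) :=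
    Gs_le Γ G fun v hv a => rho_in Γ G hv a
  exact h hx

theorem Gs_inf [DecidableEq V] (S T : Finset V) : Gs Γ G S ⊓ Gs Γ G T ≤ Gs Γ G (S ∩ T) := by
  rintro x ⟨hx1, hx2⟩
  rw [← rho_fix Γ G hx2]
  have h : Gs Γ G S ≤ (Gs Γ G (S ∩ T)).comap (rho Γ G T) := by
    refine Gs_le Γ G fun v hv a => ?_
    rw [Subgroup.mem_comap]
    by_cases h : v ∈ T
    · rw [rho_in Γ G h]
      exact gi_mem Γ G (mem_inter.mpr ⟨hv, h⟩) a
    · rw [rho_out Γ G h]
      exact Subgroup.one_mem _
  exact h hx1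

/-- the map to the direct product -/
def gpi [DecidableEq V] : GP Γ G →* ∀ v, G v :=
  glift (fun v => MonoidHom.mulSingle G v) (by
    intro u v h a b
    exact Pi.mulSingle_commute h.ne a b)

theorem gpi_gi [DecidableEq V] (v : V) (a : G v) : gpi Γ G (gi Γ G v a) = Pi.mulSingle v a := by
  unfold gpi
  rw [glift_gi]
  rfl

theorem gi_inj (v : V) : Function.Injective (gi Γ G v) := by
  classical
  intro a b h
  have h1 := congrFun (congrArg (gpi Γ G) h) v
  rw [gpi_gi, gpi_gi, Pi.mulSingle_eq_same, Pi.mulSingle_eq_same] at h1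
  exact h1

/-! ### the decomposition of the indicator function -/

/-- the translations -/
def TT (Q : Type) [Group Q] : Q →* Equiv.Perm (Q × ℤ) where
  toFun h := Equiv.prodCongr (Equiv.mulLeft h) (Equiv.refl ℤ)
  map_one' := by
    ext x <;> simp
  map_mul' a b := by
    ext x <;> simp [mul_assoc]

theorem TT_apply {Q : Type} [Group Q] (h x : Q) (n : ℤ) : TT Q h (x, n) = (h * x, n) := rfl

/-- the shear of a function -/
def shear {Q : Type} (χ : Q → ℤ) : Equiv.Perm (Q × ℤ) where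
  toFun x := (x.1, x.2 + χ x.1)
  invFun x := (x.1, x.2 - χ x.1)
  left_inv x := by simp
  right_inv x := by simp

theorem shear_apply {Q : Type} (χ : Q → ℤ) (x : Q) (n : ℤ) : shear χ (x, n) = (x, n + χ x) := rfl

theorem shear_inv {Q : Type} (χ : Q → ℤ) (x : Q) (n : ℤ) : (shear χ)⁻¹ (x, n) = (x, n - χ x) := rfl

theorem conj_apply {Q : Type} [Group Q] (χ : Q → ℤ) (h x : Q) (n : ℤ) :
    MulAut.conj (shear χ) (TT Q h) (x, n) = (h * x, n - χ x + χ (h * x)) := by
  rw [MulAut.conj_apply, Equiv.Perm.mul_apply, Equiv.Perm.mul_apply, shear_inv, TT_apply, shear_apply]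

theorem conj_of_inv {Q : Type} [Group Q] (χ : Q → ℤ) (h : Q) (hh : ∀ x, χ (h * x) = χ x) :
    MulAut.conj (shear χ) (TT Q h) = TT Q h := by
  ext1 ⟨x, n⟩
  rw [conj_apply, TT_apply, hh, sub_add_cancel]

theorem decomp [Fintype V] [DecidableEq V] (v : V) (L : Finset V) (hL : ∀ u, u ∈ L ↔ Γ.Adj u v) :
    ∃ F1 F2 : GP Γ G → ℤ, (∀ b ∈ Gs Γ G (insert v L), ∀ g, F1 (b * g) = F1 g) ∧
      (∀ a ∈ Gs Γ G (univ.erase v), ∀ g, F2 (a * g) = F2 g) ∧
      (∀ g ∈ Gs Γ G L, F1 g + F2 g = 1) ∧ (∀ g ∉ Gs Γ G L, F1 g + F2 g = 0) := by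
  classical
  set χ : GP Γ G → ℤ := fun g => if g ∈ Gs Γ G L then 1 else 0 with hχ
  have hχL : ∀ h ∈ Gs Γ G L, ∀ x, χ (h * x) = χ x := by
    intro h hh x
    simp only [hχ]
    rw [Subgroup.mul_mem_cancel_left _ hh]
  set A := MulAut.conj (shear χ) with hA
  let P : GP Γ G →* Equiv.Perm (GP Γ G × ℤ) :=
    glift (fun u => if u = v then (TT (GP Γ G)).comp (gi Γ G u) else A.toMonoidHom.comp ((TT (GP Γ G)).comp (gi Γ G u))) (by
      intro u w h a b
      have hT : Commute (TT (GP Γ G) (gi Γ G u a)) (TT (GP Γ G) (gi Γ G w b)) := (gi_comm Γ G h a b).map (TT (GP Γ G))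
      by_cases hu : u = v
      · subst hu
        have hw : w ≠ u := h.ne.symm
        rw [if_pos rfl, if_neg hw]
        change Commute (TT (GP Γ G) (gi Γ G u a)) (A (TT (GP Γ G) (gi Γ G w b)))
        rw [hA, conj_of_inv χ _ (hχL _ (gi_mem Γ G ((hL w).mpr h.symm) b))]
        exact hT
      · rw [if_neg hu]
        by_cases hw : w = v
        · subst hw
          rw [if_pos rfl]
          change Commute (A (TT (GP Γ G) (gi Γ G u a))) (TT (GP Γ G) (gi Γ G w b))
          rw [hA, conj_of_inv χ _ (hχL _ (gi_mem Γ G ((hL u).mpr h) a))]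
          exact hT
        · rw [if_neg hw]
          exact hT.map A.toMonoidHom)
  have hPv : ∀ a, P (gi Γ G v a) = TT (GP Γ G) (gi Γ G v a) := by
    intro a
    change glift _ _ _ = _
    rw [glift_gi, if_pos rfl]
    rfl
  have hPu : ∀ u, u ≠ v → ∀ a, P (gi Γ G u a) = A (TT (GP Γ G) (gi Γ G u a)) := by
    intro u hu a
    change glift _ _ _ = _
    rw [glift_gi, if_neg hu]
    rfl
  have hB : ∀ b ∈ Gs Γ G (insert v L), P b = TT (GP Γ G) b := by
    have h : Gs Γ G (insert v L) ≤ P.eqLocus (TT (GP Γ G)) := by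
      refine Gs_le Γ G fun u hu a => ?_
      change P (gi Γ G u a) = TT (GP Γ G) (gi Γ G u a)
      by_cases huv : u = v
      · subst huv
        exact hPv a
      · have huL : u ∈ L := by
          rcases mem_insert.mp hu with h | h
          · exact absurd h huv
          · exact h
        rw [hPu u huv, hA, conj_of_inv χ _ (hχL _ (gi_mem Γ G huL a))]
    exact fun b hb => h hb
  have hA' : ∀ a ∈ Gs Γ G (univ.erase v), P a = A (TT (GP Γ G) a) := by
    have h : Gs Γ G (univ.erase v) ≤ P.eqLocus (A.toMonoidHom.comp (TT (GP Γ G))) := by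
      refine Gs_le Γ G fun u hu a => ?_
      exact hPu u (mem_erase.mp hu).1 a
    exact fun b hb => h hb
  have hfst : ∀ (g : GP Γ G) (x : GP Γ G × ℤ), (P g x).1 = g * x.1 := by
    intro g
    induction g using GP_induction with
    | h1 => intro x; rw [map_one, one_mul]; rfl
    | hm a b ha hb => intro x; rw [map_mul, Equiv.Perm.mul_apply, ha, hb, mul_assoc]
    | hg u a =>
      rintro ⟨x, n⟩
      by_cases hu : u = v
      · subst hu
        rw [hPv, TT_apply]
      · rw [hPu u hu, hA, conj_apply]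
  refine ⟨fun g => (P g (1, 0)).2, fun g => χ g - (P g (1, 0)).2, ?_, ?_, ?_, ?_⟩
  · intro b hb g
    change (P (b * g) (1, 0)).2 = (P g (1, 0)).2
    rw [map_mul, Equiv.Perm.mul_apply, hB b hb]
    rfl
  · intro a ha g
    change χ (a * g) - (P (a * g) (1, 0)).2 = χ g - (P g (1, 0)).2
    have h1 : P g (1, 0) = (g, (P g (1, 0)).2) := Prod.ext (by rw [hfst]; simp) rfl
    rw [map_mul, Equiv.Perm.mul_apply, hA' a ha, h1, hA, conj_apply]
    change χ (a * g) - ((P g (1, 0)).2 - χ g + χ (a * g)) = χ g - (P g (1, 0)).2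
    ring
  · intro g hg
    change (P g (1, 0)).2 + (χ g - (P g (1, 0)).2) = 1
    rw [add_sub_cancel]
    simp only [hχ, if_pos hg]
  · intro g hg
    change (P g (1, 0)).2 + (χ g - (P g (1, 0)).2) = 0
    rw [add_sub_cancel]
    simp only [hχ, if_neg hg]

theorem Gs_Jt_inf [Fintype V] [DecidableEq V] {R : Type} [Ring R] (c : GP Γ G →* R) (S : Finset V) (v : V) (hv : v ∈ S)
    (L : Finset V) (hL : ∀ u, u ∈ L ↔ u ∈ S.erase v ∧ Γ.Adj u v) :
    Jt c (Gs Γ G (S.erase v)) ⊓ Jt c (Gs Γ G (insert v L)) ≤ Jt c (Gs Γ G L) := by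
  classical
  obtain ⟨F1, F2, h1, h2, h3, h4⟩ := decomp Γ G v (univ.filter fun u => Γ.Adj u v) (fun u => by simp)
  have hLsub : L ⊆ univ.filter fun u => Γ.Adj u v := fun u hu => mem_filter.mpr ⟨mem_univ _, ((hL u).mp hu).2⟩
  have hBS : insert v L ⊆ S :=
    insert_subset_iff.mpr ⟨hv, fun u hu => mem_of_mem_erase ((hL u).mp hu).1⟩
  have hLS : L ⊆ S := (subset_insert _ _).trans hBS
  refine Jt_inf_le c (fun g => if g ∈ Gs Γ G S then F1 g else 0) (fun g => if g ∈ Gs Γ G S then F2 g else 0) ?_ ?_ ?_ ?_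
  · intro b hb g
    rw [Subgroup.mul_mem_cancel_left _ (Gs_mono Γ G _ _ hBS hb),
      h1 b (Gs_mono Γ G _ _ (insert_subset_insert _ hLsub) hb)]
  · intro a ha g
    rw [Subgroup.mul_mem_cancel_left _ (Gs_mono Γ G _ _ (erase_subset _ _) ha),
      h2 a (Gs_mono Γ G _ _ (erase_subset_erase _ (subset_univ S)) ha)]
  · intro g hg
    rw [if_pos (Gs_mono Γ G _ _ hLS hg), if_pos (Gs_mono Γ G _ _ hLS hg)]
    exact h3 g (Gs_mono Γ G _ _ hLsub hg)
  · intro g hg
    by_cases hgS : g ∈ Gs Γ G S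
    · rw [if_pos hgS, if_pos hgS]
      refine h4 g fun hgL => hg ?_
      have := Gs_inf Γ G _ _ ⟨hgL, hgS⟩
      refine Gs_mono Γ G _ _ ?_ this
      intro u hu
      obtain ⟨h5, h6⟩ := mem_inter.mp hu
      have h7 := (mem_filter.mp h5).2
      exact (hL u).mpr ⟨mem_erase.mpr ⟨h7.ne, h6⟩, h7⟩
    · rw [if_neg hgS, if_neg hgS, add_zero]

theorem Gs_sup [Fintype V] [DecidableEq V] (S : Finset V) (v : V) (hv : v ∈ S) (L : Finset V)
    (_hL : ∀ u, u ∈ L ↔ u ∈ S.erase v ∧ Γ.Adj u v) : Gs Γ G S ≤ Gs Γ G (S.erase v) ⊔ Gs Γ G (insert v L) := by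
  refine Gs_le Γ G fun u hu a => ?_
  by_cases huv : u = v
  · subst huv
    exact Subgroup.mem_sup_right (gi_mem Γ G (mem_insert_self _ _) a)
  · exact Subgroup.mem_sup_left (gi_mem Γ G (mem_erase.mpr ⟨huv, hu⟩) a)

/-- the vanishing for cones -/
theorem Gs_PE {R : Type} [Ring R] (c : GP Γ G →* R) (N : ∀ v, Subgroup (G v)) (hN : ∀ v, (N v).Normal)
    (hPE : ∀ v, PE c ((N v).map (gi Γ G v))) (S : Finset V) (v : V) (hv : v ∈ S)
    (hS : ∀ u ∈ S, u ≠ v → Γ.Adj u v) : PE c (Gs Γ G S) := by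
  refine PE_of_normal c ?_ ?_ (hPE v)
  · rintro _ ⟨a, _, rfl⟩
    exact gi_mem Γ G hv a
  · have h : Gs Γ G S ≤ Subgroup.normalizer ((N v).map (gi Γ G v) : Set (GP Γ G)) := by
      refine Gs_le Γ G fun u hu a => ?_
      rw [Subgroup.mem_normalizer_iff]
      by_cases huv : u = v
      · subst huv
        have hfw : ∀ (a : G u) (x : GP Γ G), x ∈ (N u).map (gi Γ G u) →
            gi Γ G u a * x * (gi Γ G u a)⁻¹ ∈ (N u).map (gi Γ G u) := by
          rintro a _ ⟨n, hn, rfl⟩
          exact ⟨a * n * a⁻¹, (hN u).conj_mem n hn a, by rw [map_mul, map_mul, map_inv]⟩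
        intro x
        constructor
        · exact hfw a x
        · intro hx
          have := hfw a⁻¹ _ hx
          rw [map_inv] at this
          have e : (gi Γ G u a)⁻¹ * (gi Γ G u a * x * (gi Γ G u a)⁻¹) * (gi Γ G u a)⁻¹⁻¹ = x := by group
          rw [e] at this
          exact this
      · have hadj := hS u hu huv
        have hfw : ∀ (a : G u) (x : GP Γ G), x ∈ (N v).map (gi Γ G v) →
            gi Γ G u a * x * (gi Γ G u a)⁻¹ ∈ (N v).map (gi Γ G v) := by
          rintro a _ ⟨n, hn, rfl⟩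
          rw [(gi_comm Γ G hadj a n).eq, mul_inv_cancel_right]
          exact ⟨n, hn, rfl⟩
        intro x
        constructor
        · exact hfw a x
        · intro hx
          have := hfw a⁻¹ _ hx
          rw [map_inv] at this
          have e : (gi Γ G u a)⁻¹ * (gi Γ G u a * x * (gi Γ G u a)⁻¹) * (gi Γ G u a)⁻¹⁻¹ = x := by group
          rw [e] at this
          exact this
    intro g hg a ha
    have := Subgroup.mem_normalizer_iff.mp (h hg)
    exact (this a).mp ha

end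

/-- **Main algebraic result**: the homology of a graph product vanishes where the clique complex is exact. -/
theorem GP_vanish {V : Type} [Fintype V] [LinearOrder V] (Γ : SimpleGraph V) (G : V → Type) [∀ v, Group (G v)]
    {R : Type} [Ring R] (c : GP Γ G →* R) (N : ∀ v, Subgroup (G v)) (hN : ∀ v, (N v).Normal)
    (hPE : ∀ v, PE c ((N v).map (gi Γ G v))) (k : ℕ)
    (hk : ∀ a : Finset V → R, Sup Γ univ k a → bd a = 0 → ∃ b, Sup Γ univ (k + 1) b ∧ bd b = a)
    {x : XM (GP Γ G) R} (hx : x ∈ dg (GP Γ G) R (k + 1)) (hdx : dd x ∈ Jt c ⊤) :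
    ∃ y ∈ dg (GP Γ G) R (k + 2), x - dd y ∈ Jt c ⊤ := by
  have hP := Gs_PE Γ G c N hN hPE
  obtain ⟨φ, h0, hφ⟩ := exists_phi (G := Γ) c (Gs Γ G) (Gs_mono Γ G) (by
    intro T hT hne
    obtain ⟨v, hv⟩ := hne
    exact hP T v hv fun u hu huv => hT (mem_coe.mpr hu) (mem_coe.mpr hv) huv)
  have hE : Ex Γ c (Gs Γ G) φ univ :=
    all_Ex (Gs_mono Γ G) h0 hφ (Gs_empty Γ G) hP (Gs_sup Γ G) (Gs_Jt_inf Γ G c) univ
  rw [← Gs_univ Γ G] at hdx ⊢
  exact vanish (Gs_mono Γ G) h0 hφ hE k hk hx hdx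

end Pool.Agent.H77GP
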