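import Pool.Agent.H77GP.A3
import Pool.Agent.Helper970.V7.P_v7_zero

/-!
# The homogeneous bar resolution
-/

set_option autoImplicit false
set_option linter.unusedSectionVars false

noncomputable section

attribute [local instance] VN831.bcFunctor_additive VN831.viaAdd VN831.viaMod V7N.bcF_additive
  V7N.rmAdd V7N.rmMod

namespace Pool.Agent.H77GP

open CategoryTheory

open scoped TensorProduct

variable {K Q : Type} [Group K] [Group Q]

/-- the chains of degree `n` -/
def BN (_i : K →* Q) (n : ℕ) : Type := dg Q ℤ (n + 1)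

@[reducible] def bnAdd (i : K →* Q) (n : ℕ) : AddCommGroup (BN i n) :=
  inferInstanceAs (AddCommGroup (dg Q ℤ (n + 1)))

attribute [local instance] bnAdd

/-- the action -/
def bnRep (i : K →* Q) (n : ℕ) : K →* Module.End ℤ (dg Q ℤ (n + 1)) where
  toFun k := (ac (1 : Q →* ℤ) (i k)).restrict (fun _ hx => ac_dg _ _ hx)
  map_one' := by
    ext1 x
    apply Subtype.ext
    change ac (1 : Q →* ℤ) (i 1) x.1 = x.1
    rw [map_one, ac_one]
  map_mul' a b := by
    ext1 x
    apply Subtype.ext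
    change ac (1 : Q →* ℤ) (i (a * b)) x.1 = ac (1 : Q →* ℤ) (i a) (ac (1 : Q →* ℤ) (i b) x.1)
    rw [map_mul, ac_mul]

@[reducible] def bnMod (i : K →* Q) (n : ℕ) : Module (MonoidAlgebra ℤ K) (BN i n) :=
  Module.compHom (dg Q ℤ (n + 1)) (MonoidAlgebra.lift ℤ (Module.End ℤ (dg Q ℤ (n + 1))) K (bnRep i n)).toRingHom

attribute [local instance] bnMod

/-- the underlying chain -/
def bv {i : K →* Q} {n : ℕ} (x : BN i n) : XM Q ℤ := (show dg Q ℤ (n + 1) from x).1

def bk (i : K →* Q) {n : ℕ} (x : XM Q ℤ) (hx : x ∈ dg Q ℤ (n + 1)) : BN i n := (⟨x, hx⟩ : dg Q ℤ (n + 1))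

theorem bv_mem {i : K →* Q} {n : ℕ} (x : BN i n) : bv x ∈ dg Q ℤ (n + 1) := (show dg Q ℤ (n + 1) from x).2

theorem bv_ext {i : K →* Q} {n : ℕ} {x y : BN i n} (h : bv x = bv y) : x = y := Subtype.ext h

theorem bv_add {i : K →* Q} {n : ℕ} (x y : BN i n) : bv (x + y) = bv x + bv y := rfl

theorem bv_zero {i : K →* Q} {n : ℕ} : bv (0 : BN i n) = 0 := rfl

theorem bv_zsmul {i : K →* Q} {n : ℕ} (m : ℤ) (x : BN i n) : bv (m • x) = m • bv x := rfl

theorem bv_smul {i : K →* Q} {n : ℕ} (g : K) (m : ℤ) (x : BN i n) :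
    bv (MonoidAlgebra.single g m • x) = m • ac (1 : Q →* ℤ) (i g) (bv x) := by
  have h : (MonoidAlgebra.lift ℤ (Module.End ℤ (dg Q ℤ (n + 1))) K (bnRep i n)) (MonoidAlgebra.single g m) =
      m • bnRep i n g := MonoidAlgebra.lift_single _ _ _
  change (((MonoidAlgebra.lift ℤ (Module.End ℤ (dg Q ℤ (n + 1))) K (bnRep i n)) (MonoidAlgebra.single g m))
    (show dg Q ℤ (n + 1) from x) : dg Q ℤ (n + 1)).1 = _
  rw [h]
  rfl

/-- linearity over the group ring -/
def mkL {i : K →* Q} {n : ℕ} {M : Type} [AddCommGroup M] [Module (MonoidAlgebra ℤ K) M] (f : BN i n →+ M)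
    (h : ∀ (g : K) (m : ℤ) (x : BN i n), f (MonoidAlgebra.single g m • x) = MonoidAlgebra.single g m • f x) :
    BN i n →ₗ[MonoidAlgebra ℤ K] M where
  toFun := f
  map_add' := f.map_add
  map_smul' a x := by
    rw [RingHom.id_apply]
    induction a using MonoidAlgebra.induction_linear with
    | zero => rw [zero_smul, zero_smul, map_zero]
    | add a b ha hb => rw [add_smul, add_smul, map_add, ha, hb]
    | single g m => exact h g m x

/-- the boundary -/
def bD (i : K →* Q) (n : ℕ) : BN i (n + 1) →ₗ[MonoidAlgebra ℤ K] BN i n :=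
  mkL { toFun := fun x => bk i (dd (bv x)) (dd_dg (bv_mem x))
        map_zero' := bv_ext (by change dd (bv (0 : BN i (n + 1))) = 0; rw [bv_zero, map_zero])
        map_add' := fun x y => bv_ext (by
          change dd (bv (x + y)) = dd (bv x) + dd (bv y)
          rw [bv_add, map_add]) } (by
    intro g m x
    apply bv_ext
    rw [bv_smul]
    change dd (bv (MonoidAlgebra.single g m • x)) = m • ac (1 : Q →* ℤ) (i g) (dd (bv x))
    rw [bv_smul, map_smul, ac_dd])

theorem bv_bD (i : K →* Q) (n : ℕ) (x : BN i (n + 1)) : bv (bD i n x) = dd (bv x) := rfl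

theorem augG_single (g : K) (m : ℤ) : V7N.augG K (MonoidAlgebra.single g m) = m := by
  unfold V7N.augG
  change MonoidAlgebra.lift ℤ ℤ K (1 : K →* ℤ) (MonoidAlgebra.single g m) = m
  rw [MonoidAlgebra.lift_single]
  simp

/-- the augmentation -/
def bE (i : K →* Q) : BN i 0 →ₗ[MonoidAlgebra ℤ K] V7N.trivG K :=
  mkL { toFun := fun x => (show ℤ from (dd (bv x)) [])
        map_zero' := by change dd (bv (0 : BN i 0)) [] = (0 : ℤ); rw [bv_zero, map_zero]; rfl
        map_add' := fun x y => by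
          change dd (bv (x + y)) [] = dd (bv x) [] + dd (bv y) []
          rw [bv_add, map_add]; rfl } (by
    intro g m x
    change dd (bv (MonoidAlgebra.single g m • x)) [] = V7N.augG K (MonoidAlgebra.single g m) * (dd (bv x)) []
    rw [augG_single, bv_smul, map_smul, ← ac_dd]
    have h : ac (1 : Q →* ℤ) (i g) (dd (bv x)) = dd (bv x) := by
      have h1 : dd (bv x) ∈ dg Q ℤ 0 := dd_dg (bv_mem x)
      have e := map_dg (ac (1 : Q →* ℤ) (i g) - LinearMap.id) ⊥ (n := 0) (fun l hl => by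
        rw [Submodule.mem_bot, LinearMap.sub_apply, LinearMap.id_apply, List.length_eq_zero_iff.mp hl, ac_single]
        simp) h1
      rw [Submodule.mem_bot, LinearMap.sub_apply, LinearMap.id_apply, sub_eq_zero] at e
      exact e
    rw [h]
    rfl)

theorem bE_apply (i : K →* Q) (x : BN i 0) : bE i x = (show ℤ from (dd (bv x)) []) := rfl

theorem bE_zero {i : K →* Q} {x : BN i 0} (h : (dd (bv x)) [] = 0) : dd (bv x) = 0 := by
  have h1 : dd (bv x) ∈ dg Q ℤ 0 := dd_dg (bv_mem x)
  ext l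
  by_cases hl : l = []
  · rw [hl, h]; rfl
  · by_contra h2
    have h3 : l ∈ (dd (bv x)).support := Finsupp.mem_support_iff.mpr h2
    exact hl (List.length_eq_zero_iff.mp (h1 h3))

theorem bD_exact (i : K →* Q) (n : ℕ) {x : BN i n} (h : dd (bv x) = 0) : ∃ y, bD i n y = x := by
  refine ⟨bk i (cn 1 (bv x)) (cn_dg 1 (bv_mem x)), bv_ext ?_⟩
  rw [bv_bD]
  change dd (cn 1 (bv x)) = bv x
  rw [dd_cn, h, map_zero, sub_zero]

theorem bN_proj (i : K →* Q) (hi : Function.Injective i) (n : ℕ) :
    Module.Projective (MonoidAlgebra ℤ K) (BN i n) := by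
  classical
  obtain ⟨rep, kk, h1, h2, h3⟩ := V7N.exists_rep i hi
  -- normal forms of lists
  let nf : List Q → BN i n := fun l => if h : l.length = n + 1 then
    bk i (Finsupp.single (l.map ((i (kk (l.headD 1)))⁻¹ * ·)) 1) (single_mem_dg _ _ (by rw [List.length_map]; exact h))
    else 0
  let F : List Q → (BN i n →₀ MonoidAlgebra ℤ K) := fun l =>
    Finsupp.single (nf l) (MonoidAlgebra.single (kk (l.headD 1)) (1 : ℤ))
  let s0 : XM Q ℤ →ₗ[ℤ] (BN i n →₀ MonoidAlgebra ℤ K) := Finsupp.linearCombination ℤ F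
  have hs0 : ∀ (l : List Q) (m : ℤ), s0 (Finsupp.single l m) = m • F l := fun l m =>
    Finsupp.linearCombination_single _ _ _
  have hnf : ∀ (k : K) (l : List Q), l.length = n + 1 → nf (l.map (i k * ·)) = nf l := by
    intro k l hl
    obtain ⟨a, l', rfl⟩ := List.exists_cons_of_ne_nil (l := l) (by rintro rfl; simp at hl)
    have hl2 : (List.map (fun x => i k * x) (a :: l')).length = n + 1 := by rw [List.length_map]; exact hl
    simp only [nf, dif_pos hl, dif_pos hl2]
    apply bv_ext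
    change Finsupp.single _ _ = Finsupp.single _ _
    have e1 : (List.map (fun x => i k * x) (a :: l')).headD 1 = i k * a := rfl
    have e2 : (a :: l').headD 1 = a := rfl
    rw [e1, e2, h3, map_mul_map, map_mul, mul_inv_rev, inv_mul_cancel_right]
  have hF : ∀ (k : K) (l : List Q), l.length = n + 1 →
      F (l.map (i k * ·)) = (MonoidAlgebra.single k (1 : ℤ)) • F l := by
    intro k l hl
    change Finsupp.single _ _ = _ • Finsupp.single _ _
    rw [Finsupp.smul_single, smul_eq_mul, MonoidAlgebra.single_mul_single, mul_one, hnf k l hl]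
    obtain ⟨a, l', rfl⟩ := List.exists_cons_of_ne_nil (l := l) (by rintro rfl; simp at hl)
    have e1 : (List.map (fun x => i k * x) (a :: l')).headD 1 = i k * a := rfl
    have e2 : (a :: l').headD 1 = a := rfl
    rw [e1, e2, h3]
  have hF2 : ∀ (k : K) (m : ℤ) (x : XM Q ℤ), x ∈ dg Q ℤ (n + 1) →
      s0 (m • ac (1 : Q →* ℤ) (i k) x) = (MonoidAlgebra.single k m) • s0 x := by
    intro k m x hx
    have e : (MonoidAlgebra.single k m : MonoidAlgebra ℤ K) = m • MonoidAlgebra.single k (1 : ℤ) := by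
      rw [MonoidAlgebra.smul_single, smul_eq_mul, mul_one]
    rw [e, map_smul, smul_assoc]
    congr 1
    let f1 : XM Q ℤ →ₗ[ℤ] (BN i n →₀ MonoidAlgebra ℤ K) := s0.comp (ac (1 : Q →* ℤ) (i k))
    let f2 : XM Q ℤ →ₗ[ℤ] (BN i n →₀ MonoidAlgebra ℤ K) :=
      { toFun := fun x => (MonoidAlgebra.single k (1 : ℤ)) • s0 x
        map_add' := fun x y => by rw [map_add, smul_add]
        map_smul' := fun r x => by rw [map_smul, RingHom.id_apply, smul_comm] }
    have e3 := map_dg (f1 - f2) ⊥ (n := n + 1) (fun l hl => by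
      rw [Submodule.mem_bot, LinearMap.sub_apply, sub_eq_zero]
      change s0 (ac (1 : Q →* ℤ) (i k) (Finsupp.single l 1)) = (MonoidAlgebra.single k (1 : ℤ)) • s0 (Finsupp.single l 1)
      rw [ac_single, hs0, hs0, hF k l hl]
      simp) hx
    rw [Submodule.mem_bot, LinearMap.sub_apply, sub_eq_zero] at e3
    exact e3
  let s : BN i n →ₗ[MonoidAlgebra ℤ K] (BN i n →₀ MonoidAlgebra ℤ K) :=
    mkL { toFun := fun x => s0 (bv x)
          map_zero' := by rw [bv_zero, map_zero]
          map_add' := fun x y => by rw [bv_add, map_add] } (by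
      intro g m x
      change s0 (bv _) = _ • s0 (bv x)
      rw [bv_smul]
      exact hF2 g m _ (bv_mem x))
  refine ⟨⟨s, ?_⟩⟩
  let lc : (BN i n →₀ MonoidAlgebra ℤ K) →ₗ[MonoidAlgebra ℤ K] BN i n :=
    Finsupp.linearCombination (MonoidAlgebra ℤ K) id
  let g1 : XM Q ℤ →ₗ[ℤ] XM Q ℤ :=
    { toFun := fun x => bv (lc (s0 x))
      map_add' := fun x y => by rw [map_add, map_add, bv_add]
      map_smul' := fun r x => by
        rw [map_smul, map_zsmul, bv_zsmul]
        rfl }
  intro x
  apply bv_ext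
  change g1 (bv x) = bv x
  have e3 := map_dg (g1 - LinearMap.id) ⊥ (n := n + 1) (fun l hl => by
    rw [Submodule.mem_bot, LinearMap.sub_apply, sub_eq_zero, LinearMap.id_apply]
    change bv (lc (s0 (Finsupp.single l 1))) = Finsupp.single l 1
    rw [hs0, one_smul]
    change bv (Finsupp.linearCombination (MonoidAlgebra ℤ K) id (Finsupp.single _ _)) = _
    rw [Finsupp.linearCombination_single, bv_smul, one_smul]
    have e4 : bv (id (nf l)) = Finsupp.single (l.map ((i (kk (l.headD 1)))⁻¹ * ·)) 1 := by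
      simp only [id, nf, dif_pos hl]
      rfl
    rw [e4, ac_single, map_mul_map, mul_inv_cancel, map_one_mul]
    simp) (bv_mem x)
  rw [Submodule.mem_bot, LinearMap.sub_apply, sub_eq_zero, LinearMap.id_apply] at e3
  exact e3

theorem bsq (i : K →* Q) (n : ℕ) : ModuleCat.ofHom (bD i (n + 1)) ≫ ModuleCat.ofHom (bD i n) = 0 := by
  rw [← ModuleCat.ofHom_comp]
  have : (bD i n).comp (bD i (n + 1)) = 0 := by
    apply LinearMap.ext
    intro x
    apply bv_ext
    rw [LinearMap.comp_apply, bv_bD, bv_bD, dd_dd]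
    rfl
  rw [this]
  rfl

/-- the complex -/
def barC (i : K →* Q) : ChainComplex (ModuleCat.{0} (MonoidAlgebra ℤ K)) ℕ :=
  ChainComplex.of (fun n => ModuleCat.of (MonoidAlgebra ℤ K) (BN i n)) (fun n => ModuleCat.ofHom (bD i n)) (bsq i)

theorem barC_d (i : K →* Q) (n : ℕ) : (barC i).d (n + 1) n = ModuleCat.ofHom (bD i n) :=
  ChainComplex.of_d (fun n => ModuleCat.of (MonoidAlgebra ℤ K) (BN i n)) (fun n => ModuleCat.ofHom (bD i n)) n

def bEH (i : K →* Q) : ModuleCat.of (MonoidAlgebra ℤ K) (BN i 0) ⟶ V7N.trivG K :=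
  ModuleCat.ofHom (X := BN i 0) (Y := V7N.trivG K) (bE i)

theorem bar_res (i : K →* Q) (hi : Function.Injective i) :
    ∃ P : ProjectiveResolution (V7N.trivG K), P.complex = barC i := by
  refine V7N.gen_res (fun n => ModuleCat.of (MonoidAlgebra ℤ K) (BN i n)) (fun n => ModuleCat.ofHom (bD i n)) (bsq i)
    (V7N.trivG K) (bEH i) ?_ ?_ ?_ ?_ ?_
  · intro n
    have := bN_proj i hi n
    exact (IsProjective.iff_projective _).mp this
  · ext1
    apply LinearMap.ext
    intro x
    change bE i (bD i 0 x) = 0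
    rw [bE_apply, bv_bD, dd_dd]
    rfl
  · intro m
    refine ⟨bk i (Finsupp.single [1] (show ℤ from m)) (single_mem_dg _ _ rfl), ?_⟩
    change (dd (Finsupp.single [1] (show ℤ from m) : XM Q ℤ)) [] = (show ℤ from m)
    rw [dd_single]
    have h1 : dl ℤ [(1 : Q)] = Finsupp.single [] 1 := by
      rw [dl_cons]
      have : dl ℤ ([] : List Q) = 0 := rfl
      rw [this, map_zero, sub_zero]
    rw [h1, Finsupp.smul_single, Finsupp.single_eq_same, smul_eq_mul, mul_one]
  · intro v hv
    exact bD_exact i 0 (bE_zero hv)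
  · intro n v hv
    refine bD_exact i (n + 1) ?_
    have := congrArg bv (show bD i n v = 0 from hv)
    rw [bv_bD] at this
    exact this

end Pool.Agent.H77GP
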