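import Pool.Agent.H77GP.A6

/-!
# Homology with coefficients in terms of the complexes of lists
-/

set_option autoImplicit false
set_option linter.unusedSectionVars false

noncomputable section

attribute [local instance] VN831.bcFunctor_additive VN831.viaAdd VN831.viaMod V7N.bcF_additive
  V7N.rmAdd V7N.rmMod Pool.Agent.H77GP.bnAdd Pool.Agent.H77GP.bnMod

namespace Pool.Agent.H77GP

open CategoryTheory

open scoped TensorProduct

variable {K Q : Type} [Group K] [Group Q]

/-- change of coefficients -/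
def cst (Q R : Type) [Ring R] : XM Q ℤ →+ XM Q R := Finsupp.mapRange.addMonoidHom (Int.castAddHom R)

theorem cst_single {R : Type} [Ring R] (l : List Q) (m : ℤ) :
    cst Q R (Finsupp.single l m) = Finsupp.single l (m : R) := by
  unfold cst
  rw [Finsupp.mapRange.addMonoidHom_apply, Finsupp.mapRange_single]
  rfl

theorem cst_cn {R : Type} [Ring R] (a : Q) (x : XM Q ℤ) : cst Q R (cn a x) = cn a (cst Q R x) := by
  induction x using Finsupp.induction_linear with
  | zero => rw [map_zero, map_zero, map_zero]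
  | add x y hx hy => rw [map_add, map_add, map_add, map_add, hx, hy]
  | single l m => rw [cn_single, cst_single, cst_single, cn_single]

theorem cst_dl {R : Type} [Ring R] (l : List Q) : cst Q R (dl ℤ l) = dl R l := by
  induction l with
  | nil => exact map_zero _
  | cons a l ih => rw [dl_cons, dl_cons, map_sub, cst_single, cst_cn, ih, Int.cast_one]

theorem cst_dg {R : Type} [Ring R] {n : ℕ} {x : XM Q ℤ} (hx : x ∈ dg Q ℤ n) : cst Q R x ∈ dg Q R n := by
  intro l hl
  refine hx ?_
  rw [Finset.mem_coe, Finsupp.mem_support_iff] at hl ⊢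
  intro h
  apply hl
  change ((x l : ℤ) : R) = 0
  rw [h, Int.cast_zero]

variable (i : K →* Q) {R : Type} [Ring R] (c : Q →* R)

/-- relation between the two actions -/
theorem cst_rel {H : Subgroup Q} {g : Q} (hg : g ∈ H) (x : XM Q ℤ) :
    c g • cst Q R x - cst Q R (ac (1 : Q →* ℤ) g x) ∈ Jt c H := by
  induction x using Finsupp.induction_linear with
  | zero => rw [map_zero, map_zero, map_zero, smul_zero, sub_zero]; exact Submodule.zero_mem _
  | add x y hx hy =>
    have : c g • cst Q R (x + y) - cst Q R (ac (1 : Q →* ℤ) g (x + y)) =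
        (c g • cst Q R x - cst Q R (ac (1 : Q →* ℤ) g x)) + (c g • cst Q R y - cst Q R (ac (1 : Q →* ℤ) g y)) := by
      rw [map_add, map_add, map_add, smul_add]; abel
    rw [this]
    exact Submodule.add_mem _ hx hy
  | single l m =>
    have h1 := rel_mem c hg (Finsupp.single l (c g * (m : R)))
    have h2 : ac c g (Finsupp.single l (c g * (m : R))) = cst Q R (ac (1 : Q →* ℤ) g (Finsupp.single l m)) := by
      rw [ac_single, ac_single, cst_single]
      congr 1
      rw [MonoidHom.one_apply, mul_one, mul_assoc, (Int.cast_commute m (c g⁻¹)).eq, ← mul_assoc,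
        ← map_mul, mul_inv_cancel, map_one, one_mul]
    rw [h2] at h1
    rw [cst_single, Finsupp.smul_single, smul_eq_mul]
    exact h1

/-- from chains to the tensor product -/
def Psi (n : ℕ) : XM Q R →ₗ[R] V7N.BCG (c.comp i) (BN i n) :=
  Finsupp.linearCombination R fun l => if h : l.length = n + 1 then
    Submodule.Quotient.mk ((1 : R) ⊗ₜ[ℤ] (bk i (Finsupp.single l 1) (single_mem_dg _ _ h))) else 0

theorem Psi_single (n : ℕ) (l : List Q) (r : R) (h : l.length = n + 1) : Psi i c n (Finsupp.single l r) =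
    r • (Submodule.Quotient.mk ((1 : R) ⊗ₜ[ℤ] (bk i (Finsupp.single l 1) (single_mem_dg _ _ h))) :
      V7N.BCG (c.comp i) (BN i n)) := by
  unfold Psi
  rw [Finsupp.linearCombination_single, dif_pos h]

theorem Psi_single_ne (n : ℕ) (l : List Q) (r : R) (h : ¬ l.length = n + 1) : Psi i c n (Finsupp.single l r) = 0 := by
  unfold Psi
  rw [Finsupp.linearCombination_single, dif_neg h, smul_zero]

theorem mk_smul_tmul {P : Type} [AddCommGroup P] [Module (MonoidAlgebra ℤ K) P] (cK : K →* R) (r : R) (p : P) :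
    (Submodule.Quotient.mk (r ⊗ₜ[ℤ] p) : V7N.BCG cK P) = r • Submodule.Quotient.mk ((1 : R) ⊗ₜ[ℤ] p) := by
  rw [← Submodule.Quotient.mk_smul, TensorProduct.smul_tmul', smul_eq_mul, mul_one]

theorem Psi_cst (n : ℕ) (r : R) (x : XM Q ℤ) : ∀ (hx : x ∈ dg Q ℤ (n + 1)), Psi i c n (r • cst Q R x) =
    (Submodule.Quotient.mk (r ⊗ₜ[ℤ] (bk i x hx)) : V7N.BCG (c.comp i) (BN i n)) := by
  classical
  induction x using Finsupp.induction with
  | zero =>
    intro hx
    have h1 : bk i 0 hx = 0 := rfl
    rw [map_zero, smul_zero, map_zero, h1, TensorProduct.tmul_zero]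
    rfl
  | single_add l m x hl hm ih =>
    intro hx
    have hlen : l.length = n + 1 := by
      refine hx (Finset.mem_coe.mpr (Finsupp.mem_support_iff.mpr ?_))
      rw [Finsupp.add_apply, Finsupp.single_eq_same, Finsupp.notMem_support_iff.mp hl, add_zero]
      exact hm
    have hs : (Finsupp.single l m : XM Q ℤ) ∈ dg Q ℤ (n + 1) := single_mem_dg _ _ hlen
    have hxx : x ∈ dg Q ℤ (n + 1) := by
      have := Submodule.sub_mem _ hx hs
      rw [add_sub_cancel_left] at this
      exact this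
    have h1 : bk i (Finsupp.single l m + x) hx = m • bk i (Finsupp.single l 1) (single_mem_dg _ _ hlen) + bk i x hxx := by
      apply bv_ext
      rw [bv_add, bv_zsmul]
      change Finsupp.single l m + x = m • Finsupp.single l 1 + x
      rw [Finsupp.smul_single, smul_eq_mul, mul_one]
    rw [h1, map_add, smul_add, map_add, ih hxx, TensorProduct.tmul_add, Submodule.Quotient.mk_add]
    congr 1
    have h3 : (Submodule.Quotient.mk (m • (r ⊗ₜ[ℤ] (bk i (Finsupp.single l 1) (single_mem_dg _ _ hlen) : BN i n))) :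
        V7N.BCG (c.comp i) (BN i n)) =
        m • Submodule.Quotient.mk (r ⊗ₜ[ℤ] (bk i (Finsupp.single l 1) (single_mem_dg _ _ hlen) : BN i n)) :=
      map_zsmul (Submodule.mkQ (V7N.bcR (c.comp i) (BN i n))) m _
    rw [cst_single, Finsupp.smul_single, smul_eq_mul, Psi_single i c n l _ hlen, mul_smul, TensorProduct.tmul_smul,
      h3, mk_smul_tmul _ r]
    have h2 : (m : R) • (Submodule.Quotient.mk ((1 : R) ⊗ₜ[ℤ] (bk i (Finsupp.single l 1) (single_mem_dg _ _ hlen))) :
        V7N.BCG (c.comp i) (BN i n)) =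
        m • (Submodule.Quotient.mk ((1 : R) ⊗ₜ[ℤ] (bk i (Finsupp.single l 1) (single_mem_dg _ _ hlen))) :
        V7N.BCG (c.comp i) (BN i n)) := Int.cast_smul_eq_zsmul R m _
    rw [h2, smul_comm]

theorem Psi_surj (n : ℕ) (z : V7N.BCG (c.comp i) (BN i n)) : ∃ x ∈ dg Q R (n + 1), Psi i c n x = z := by
  obtain ⟨z, rfl⟩ := Submodule.Quotient.mk_surjective _ z
  induction z using TensorProduct.induction_on with
  | zero => exact ⟨0, Submodule.zero_mem _, by rw [map_zero]; rfl⟩
  | tmul r b => exact ⟨r • cst Q R (bv b), Submodule.smul_mem _ _ (cst_dg (bv_mem b)), Psi_cst i c n r _ (bv_mem b)⟩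
  | add z w hz hw =>
    obtain ⟨x, hx, hxz⟩ := hz
    obtain ⟨y, hy, hyw⟩ := hw
    exact ⟨x + y, Submodule.add_mem _ hx hy, by rw [map_add, hxz, hyw]; rfl⟩

theorem Psi_dd (n : ℕ) {x : XM Q R} (hx : x ∈ dg Q R (n + 2)) :
    Psi i c n (dd x) = V7N.bcM (c.comp i) (bD i n) (Psi i c (n + 1) x) := by
  have e := map_dg ((Psi i c n).comp dd - (V7N.bcM (c.comp i) (bD i n)).comp (Psi i c (n + 1))) ⊥ (n := n + 2)
    (fun l hl => by
      rw [Submodule.mem_bot, LinearMap.sub_apply, sub_eq_zero, LinearMap.comp_apply, LinearMap.comp_apply,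
        Psi_single i c (n + 1) l 1 hl, one_smul, V7N.bcM_mk, dd_single]
      have h1 : dl ℤ l ∈ dg Q ℤ (n + 1) := dl_dg l (n + 1) hl
      have h2 := Psi_cst i c n 1 (dl ℤ l) h1
      rw [one_smul, cst_dl] at h2
      rw [one_smul, h2]
      congr 2
      apply bv_ext
      rw [bv_bD]
      change dl ℤ l = dd (Finsupp.single l (1 : ℤ))
      rw [dd_single, one_smul]) hx
  rw [Submodule.mem_bot, LinearMap.sub_apply, sub_eq_zero] at e
  exact e

theorem Psi_Jt (n : ℕ) {x : XM Q R} (hx : x ∈ Jt c i.range) : Psi i c n x = 0 := by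
  have h : Jt c i.range ≤ (Psi i c n).ker := by
    refine Jt_le' c ?_ ?_
    · intro y hy
      have e := map_dg (Psi i c n) ⊥ (n := 0) (fun l hl => by
        rw [Submodule.mem_bot]
        exact Psi_single_ne i c n l 1 (by omega)) hy
      rw [LinearMap.mem_ker]
      exact (Submodule.mem_bot R).mp e
    · rintro _ ⟨k, rfl⟩ l _
      rw [LinearMap.mem_ker, map_sub]
      by_cases hl : l.length = n + 1
      · have hl2 : (l.map (i k * ·)).length = n + 1 := by rw [List.length_map]; exact hl
        rw [Psi_single i c n l 1 hl, Psi_single i c n _ _ hl2, one_smul, ← mk_smul_tmul, ← Submodule.Quotient.mk_sub,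
          Submodule.Quotient.mk_eq_zero]
        refine Submodule.subset_span ⟨(c.comp i) k⁻¹, k, bk i (Finsupp.single l 1) (single_mem_dg _ _ hl), ?_⟩
        have e1 : (c.comp i) k⁻¹ = c (i k)⁻¹ := congrArg c (map_inv i k)
        have e2 : bk i (Finsupp.single (l.map (i k * ·)) 1) (single_mem_dg _ _ hl2) =
            MonoidAlgebra.single k (1 : ℤ) • bk i (Finsupp.single l 1) (single_mem_dg _ _ hl) := by
          apply bv_ext
          rw [bv_smul, one_smul]
          change _ = ac (1 : Q →* ℤ) (i k) (Finsupp.single l 1)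
          rw [ac_single, MonoidHom.one_apply, mul_one]
          rfl
        rw [← map_mul, inv_mul_cancel, map_one, e1, e2]
      · rw [Psi_single_ne i c n l 1 hl, Psi_single_ne i c n _ _ (by rw [List.length_map]; exact hl), sub_zero]
  exact h hx

/-- the additive map of the basis -/
def ThA (n : ℕ) : BN i n →+ (XM Q R ⧸ Jt c i.range) where
  toFun x := Submodule.Quotient.mk (cst Q R (bv x))
  map_zero' := by rw [bv_zero, map_zero]; rfl
  map_add' x y := by rw [bv_add, map_add]; rfl

/-- from the tensor product to chains -/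
def Tht (n : ℕ) : V7N.BCG (c.comp i) (BN i n) →ₗ[R] (XM Q R ⧸ Jt c i.range) :=
  Submodule.liftQ (V7N.bcR (c.comp i) (BN i n))
    (TensorProduct.AlgebraTensorModule.lift
      (LinearMap.toSpanSingleton R (BN i n →ₗ[ℤ] (XM Q R ⧸ Jt c i.range)) (ThA i c n).toIntLinearMap)) (by
    rw [V7N.bcR, Submodule.span_le]
    rintro z ⟨x, g, p, rfl⟩
    rw [SetLike.mem_coe, LinearMap.mem_ker, map_sub, sub_eq_zero]
    change (x * (c.comp i) g) • (Submodule.Quotient.mk (cst Q R (bv p)) : XM Q R ⧸ Jt c i.range) =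
      x • (Submodule.Quotient.mk (cst Q R (bv (MonoidAlgebra.single g (1 : ℤ) • p))) : XM Q R ⧸ Jt c i.range)
    rw [mul_smul]
    congr 1
    rw [← Submodule.Quotient.mk_smul, Submodule.Quotient.eq, bv_smul, one_smul]
    exact cst_rel c (H := i.range) (g := i g) ⟨g, rfl⟩ (bv p))

theorem Tht_Psi (n : ℕ) {x : XM Q R} (hx : x ∈ dg Q R (n + 1)) :
    Tht i c n (Psi i c n x) = Submodule.Quotient.mk x := by
  have e := map_dg ((Tht i c n).comp (Psi i c n) - (Jt c i.range).mkQ) ⊥ (n := n + 1)
    (fun l hl => by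
      rw [Submodule.mem_bot, LinearMap.sub_apply, sub_eq_zero, LinearMap.comp_apply, Psi_single i c n l 1 hl, one_smul]
      change (1 : R) • (Submodule.Quotient.mk (cst Q R (Finsupp.single l 1)) : XM Q R ⧸ Jt c i.range) =
        Submodule.Quotient.mk (Finsupp.single l 1)
      rw [one_smul, cst_single, Int.cast_one]) hx
  rw [Submodule.mem_bot, LinearMap.sub_apply, sub_eq_zero] at e
  exact e

/-- chains which die in the tensor product are relations -/
theorem mem_Jt_of_Psi (n : ℕ) {x : XM Q R} (hx : x ∈ dg Q R (n + 1)) (h : Psi i c n x = 0) : x ∈ Jt c i.range := by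
  have h1 := Tht_Psi i c n hx
  rw [h, map_zero] at h1
  exact (Submodule.Quotient.mk_eq_zero _).mp h1.symm

/-! ### homology -/

theorem bar_d (n : ℕ) : (((V7N.bcF (c.comp i)).mapHomologicalComplex (ComplexShape.down ℕ)).obj (barC i)).d (n + 1) n =
    ModuleCat.ofHom (V7N.bcM (c.comp i) (bD i n)) := by
  change (V7N.bcF (c.comp i)).map ((barC i).d (n + 1) n) = _
  rw [barC_d]
  rfl

theorem homR_succ (hi : Function.Injective i) (n : ℕ) :
    Nonempty ((((V7N.bcF (c.comp i)).leftDerived (n + 1)).obj (V7N.trivG K)) ≃ₗ[R]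
      (LinearMap.ker (V7N.bcM (c.comp i) (bD i n)) ⧸
        (LinearMap.range (V7N.bcM (c.comp i) (bD i (n + 1)))).submoduleOf
          (LinearMap.ker (V7N.bcM (c.comp i) (bD i n))))) := by
  obtain ⟨P, hP⟩ := bar_res i hi
  have h1 : Nonempty (((V7N.bcF (c.comp i)).leftDerived (n + 1)).obj (V7N.trivG K) ≅
      (((V7N.bcF (c.comp i)).mapHomologicalComplex (ComplexShape.down ℕ)).obj P.complex).homology (n + 1)) :=
    ⟨P.isoLeftDerivedObj (V7N.bcF (c.comp i)) (n + 1)⟩
  rw [hP] at h1
  obtain ⟨i1⟩ := h1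
  obtain ⟨l2⟩ := V7N.homology_succ
    (((V7N.bcF (c.comp i)).mapHomologicalComplex (ComplexShape.down ℕ)).obj (barC i)) n
  rw [bar_d, bar_d] at l2
  exact ⟨i1.toLinearEquiv.trans l2⟩

theorem homR_zero (hi : Function.Injective i) :
    Nonempty ((((V7N.bcF (c.comp i)).leftDerived 0).obj (V7N.trivG K)) ≃ₗ[R]
      (V7N.BCG (c.comp i) (BN i 0) ⧸ LinearMap.range (V7N.bcM (c.comp i) (bD i 0)))) := by
  obtain ⟨P, hP⟩ := bar_res i hi
  have h1 : Nonempty (((V7N.bcF (c.comp i)).leftDerived 0).obj (V7N.trivG K) ≅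
      (((V7N.bcF (c.comp i)).mapHomologicalComplex (ComplexShape.down ℕ)).obj P.complex).homology 0) :=
    ⟨P.isoLeftDerivedObj (V7N.bcF (c.comp i)) 0⟩
  rw [hP] at h1
  obtain ⟨i1⟩ := h1
  obtain ⟨l2⟩ := V7N.homology_zero
    (((V7N.bcF (c.comp i)).mapHomologicalComplex (ComplexShape.down ℕ)).obj (barC i))
  have hd : (((V7N.bcF (c.comp i)).mapHomologicalComplex (ComplexShape.down ℕ)).obj (barC i)).d 1 0 =
    ModuleCat.ofHom (V7N.bcM (c.comp i) (bD i 0)) := bar_d i c 0
  rw [hd] at l2
  exact ⟨i1.toLinearEquiv.trans l2⟩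

/-- vanishing homology gives the vanishing condition for chains -/
theorem PE_of_homR (hi : Function.Injective i)
    (h : ∀ n, Subsingleton (((V7N.bcF (c.comp i)).leftDerived n).obj (V7N.trivG K))) : PE c i.range := by
  intro n x hx hdx
  have key : ∃ z, V7N.bcM (c.comp i) (bD i n) z = Psi i c n x := by
    cases n with
    | zero =>
      obtain ⟨e⟩ := homR_zero i c hi
      have := h 0
      have hs : Subsingleton (V7N.BCG (c.comp i) (BN i 0) ⧸ LinearMap.range (V7N.bcM (c.comp i) (bD i 0))) :=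
        e.symm.toEquiv.subsingleton
      have h1 : (Submodule.Quotient.mk (Psi i c 0 x) : V7N.BCG (c.comp i) (BN i 0) ⧸
          LinearMap.range (V7N.bcM (c.comp i) (bD i 0))) = 0 := Subsingleton.elim _ _
      exact (Submodule.Quotient.mk_eq_zero _).mp h1
    | succ n =>
      obtain ⟨e⟩ := homR_succ i c hi n
      have := h (n + 1)
      have hs := e.symm.toEquiv.subsingleton
      have h0 : Psi i c (n + 1) x ∈ LinearMap.ker (V7N.bcM (c.comp i) (bD i n)) := by
        rw [LinearMap.mem_ker, ← Psi_dd i c n hx]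
        exact Psi_Jt i c n hdx
      have h1 : (Submodule.Quotient.mk ⟨Psi i c (n + 1) x, h0⟩ :
          (LinearMap.ker (V7N.bcM (c.comp i) (bD i n)) ⧸
        (LinearMap.range (V7N.bcM (c.comp i) (bD i (n + 1)))).submoduleOf
          (LinearMap.ker (V7N.bcM (c.comp i) (bD i n))))) = 0 := Subsingleton.elim _ _
      exact (Submodule.Quotient.mk_eq_zero _).mp h1
  obtain ⟨z, hz⟩ := key
  obtain ⟨y, hy, rfl⟩ := Psi_surj i c (n + 1) z
  refine ⟨y, hy, ?_⟩
  refine mem_Jt_of_Psi i c n (Submodule.sub_mem _ hx (dd_dg hy)) ?_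
  rw [map_sub, Psi_dd i c n hy, hz, sub_self]

end Pool.Agent.H77GP
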