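import Pool.Agent.H77GP.A7
import Pool.Agent.N496.CV.L2Pf

/-!
# `L²`-Betti numbers from exactness over the localization
-/

set_option autoImplicit false
set_option linter.unusedSectionVars false

noncomputable section

attribute [local instance] VN831.bcFunctor_additive VN831.viaAdd VN831.viaMod V7N.bcF_additive
  V7N.rmAdd V7N.rmMod Pool.Agent.H77GP.bnAdd Pool.Agent.H77GP.bnMod

open scoped ENNReal

namespace Pool.Agent.H77GP

open CategoryTheory Pool.Agent.Helper655.VN Pool.Agent.RK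

/-- a module all of whose elements are annihilated by non zero divisors has dimension zero -/
theorem luck_zero {G : Type} [Group G] {M : Type} [AddCommGroup M] [Module (NG G) M]
    (h : ∀ m : M, ∃ s : NG G, Nz s ∧ s • m = 0) : VN831.luckDim G M = 0 := by
  refine le_antisymm ?_ zero_le
  have h9 := VN831.luckDim_le (G := G) (M := M) 0 (fun k e he f hf => ?_)
  · simpa using h9
  have h0 : e = 0 := by
    ext1 a b
    have hrow : (e a) ∈ VN831.rowMod e := by
      show Matrix.vecMul (e a) e = e a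
      funext c
      exact congrFun (congrFun he a) c
    obtain ⟨s, hs, hs0⟩ := h (f ⟨e a, hrow⟩)
    have h1 : s • (⟨e a, hrow⟩ : VN831.rowMod e) = 0 :=
      hf (((f.map_smul s _).trans hs0).trans f.map_zero.symm)
    have h2 : s * e a b = 0 := congrFun (congrArg Subtype.val h1) b
    exact (Pool.Agent.RK.Nz.nz_iff vn_NG s).1 hs _ h2
  rw [h0]
  unfold Tr
  simp

section coeff

variable {Q R U : Type} [Group Q] [Ring R] [Ring U] (ι : R →+* U)

/-- change of coefficients -/
def cm : XM Q R →+ XM Q U := Finsupp.mapRange.addMonoidHom (ι : R →+ U)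

theorem cm_single (l : List Q) (r : R) : cm ι (Finsupp.single l r) = Finsupp.single l (ι r) := by
  unfold cm
  rw [Finsupp.mapRange.addMonoidHom_apply, Finsupp.mapRange_single]
  rfl

theorem cm_apply (x : XM Q R) (l : List Q) : cm ι x l = ι (x l) := rfl

theorem cm_smul (r : R) (x : XM Q R) : cm ι (r • x) = ι r • cm ι x := by
  ext l
  rw [cm_apply, Finsupp.smul_apply, Finsupp.smul_apply, cm_apply, smul_eq_mul, smul_eq_mul, map_mul]

theorem cm_cn (a : Q) (x : XM Q R) : cm ι (cn a x) = cn a (cm ι x) := by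
  induction x using Finsupp.induction_linear with
  | zero => rw [map_zero, map_zero, map_zero]
  | add x y hx hy => rw [map_add, map_add, map_add, map_add, hx, hy]
  | single l m => rw [cn_single, cm_single, cm_single, cn_single]

theorem cm_dl (l : List Q) : cm ι (dl R l) = dl U l := by
  induction l with
  | nil => exact map_zero _
  | cons a l ih => rw [dl_cons, dl_cons, map_sub, cm_single, cm_cn, ih, map_one]

theorem cm_dd (x : XM Q R) : cm ι (dd x) = dd (cm ι x) := by
  induction x using Finsupp.induction_linear with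
  | zero => rw [map_zero, map_zero, map_zero]
  | add x y hx hy => rw [map_add, map_add, map_add, map_add, hx, hy]
  | single l m => rw [dd_single, cm_smul, cm_dl, cm_single, dd_single]

theorem cm_dg {n : ℕ} {x : XM Q R} (hx : x ∈ dg Q R n) : cm ι x ∈ dg Q U n := by
  intro l hl
  refine hx ?_
  rw [Finset.mem_coe, Finsupp.mem_support_iff] at hl ⊢
  intro h
  apply hl
  rw [cm_apply, h, map_zero]

variable (c : Q →* R)

theorem cm_ac (g : Q) (x : XM Q R) : cm ι (ac c g x) = ac ((ι : R →* U).comp c) g (cm ι x) := by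
  induction x using Finsupp.induction_linear with
  | zero => rw [map_zero, map_zero, map_zero]
  | add x y hx hy => rw [map_add, map_add, map_add, map_add, hx, hy]
  | single l m =>
    rw [ac_single, cm_single, cm_single, ac_single, map_mul]
    rfl

theorem cm_Jt {H : Subgroup Q} {x : XM Q R} (hx : x ∈ Jt c H) : cm ι x ∈ Jt ((ι : R →* U).comp c) H := by
  unfold Jt at hx
  obtain ⟨y, hy, z, hz, rfl⟩ := Submodule.mem_sup.mp hx
  rw [map_add]
  refine Submodule.add_mem _ ?_ (dg0_le _ _ (cm_dg ι hz))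
  refine Submodule.span_induction ?_ ?_ ?_ ?_ hy
  · rintro _ ⟨g, hg, x, rfl⟩
    rw [map_sub, cm_ac]
    exact rel_mem _ hg _
  · rw [map_zero]; exact Submodule.zero_mem _
  · intro x y _ _ hx hy
    rw [map_add]; exact Submodule.add_mem _ hx hy
  · intro r x _ hx
    rw [cm_smul]; exact Submodule.smul_mem _ _ hx

theorem cm_Th (F : Q → ℤ) (l : List Q) (x : XM Q R) :
    Th ((ι : R →* U).comp c) F l (cm ι x) = ι (Th c F l x) := by
  classical
  induction x using Finsupp.induction_linear with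
  | zero => rw [map_zero, map_zero, map_zero, map_zero]
  | add x y hx hy => rw [map_add, map_add, map_add, map_add, hx, hy]
  | single m r =>
    rw [cm_single, Th_single, Th_single, map_mul]
    congr 1
    split_ifs
    · rw [map_mul, map_intCast]
      rfl
    · rw [map_zero]

theorem Jt_of_cm (hι : Function.Injective ι) {H : Subgroup Q} {x : XM Q R}
    (hx : cm ι x ∈ Jt ((ι : R →* U).comp c) H) : x ∈ Jt c H := by
  classical
  refine mem_Jt c (F := fun g => if g ∈ H then 1 else 0) (fun g hg => if_pos hg) (fun g hg => if_neg hg) ?_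
  intro l hl
  apply hι
  rw [← cm_Th, map_zero]
  refine Th_Jt _ ?_ hl hx
  intro h hh g
  simp only [Subgroup.mul_mem_cancel_left H hh]

end coeff

section main

variable {Q : Type} [Group Q] {U : Type} [Ring U] (ι : NG Q →+* U)

/-- common denominators of chains -/
theorem cm_denom (hι : Loc ι) {n : ℕ} {y : XM Q U} (hy : y ∈ dg Q U n) :
    ∃ (s : NG Q) (y' : XM Q (NG Q)), Nz s ∧ y' ∈ dg Q (NG Q) n ∧ cm ι y' = ι s • y := by
  classical
  obtain ⟨s, hs, hS⟩ := Pool.Agent.RK.Common.fam_left (vn_NG (G := Q)) hι (fun l => y l) y.support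
  have h1 : ∀ l : List Q, ∃ x : NG Q, l ∈ y.support → ι s * y l = ι x := by
    intro l
    by_cases hl : l ∈ y.support
    · obtain ⟨x, hx⟩ := hS l hl
      exact ⟨x, fun _ => hx⟩
    · exact ⟨0, fun h => absurd h hl⟩
  choose f hf using h1
  refine ⟨s, ∑ l ∈ y.support, Finsupp.single l (f l), hs, ?_, ?_⟩
  · exact Submodule.sum_mem _ fun l hl => single_mem_dg _ _ (hy hl)
  · rw [map_sum]
    have h2 : ∀ l ∈ y.support, cm ι (Finsupp.single l (f l)) = ι s • Finsupp.single l (y l) := by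
      intro l hl
      rw [cm_single, ← hf l hl, Finsupp.smul_single, smul_eq_mul]
    rw [Finset.sum_congr rfl h2, ← Finset.smul_sum]
    congr 1
    exact y.sum_single

/-- torsion -/
theorem chain_tors (hι : Loc ι) (n : ℕ)
    (h : ∀ x ∈ dg Q U (n + 1), dd x ∈ Jt ((ι : NG Q →* U).comp canL) ⊤ →
      ∃ y ∈ dg Q U (n + 2), x - dd y ∈ Jt ((ι : NG Q →* U).comp canL) ⊤)
    {x : XM Q (NG Q)} (hx : x ∈ dg Q (NG Q) (n + 1)) (hdx : dd x ∈ Jt (canL : Q →* NG Q) ⊤) :
    ∃ (s : NG Q) (y : XM Q (NG Q)), Nz s ∧ y ∈ dg Q (NG Q) (n + 2) ∧ s • x - dd y ∈ Jt (canL : Q →* NG Q) ⊤ := by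
  obtain ⟨y, hy, hxy⟩ := h (cm ι x) (cm_dg ι hx) (by rw [← cm_dd]; exact cm_Jt ι canL hdx)
  obtain ⟨s, y', hs, hy', hyy⟩ := cm_denom ι hι hy
  refine ⟨s, y', hs, hy', Jt_of_cm ι canL hι.inj ?_⟩
  rw [map_sub, cm_smul, cm_dd, hyy, map_smul, ← smul_sub]
  exact Submodule.smul_mem _ _ hxy

theorem quot_tors {R M2 M1 M0 : Type} [Ring R] [AddCommGroup M2] [Module R M2] [AddCommGroup M1] [Module R M1]
    [AddCommGroup M0] [Module R M0] (g : M2 →ₗ[R] M1) (h : M1 →ₗ[R] M0)
    (hP : ∀ x, h x = 0 → ∃ s : R, Nz s ∧ ∃ y, g y = s • x)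
    (m : (LinearMap.ker h ⧸ (LinearMap.range g).submoduleOf (LinearMap.ker h))) : ∃ s : R, Nz s ∧ s • m = 0 := by
  obtain ⟨x, rfl⟩ := Submodule.Quotient.mk_surjective _ m
  obtain ⟨s, hs, y, hy⟩ := hP x.1 x.2
  refine ⟨s, hs, ?_⟩
  rw [← Submodule.Quotient.mk_smul, Submodule.Quotient.mk_eq_zero]
  exact ⟨y, hy⟩

theorem l2_zero (hι : Loc ι) (k : ℕ)
    (h : ∀ x ∈ dg Q U (k + 1), dd x ∈ Jt ((ι : NG Q →* U).comp canL) ⊤ →
      ∃ y ∈ dg Q U (k + 2), x - dd y ∈ Jt ((ι : NG Q →* U).comp canL) ⊤) :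
    VN831.l2Betti Q k = 0 := by
  have hr : (MonoidHom.id Q).range = ⊤ := MonoidHom.range_eq_top.mpr Function.surjective_id
  have key : ∀ n, VN831.luckDim Q ((((V7N.bcF ((canL : Q →* NG Q).comp (MonoidHom.id Q))).leftDerived n).obj
      (V7N.trivG Q))) = VN831.l2Betti Q n := fun n => rfl
  rw [← key]
  cases k with
  | zero =>
    obtain ⟨e⟩ := homR_zero (MonoidHom.id Q) (canL : Q →* NG Q) Function.injective_id
    rw [VN831.luckDim_congr e]
    refine luck_zero fun m => ?_
    obtain ⟨z, rfl⟩ := Submodule.Quotient.mk_surjective _ m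
    obtain ⟨x, hx, rfl⟩ := Psi_surj (MonoidHom.id Q) (canL : Q →* NG Q) 0 z
    obtain ⟨s, y, hs, hy, hxy⟩ := chain_tors ι hι 0 h hx (dg0_le _ _ (dd_dg hx))
    refine ⟨s, hs, ?_⟩
    rw [← Submodule.Quotient.mk_smul, Submodule.Quotient.mk_eq_zero]
    refine ⟨Psi (MonoidHom.id Q) (canL : Q →* NG Q) 1 y, ?_⟩
    rw [← hr] at hxy
    have h1 := Psi_Jt (MonoidHom.id Q) (canL : Q →* NG Q) 0 hxy
    rw [map_sub, sub_eq_zero, map_smul, Psi_dd _ _ 0 hy] at h1
    exact h1.symm
  | succ k =>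
    obtain ⟨e⟩ := homR_succ (MonoidHom.id Q) (canL : Q →* NG Q) Function.injective_id k
    rw [VN831.luckDim_congr e]
    refine luck_zero fun m => quot_tors _ _ (fun z hz => ?_) m
    obtain ⟨x, hx, rfl⟩ := Psi_surj (MonoidHom.id Q) (canL : Q →* NG Q) (k + 1) z
    have hdx : dd x ∈ Jt (canL : Q →* NG Q) ⊤ := by
      rw [← hr]
      refine mem_Jt_of_Psi (MonoidHom.id Q) (canL : Q →* NG Q) k (dd_dg hx) ?_
      rw [Psi_dd _ _ k hx]
      exact hz
    obtain ⟨s, y, hs, hy, hxy⟩ := chain_tors ι hι (k + 1) h hx hdx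
    refine ⟨s, hs, Psi (MonoidHom.id Q) (canL : Q →* NG Q) (k + 2) y, ?_⟩
    rw [← hr] at hxy
    have h1 := Psi_Jt (MonoidHom.id Q) (canL : Q →* NG Q) (k + 1) hxy
    rw [map_sub, sub_eq_zero, map_smul, Psi_dd _ _ (k + 1) hy] at h1
    exact h1.symm

end main

end Pool.Agent.H77GP
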