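import Pool.Agent.H77GP.A5
import Pool.Agent.H77AR.F1
import Pool.Agent.H77RA.E3

/-!
# Exactness of the clique complex from the action on a contractible manifold
-/

set_option autoImplicit false
set_option linter.unusedSectionVars false

open scoped Matrix

namespace Pool.Agent.H77GP

open Finset Pool.Agent.W326.DU Pool.Agent.W555.KS Pool.Agent.Y131.KS Pool.Agent.R782.Bal Pool.Agent.H77RA
open Pool.Agent.H77AR
open scoped Manifold ContDiff

section linalg

theorem exact_rat {a b c : ℕ} (A : Matrix (Fin b) (Fin a) ℚ) (B : Matrix (Fin c) (Fin b) ℚ)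
    (hBA : ∀ w, Matrix.vecMul (Matrix.vecMul w B) A = 0) (K : Matrix (Fin a) (Fin b) ℚ)
    (K' : Matrix (Fin b) (Fin c) ℚ) (hdet : (A * K + K' * B).det ≠ 0) (v : Fin b → ℚ) (hv : Matrix.vecMul v A = 0) :
    ∃ w, v = Matrix.vecMul w B := by
  set T := Matrix.vecMulLinear (A * K + K' * B) with hT
  set ker := LinearMap.ker (Matrix.vecMulLinear A) with hker
  set rg := LinearMap.range (Matrix.vecMulLinear B) with hrg
  have hinj : Function.Injective T := by
    rw [← LinearMap.ker_eq_bot, LinearMap.ker_eq_bot']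
    intro x hx
    have h1 : Matrix.vecMul x (A * K + K' * B) = 0 := hx
    exact Matrix.eq_zero_of_vecMul_eq_zero hdet h1
  have h1 : rg ≤ ker := by
    rintro _ ⟨w, rfl⟩
    exact hBA w
  have h2 : ker.map T ≤ rg := by
    rintro _ ⟨x, hx, rfl⟩
    have hx' : Matrix.vecMul x A = 0 := hx
    refine ⟨Matrix.vecMul x K', ?_⟩
    change Matrix.vecMul (Matrix.vecMul x K') B = Matrix.vecMul x (A * K + K' * B)
    rw [Matrix.vecMul_add, ← Matrix.vecMul_vecMul, hx', Matrix.zero_vecMul, zero_add, Matrix.vecMul_vecMul]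
  have h3 : Module.finrank ℚ ker = Module.finrank ℚ (ker.map T) :=
    (LinearEquiv.finrank_eq (Submodule.equivMapOfInjective T hinj ker))
  have h4 : rg = ker := Submodule.eq_of_le_of_finrank_le h1 (by
    rw [h3]
    exact Submodule.finrank_mono h2)
  have h5 : v ∈ rg := by rw [h4]; exact hv
  obtain ⟨w, hw⟩ := h5
  exact ⟨w, hw.symm⟩

end linalg

section clique

variable {V : Type} [Fintype V] [LinearOrder V] (G : SimpleGraph V)

theorem bM_bM {F : Type} [Ring F] (j : ℕ) (w : Fin (Fintype.card (XC G (j + 2))) → F) :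
    Matrix.vecMul (Matrix.vecMul w (bM G F (j + 1))) (bM G F j) = 0 := by
  unfold bM
  rw [vecMul_dMat, vecMul_dMat, toC_frC G (j + 1) (bdR_sup G (toC_sup G (j + 2) w)),
    bdR_bdR (G := G) (fun _ _ _ _ => by simp) (fun T hT => (toC_sup G (j + 2) w T hT).2.1), frC_zero]

theorem mulRight_one {F : Type} [Ring F] : (fun _ : V => AddMonoidHom.mulRight (1 : F)) = fun _ => AddMonoidHom.id F := by
  funext v
  ext x
  simp

/-- exactness of the clique complex over a ring containing the rational numbers -/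
theorem clique_exact (j : ℕ)
    (hpair : ∀ z φ : Finset V → ZMod 2, (∀ T, z T ≠ 0 → Cl G T ∧ T.card = j + 1) →
      (∀ S : Finset V, ∑ v ∈ Sᶜ, z (insert v S) = 0) →
      (∀ R : Finset V, Cl G R → R.card = j + 2 → ∑ v ∈ R, φ (R.erase v) = 0) →
      ∑ P ∈ powersetCard (j + 1) univ, φ P * z P = 0)
    {U : Type} [Ring U] (κ : ℚ →+* U) (a : Finset V → U) (ha : Sup G univ (j + 1) a) (hb : bd a = 0) :
    ∃ b, Sup G univ (j + 2) b ∧ bd b = a := by
  classical
  have h2 := exact_of_pairing G j hpair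
  obtain ⟨H, H', hH⟩ := split_of_exact (bM G (ZMod 2) j) (bM G (ZMod 2) (j + 1)) h2
  rw [← bM_map G (Int.castRingHom (ZMod 2)), ← bM_map G (Int.castRingHom (ZMod 2))] at hH
  obtain ⟨K, K', hK⟩ := det_lift _ _ _ _ hH
  -- over the rational numbers
  have hKQ : (bM G ℚ j * K.map (Int.castRingHom ℚ) + K'.map (Int.castRingHom ℚ) * bM G ℚ (j + 1)).det ≠ 0 := by
    have h3 : bM G ℚ j * K.map (Int.castRingHom ℚ) + K'.map (Int.castRingHom ℚ) * bM G ℚ (j + 1) =
        (bM G ℤ j * K + K' * bM G ℤ (j + 1)).map (Int.castRingHom ℚ) := by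
      rw [Matrix.map_add _ (map_add _), Matrix.map_mul, Matrix.map_mul, bM_map, bM_map]
    rw [h3]
    have h4 := RingHom.map_det (Int.castRingHom ℚ) (bM G ℤ j * K + K' * bM G ℤ (j + 1))
    intro h5
    apply hK
    have h6 : (Int.castRingHom ℚ) (bM G ℤ j * K + K' * bM G ℤ (j + 1)).det = 0 := h4.trans h5
    rw [eq_intCast] at h6
    exact_mod_cast h6
  obtain ⟨L, L', hL⟩ := split_of_exact (bM G ℚ j) (bM G ℚ (j + 1)) (exact_rat _ _ (bM_bM G j) _ _ hKQ)
  -- over `U`
  have hU : bM G U j * L.map κ + L'.map κ * bM G U (j + 1) = 1 := by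
    have h3 : (bM G ℚ j * L + L' * bM G ℚ (j + 1)).map κ =
        (1 : Matrix (Fin (Fintype.card (XC G (j + 1)))) (Fin (Fintype.card (XC G (j + 1)))) ℚ).map κ :=
      congrArg (fun M : Matrix (Fin (Fintype.card (XC G (j + 1)))) (Fin (Fintype.card (XC G (j + 1)))) ℚ =>
        M.map κ) hL
    rw [Matrix.map_add _ (map_add _), Matrix.map_mul, Matrix.map_mul, bM_map, bM_map,
      Matrix.map_one _ (map_zero κ) (map_one κ)] at h3
    exact h3
  set v := frC G (j + 1) a with hv
  have hva : toC G (j + 1) v = a := toC_frC G (j + 1) ha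
  have hv0 : Matrix.vecMul v (bM G U j) = 0 := by
    unfold bM
    rw [vecMul_dMat, hva, mulRight_one]
    have : bdR (fun _ => AddMonoidHom.id U) a = 0 := hb
    rw [this, frC_zero]
  have hv1 : v = Matrix.vecMul (Matrix.vecMul v (L'.map κ)) (bM G U (j + 1)) := by
    conv_lhs => rw [← Matrix.vecMul_one v, ← hU]
    rw [Matrix.vecMul_add, ← Matrix.vecMul_vecMul, hv0, Matrix.zero_vecMul, zero_add, Matrix.vecMul_vecMul]
  refine ⟨toC G (j + 2) (Matrix.vecMul v (L'.map κ)), toC_sup G (j + 2) _, ?_⟩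
  have h5 : toC G (j + 1) v = toC G (j + 1) (Matrix.vecMul (Matrix.vecMul v (L'.map κ)) (bM G U (j + 1))) :=
    congrArg _ hv1
  rw [hva] at h5
  rw [h5]
  unfold bM
  rw [vecMul_dMat, mulRight_one, toC_frC G (j + 1) (bdR_sup G (toC_sup G (j + 2) _))]
  rfl

end clique

section sep

variable {V : Type} [Fintype V] [DecidableEq V] (Γ : SimpleGraph V) (G : V → Type) [∀ v, Group (G v)]

/-- the homomorphism from the right-angled Artin group -/
noncomputable def rhoA (z : ∀ v, G v) : RAAG Γ.Adj →* GP Γ G :=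
  PresentedGroup.toGroup (f := fun v => gi Γ G v (z v)) (by
    rintro r ⟨a, b, h, rfl⟩
    simp only [map_mul, map_inv, FreeGroup.lift_apply_of]
    rw [(gi_comm Γ G h (z a) (z b)).eq]
    group)

theorem rhoA_gen (z : ∀ v, G v) (v : V) : rhoA Γ G z (Pool.Agent.W326.DU.gen Γ.Adj v) = gi Γ G v (z v) := by
  unfold rhoA Pool.Agent.W326.DU.gen
  exact PresentedGroup.toGroup.of _

theorem rhoA_gL (z : ∀ v, G v) (v : V) (a : V → ℤ) : gpi Γ G (rhoA Γ G z (gL Γ a)) v = z v ^ a v := by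
  unfold gL
  rw [map_list_prod, map_list_prod, List.map_map, List.map_map]
  have h0 : ∀ l : List (∀ v, G v), (l.prod) v = (l.map (fun x => x v)).prod := by
    intro l
    exact map_list_prod (Pi.evalMonoidHom G v) l
  rw [h0, List.map_map]
  have h1 : ∀ l : List V, l.Nodup → (l.map ((fun x : ∀ v, G v => x v) ∘ (⇑(gpi Γ G) ∘ ⇑(rhoA Γ G z)) ∘ fun v => Pool.Agent.W326.DU.gen Γ.Adj v ^ a v)).prod =
      if v ∈ l then z v ^ a v else 1 := by
    intro l
    induction l with
    | nil => intro _; simp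
    | cons u l ih =>
      intro hl
      rw [List.nodup_cons] at hl
      rw [List.map_cons, List.prod_cons, ih hl.2]
      have h2 : ((fun x : ∀ v, G v => x v) ∘ (⇑(gpi Γ G) ∘ ⇑(rhoA Γ G z)) ∘ fun v => Pool.Agent.W326.DU.gen Γ.Adj v ^ a v) u =
          (Pi.mulSingle u (z u) : ∀ v, G v) v ^ a u := by
        simp only [Function.comp_apply, map_zpow, rhoA_gen, gpi_gi, Pi.pow_apply]
      rw [h2]
      by_cases huv : v = u
      · subst huv
        rw [Pi.mulSingle_eq_same, if_neg hl.1, mul_one, if_pos (List.mem_cons_self)]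
      · rw [Pi.mulSingle_eq_of_ne huv, one_zpow, one_mul]
        by_cases hvl : v ∈ l
        · rw [if_pos hvl, if_pos (List.mem_cons_of_mem _ hvl)]
        · rw [if_neg hvl, if_neg]
          intro h
          rcases List.mem_cons.mp h with h | h
          · exact huv h
          · exact hvl h
  rw [h1 _ (nodup_toList _), if_pos (mem_toList.mpr (mem_univ v))]

theorem sepH_GP (z : ∀ v, G v) (hz : ∀ v, ¬ IsOfFinOrder (z v)) : SepH Γ (rhoA Γ G z) := by
  classical
  intro T hT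
  have hinj : ∀ v, Function.Injective (fun n : ℤ => z v ^ n) := fun v =>
    injective_zpow_iff_not_isOfFinOrder.mpr (hz v)
  have hfin : ∀ v, Set.Finite {n : ℤ | ∃ t ∈ T, gpi Γ G t v = z v ^ n} := by
    intro v
    have h1 : Set.Finite ((fun t => gpi Γ G t v) '' T) := hT.image _
    refine (h1.preimage (f := fun n : ℤ => z v ^ n) ((hinj v).injOn)).subset ?_
    rintro n ⟨t, ht, h⟩
    exact ⟨t, ht, h⟩
  have hbd : ∀ v, ∃ C : ℕ, ∀ n ∈ {n : ℤ | ∃ t ∈ T, gpi Γ G t v = z v ^ n}, |n| ≤ C := by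
    intro v
    refine ⟨(hfin v).toFinset.sup Int.natAbs, ?_⟩
    intro n hn
    have h2 : n.natAbs ≤ (hfin v).toFinset.sup Int.natAbs :=
      Finset.le_sup (f := Int.natAbs) ((hfin v).mem_toFinset.mpr hn)
    rw [Int.abs_eq_natAbs]
    exact_mod_cast h2
  choose C hC using hbd
  refine ⟨univ.sup C, ?_⟩
  intro a a' _ _ hmem v
  have h3 := hC v (a' v - a v) ⟨_, hmem, by
    rw [map_mul, map_inv, map_mul, map_inv, Pi.mul_apply, Pi.inv_apply, rhoA_gL, rhoA_gL, ← zpow_neg, ← zpow_add]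
    congr 1
    ring⟩
  have h4 : C v ≤ univ.sup C := Finset.le_sup (f := C) (mem_univ v)
  exact h3.trans (by exact_mod_cast h4)

end sep

/-- the pairing vanishes above the middle dimension -/
theorem pairing_GP {V : Type} [Fintype V] [LinearOrder V] (Γ : SimpleGraph V) (G : V → Type) [∀ v, Group (G v)]
    (z : ∀ v, G v) (hz : ∀ v, ¬ IsOfFinOrder (z v))
    {E : Type} [NormedAddCommGroup E] [NormedSpace ℝ E]
    [FiniteDimensional ℝ E] {HH : Type} [TopologicalSpace HH] (I : ModelWithCorners ℝ E HH) {W : Type}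
    [TopologicalSpace W] [T2Space W] [ChartedSpace HH W] [ContractibleSpace W]
    [MulAction (GP Γ G) W] [ContinuousConstSMul (GP Γ G) W] [ProperlyDiscontinuousSMul (GP Γ G) W]
    {j : ℕ} (hk : Module.finrank ℝ E < 2 * (j + 1)) :
    ∀ z φ : Finset V → ZMod 2, (∀ T, z T ≠ 0 → Cl Γ T ∧ T.card = j + 1) →
      (∀ S : Finset V, ∑ v ∈ Sᶜ, z (insert v S) = 0) →
      (∀ R : Finset V, Cl Γ R → R.card = j + 2 → ∑ v ∈ R, φ (R.erase v) = 0) →
      ∑ P ∈ powersetCard (j + 1) univ, φ P * z P = 0 := by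
  obtain ⟨e⟩ : Nonempty (V × Bool ≃ Fin (Fintype.card (V × Bool))) := ⟨Fintype.equivFin _⟩
  obtain ⟨f1, hc, hne⟩ := exists_f1g (W := W) Γ (rhoA Γ G z) (sepH_GP Γ G z hz) e
  have hcx := clF_cx (OG Γ) e
  rw [dJoin_eq hcx] at hne
  have h0 : VK2 (clF (OG Γ) e) (Module.finrank ℝ E + 1) :=
    vk2_of_locDir2 hcx f1 hc hne (fun C hC => locDir2_manifold I hC)
  have h1 : VK2 (clF (OG Γ) e) (2 * j + 2) := vk2_le hcx (by omega) h0
  exact fun z φ hz1 hz2 hφ => pairing_zero e j h1 hz1 hz2 hφ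

end Pool.Agent.H77GP
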