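import Pool.Agent.H77GP.Main

/-!
# Aspherical manifolds whose fundamental group is a graph product: all degrees above the middle

`GP Γ G` is the graph product of the groups `G v`, `v` a vertex of the graph `Γ`: the free product of the `G v` modulo
the relations that elements of the groups of adjacent vertices commute (free products and direct products of finitely
many groups, right-angled Artin groups). `FreeRes K`: the trivial module `ℤ` has a resolution by finitely generated
free `ℤ[K]`-modules (type `FP_∞`). `HasL2Betti K k b`: the `k`-th `L²`-Betti number of the group `K` is `b`.

`W` is a contractible Hausdorff topological manifold of dimension `n = finrank E`, with boundary and corners allowed (a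
charted space over the model `H` of a model with corners `I`; no smoothness is assumed, neither of `W` nor of the action).
For a compact aspherical `n`-manifold with boundary one takes for `W` its universal cover.
-/

set_option autoImplicit false

namespace Pool.Agent.H77GP.Old

open Pool.Agent.H77GP Pool.Agent.N496.CV

/-- Let the groups `G v` contain an element of infinite order and a normal subgroup `N v` (for instance `N v = G v`, or
`N v` infinite cyclic) of type `FP_∞` all of whose `L²`-Betti numbers vanish. If the graph product of the `G v` acts
properly discontinuously on a contractible topological `n`-manifold, then its `L²`-Betti numbers vanish in all degrees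
`k > n / 2`. -/
theorem result : ∀ (V : Type) [Finite V] (Γ : SimpleGraph V) (G : V → Type) [∀ v, Group (G v)]
    (N : ∀ v, Subgroup (G v)),
    (∀ v, (N v).Normal) →
    (∀ v, Nonempty (V7N.FreeRes (N v))) →
    (∀ v k, HasL2Betti (N v) k 0) →
    (∀ v, ∃ z : G v, ¬ IsOfFinOrder z) →
    ∀ (E : Type) [NormedAddCommGroup E] [NormedSpace ℝ E] [FiniteDimensional ℝ E] (H : Type) [TopologicalSpace H]
    (_ : ModelWithCorners ℝ E H) (W : Type) [TopologicalSpace W] [T2Space W] [ChartedSpace H W] [ContractibleSpace W]
    [MulAction (GP Γ G) W] [ContinuousConstSMul (GP Γ G) W] [ProperlyDiscontinuousSMul (GP Γ G) W] (k : ℕ),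
    Module.finrank ℝ E < 2 * k → HasL2Betti (GP Γ G) k 0 := by
  intro V _ Γ G _ N hN hF hb hz E _ _ _ H _ I W _ _ _ _ _ _ _ k hk
  obtain ⟨_⟩ := nonempty_fintype V
  choose z hz using hz
  exact main Γ G N hN hF hb z hz I (W := W) hk

end Pool.Agent.H77GP.Old
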